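import Pool.Agent.Lib.MP_83fbc5_gt.RFC.CDefs

/-!
# RFC, module C6: the homomorphism `ρ : Kˣ × G → Uˣ`

PROOF. `(k, g) ↦ fun i => k • pm K (σ i) g` is a monoid homomorphism `Kˣ × G → MS K X` (`map_mul`, `smul_mul_smul_comm`), compose with `π` and
use `MonoidHom.toHomUnits` (a homomorphism from a group to a monoid has values in units). `κ = π ∘ (k ↦ fun i => k • 1)`
(`Matrix.scalar`, or `algebraMap K (MS K X)`: `Pi` and `Matrix` algebras; `Algebra.algebraMap_eq_smul_one`).
`rp_single`: `MonoidAlgebra.lift_single`.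
(15-20 minutes)
-/

set_option autoImplicit false

namespace RFC

universe w

theorem exists_rho {K : Type w} [Field K] {X : ℕ → Type} [∀ i, Fintype (X i)] [∀ i, DecidableEq (X i)] {U : Type w} [Ring U]
    (π : MS K X →+* U) {G : Type} [Group G] (σ : ∀ i, G →* Equiv.Perm (X i)) :
    ∃ (ρ : Kˣ × G →* Uˣ) (κ : K →+* U),
      (∀ (k : Kˣ) (g : G), (ρ (k, g) : U) = π (fun i => (k : K) • pm K (σ i) g)) ∧
      (∀ k : K, κ k = π (fun _ => k • (1 : Matrix _ _ K))) := by
  let f : Kˣ × G →* MS K X :=
    { toFun := fun p i => (p.1 : K) • pm K (σ i) p.2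
      map_one' := by
        funext i
        simp
      map_mul' := by
        intro p q
        funext i
        show ((p.1 * q.1 : Kˣ) : K) • pm K (σ i) (p.2 * q.2) = ((p.1 : K) • pm K (σ i) p.2) * ((q.1 : K) • pm K (σ i) q.2)
        rw [map_mul, Units.val_mul, smul_mul_smul_comm] }
  refine ⟨MonoidHom.toHomUnits (π.toMonoidHom.comp f), π.comp (algebraMap K (MS K X)), fun k g => rfl, fun k => ?_⟩
  show π (algebraMap K (MS K X) k) = _
  congr 1
  funext i
  show algebraMap K (Matrix (X i) (X i) K) k = _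
  rw [Algebra.algebraMap_eq_smul_one]

theorem rp_single (K : Type w) [Field K] {G X : Type} [Group G] [Fintype X] [DecidableEq X] (σ : G →* Equiv.Perm X)
    (k : K) (g : G) : rp K σ (MonoidAlgebra.single g k) = k • pm K σ g := by
  rw [rp, MonoidAlgebra.lift_single]

end RFC
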