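import Pool.Agent.Lib.MP_83fbc5_gt.RFC.EDefs
import Pool.Agent.Lib.MP_83fbc5_gt.RFC.C6

/-!
# RFC, module E2: the rank `NBT.rk` as the rank of a block matrix

PROOF. `NBT.rk F N A` is the dimension of the range of `u ↦ u A'` on `(F[G/N])^m`, `A' = A.map (toQ F N)`. Coordinates: the `F`-linear equivalence
`c : (m → F[G/N]) ≃ (m × (G ⧸ N) → F)`, `c u (a, x) = (u a) x` (coefficient). CLAIM: `c (u A') = (c u) ᵥ* M` with
`M = blk ((A.map ..).map (rp F (qs N)))`: both sides are additive in `u` and in the entries of `A`; for `u = single x k` in the component `a`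
and the entry `A a b = single g z`: `u * A' = single (x * ḡ) (k z)`, and `rp F (qs N) (single g z)` is `z` times the matrix of
`[x = y ḡ⁻¹]`, so the row `x` has its only nonzero entry at `y = x ḡ`. Simplest: compute both sides as
`∑ a, ∑ x, u a x * ∑ g, A a b g * [x ḡ = y]` (`MonoidAlgebra` multiplication, `Finsupp.sum`), or prove
`coeff (v * toQ F N z) y = ∑ x, v x * (rp F (qs N) z') x y` for `z : ℤ[G]` by induction on `z` (`NBT.zg_ind` in Basic, `toQ_el`), where
`z' = MonoidAlgebra.mapRingHom G (Int.castRingHom F) z`. Then the ranges have the same dimension (`LinearEquiv.finrank_eq` for the map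
between the ranges, or `LinearMap.range_comp`), and the range of `w ↦ w ᵥ* M` has dimension `Mᵀ.rank = M.rank` (`Matrix.rank_transpose`,
`Matrix.vecMul_transpose` / `Matrix.mulVec_transpose`).
(45-60 minutes)
-/

set_option autoImplicit false

namespace RFC

universe w

private theorem e2_coeff (F : Type w) [Field F] {G : Type} [Group G] (N : Subgroup G) [N.Normal]
    [Fintype (G ⧸ N)] [DecidableEq (G ⧸ N)] (v : MonoidAlgebra F (G ⧸ N)) (z : MonoidAlgebra ℤ G)
    (y : G ⧸ N) :
    (v * NBT.toQ F N z).coeff y = ∑ x, v.coeff x *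
      (rp F (qs N) (MonoidAlgebra.mapRingHom G (Int.castRingHom F) z)) x y := by
  induction z using NBT.zg_ind with
  | h0 =>
    rw [map_zero, mul_zero, map_zero, map_zero]
    simp
  | he g =>
    rw [NBT.toQ_el, MonoidAlgebra.coeff_mul_single_apply, mul_one]
    have h1 : MonoidAlgebra.mapRingHom G (Int.castRingHom F) (NBT.el g) =
        MonoidAlgebra.single g (1 : F) := by
      simp [NBT.el]
    rw [h1, rp_single, one_smul]
    have h2 : ∀ x, (pm F (qs N) g) x y =
        if x = y * (QuotientGroup.mk g : G ⧸ N)⁻¹ then 1 else 0 := fun x => rfl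
    simp only [h2, mul_ite, mul_one, mul_zero, Finset.sum_ite_eq', Finset.mem_univ, if_true]
  | ha z z' hz hz' =>
    rw [map_add, mul_add, map_add, map_add, MonoidAlgebra.coeff_add, Finsupp.add_apply, hz, hz',
      ← Finset.sum_add_distrib]
    refine Finset.sum_congr rfl fun x _ => ?_
    rw [Matrix.add_apply, mul_add]
  | hn z hz =>
    rw [map_neg, mul_neg, map_neg, map_neg, MonoidAlgebra.coeff_neg, Finsupp.neg_apply, hz,
      ← Finset.sum_neg_distrib]
    refine Finset.sum_congr rfl fun x _ => ?_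
    rw [Matrix.neg_apply, mul_neg]

/-- coordinates -/
private noncomputable def e2_c (F : Type w) [Field F] {G : Type} [Group G] (N : Subgroup G)
    [N.Normal] (m : Type) : (m → MonoidAlgebra F (G ⧸ N)) →ₗ[F] (m × (G ⧸ N) → F) where
  toFun u p := (u p.1).coeff p.2
  map_add' _ _ := rfl
  map_smul' _ _ := rfl

private theorem e2_inj (F : Type w) [Field F] {G : Type} [Group G] (N : Subgroup G)
    [N.Normal] (m : Type) : Function.Injective (e2_c F N m) := by
  intro u v h
  funext a
  ext x
  exact congrFun h (a, x)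

private theorem e2_surj (F : Type w) [Field F] {G : Type} [Group G] (N : Subgroup G)
    [N.Normal] [Fintype (G ⧸ N)] (m : Type) : Function.Surjective (e2_c F N m) := by
  intro t
  refine ⟨fun a => MonoidAlgebra.ofCoeff (Finsupp.equivFunOnFinite.symm (fun x => t (a, x))), ?_⟩
  funext p
  rfl

theorem rk_eq (F : Type w) [Field F] {G : Type} [Group G] (N : Subgroup G) [N.Normal] [Fintype (G ⧸ N)] [DecidableEq (G ⧸ N)]
    {m n : Type} [Fintype m] [Fintype n] (A : Matrix m n (MonoidAlgebra ℤ G)) :
    NBT.rk F N A =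
      (blk ((A.map (MonoidAlgebra.mapRingHom G (Int.castRingHom F))).map (rp F (qs N)))).rank := by
  classical
  set M : Matrix (m × (G ⧸ N)) (n × (G ⧸ N)) F :=
    blk ((A.map (MonoidAlgebra.mapRingHom G (Int.castRingHom F))).map (rp F (qs N))) with hM
  have hcomm : (e2_c F N n) ∘ₗ NBT.actM F (A.map (NBT.toQ F N)) =
      (Matrix.vecMulLinear M) ∘ₗ (e2_c F N m) := by
    apply LinearMap.ext
    intro u
    funext p
    have h1 : (NBT.actM F (A.map (NBT.toQ F N)) u) p.1 = ∑ a, u a * NBT.toQ F N (A a p.1) := rfl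
    have h2 : ((e2_c F N n) ∘ₗ NBT.actM F (A.map (NBT.toQ F N))) u p =
        ((NBT.actM F (A.map (NBT.toQ F N)) u) p.1).coeff p.2 := rfl
    rw [h2, h1, MonoidAlgebra.coeff_sum, Finsupp.finsetSum_apply]
    have h3 : ((Matrix.vecMulLinear M) ∘ₗ (e2_c F N m)) u p =
        ∑ q : m × (G ⧸ N), (u q.1).coeff q.2 * M q p := rfl
    rw [h3, Fintype.sum_prod_type]
    refine Finset.sum_congr rfl fun a _ => ?_
    rw [e2_coeff]
    rfl
  have hr1 : Module.finrank F (LinearMap.range ((e2_c F N n) ∘ₗ NBT.actM F (A.map (NBT.toQ F N)))) =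
      NBT.rk F N A := by
    rw [LinearMap.range_comp]
    exact (Submodule.equivMapOfInjective _ (e2_inj F N n) _).finrank_eq.symm
  have hr2 : Module.finrank F (LinearMap.range ((Matrix.vecMulLinear M) ∘ₗ (e2_c F N m))) =
      M.rank := by
    rw [LinearMap.range_comp_of_range_eq_top _ (LinearMap.range_eq_top.2 (e2_surj F N m)),
      ← Matrix.rank_transpose]
    have h4 : Matrix.vecMulLinear M = (Matrix.transpose M).mulVecLin := by
      apply LinearMap.ext
      intro t
      rw [Matrix.mulVecLin_apply, Matrix.mulVec_transpose]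
      rfl
    rw [h4]
    rfl
  rw [← hr1, hcomm]
  exact hr2

end RFC
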