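import Pool.Agent.Lib.MP_83fbc5_gt.RFC.VDefs

/-!
# RFC, module V4: the subgroups `Kn`; cofinal sequences exist

PROOF. `kn_fin`: a homomorphism from a finitely generated group to a finite group is determined by its values on a finite generating set,
so there are finitely many (`Finite (G →* Equiv.Perm (Fin n))`: injection to functions on the generating finset, `MonoidHom.eq_of_eqOn_dense`
/ `eq_of_eqOn_top`); each kernel has finite index (`Subgroup.finiteIndex_ker`), so does the finite intersection. `kn_map`: for an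
automorphism `α`, `f ∘ α` runs over all homomorphisms. `kn_le`: `B` of index `n > 0`: `G ⧸ B ≃ Fin n`, the action on the cosets
(`MulAction.toPermHom`, transported to `Fin n`) has kernel `≤ B` (`Subgroup.normalCore_le`, `Subgroup.normalCore_eq_ker`).
`exists_cofinal`: `N i = ⨅ n ≤ i, Kn G n` (`n : Fin (i + 1)`).
(40-50 minutes)
-/

set_option autoImplicit false

namespace RFC

private theorem V4_fin (G : Type) [Group G] [Group.FG G] (n : ℕ) : Finite (G →* Equiv.Perm (Fin n)) := by
  obtain ⟨S, hS, hSf⟩ := Group.fg_iff.mp (inferInstance : Group.FG G)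
  have : Finite S := hSf
  refine Finite.of_injective (fun (f : G →* Equiv.Perm (Fin n)) (s : S) => f s) ?_
  intro f g hfg
  refine MonoidHom.eq_of_eqOn_dense hS ?_
  intro x hx
  exact congrFun hfg ⟨x, hx⟩

theorem kn_fin (G : Type) [Group G] [Group.FG G] (n : ℕ) : (Kn G n).FiniteIndex := by
  have := V4_fin G n
  exact Subgroup.finiteIndex_iInf fun f => Subgroup.finiteIndex_ker f

theorem kn_normal (G : Type) [Group G] (n : ℕ) : (Kn G n).Normal :=
  Subgroup.normal_iInf_normal fun f => f.normal_ker

theorem kn_map {G : Type} [Group G] (n : ℕ) (α : G ≃* G) (x : G) (hx : x ∈ Kn G n) : α x ∈ Kn G n := by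
  unfold Kn at hx ⊢
  rw [Subgroup.mem_iInf] at hx ⊢
  intro f
  have h := hx (f.comp α.toMonoidHom)
  rw [MonoidHom.mem_ker] at h ⊢
  exact h

theorem kn_le {G : Type} [Group G] (B : Subgroup G) [B.FiniteIndex] : Kn G B.index ≤ B := by
  have : Finite (G ⧸ B) := Subgroup.finite_quotient_of_finiteIndex
  have e : (G ⧸ B) ≃ Fin B.index := Finite.equivFinOfCardEq rfl
  intro x hx
  unfold Kn at hx
  rw [Subgroup.mem_iInf] at hx
  have h := hx ((Equiv.permCongrHom e).toMonoidHom.comp (MulAction.toPermHom G (G ⧸ B)))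
  rw [MonoidHom.mem_ker] at h
  have h1 : MulAction.toPermHom G (G ⧸ B) x = 1 := by
    apply (Equiv.permCongrHom e).injective
    rw [map_one]
    exact h
  have h2 : x ∈ B.normalCore := by
    rw [Subgroup.normalCore_eq_ker, MonoidHom.mem_ker]
    exact h1
  exact Subgroup.normalCore_le B h2

theorem exists_cofinal (G : Type) [Group G] [Group.FG G] :
    ∃ N : ℕ → Subgroup G, (∀ i, (N i).Normal) ∧ (∀ i, (N i).FiniteIndex) ∧ Antitone N ∧ Cofinal N := by
  refine ⟨fun i => ⨅ n : Fin (i + 1), Kn G n, ?_, ?_, ?_, ?_⟩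
  · intro i
    exact Subgroup.normal_iInf_normal fun n => kn_normal G n
  · intro i
    exact Subgroup.finiteIndex_iInf fun n => kn_fin G n
  · intro i j hij
    refine le_iInf fun n => ?_
    exact iInf_le_of_le ⟨n, lt_of_lt_of_le n.2 (Nat.succ_le_succ hij)⟩ le_rfl
  · intro B hB
    have := hB
    filter_upwards [Filter.eventually_ge_atTop B.index] with i hi
    exact iInf_le_of_le ⟨B.index, Nat.lt_succ_of_le hi⟩ (kn_le B)

end RFC
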