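import Pool.Agent.Lib.MP_83fbc5_gt.RFC.E7
import Pool.Agent.Lib.MP_83fbc5_gt.RFC.V4
import Pool.Agent.Lib.MP_83fbc5_gt.BET

/-!
# RFC, module E8: all rich sequences have the same limit; Betti numbers

PROOF. Let `C` be a cofinal sequence (`exists_cofinal`) and `N` a rich sequence. Then the interleaved sequence is rich: for `S` take `φ`
and the `m` of `N`; for one `i` the subgroup `B = N i` has finite index and `S ∩ B ⊆ φ⁻¹(m ℤ)`, so eventually `C j ≤ B`.
-/

set_option autoImplicit false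

namespace RFC

open Filter

universe w

/-- the interleaved sequence -/
private def E8mix {G : Type} [Group G] (C N : ℕ → Subgroup G) (i : ℕ) : Subgroup G :=
  if i % 2 = 0 then C (i / 2) else N (i / 2)

private theorem E8_even {G : Type} [Group G] (C N : ℕ → Subgroup G) (i : ℕ) : E8mix C N (2 * i) = C i := by
  unfold E8mix
  rw [if_pos (by omega), show 2 * i / 2 = i by omega]

private theorem E8_odd {G : Type} [Group G] (C N : ℕ → Subgroup G) (i : ℕ) : E8mix C N (2 * i + 1) = N i := by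
  unfold E8mix
  rw [if_neg (by omega), show (2 * i + 1) / 2 = i by omega]

private theorem E8_ev {G : Type} [Group G] (C N : ℕ → Subgroup G) (P : Subgroup G → Prop)
    (h0 : ∀ᶠ i in atTop, P (C i)) (h1 : ∀ᶠ i in atTop, P (N i)) : ∀ᶠ i in atTop, P (E8mix C N i) := by
  obtain ⟨a, ha⟩ := eventually_atTop.1 h0
  obtain ⟨b, hb⟩ := eventually_atTop.1 h1
  refine eventually_atTop.2 ⟨2 * (a + b), fun i hi => ?_⟩
  unfold E8mix
  split_ifs
  · exact ha _ (by omega)
  · exact hb _ (by omega)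

private theorem E8_rich {G : Type} [Group G] (H : Subgroup G) [H.FiniteIndex] (C N : ℕ → Subgroup G)
    (hf : ∀ i, (N i).FiniteIndex) (hC : Cofinal C) (hN : RichIn H N) : RichIn H (E8mix C N) := by
  refine ⟨E8_ev C N (fun B => B ≤ H) (hC H inferInstance) hN.1, fun S hS hfg hne => ?_⟩
  obtain ⟨φ, hφ, hm⟩ := hN.2 S hS hfg hne
  refine ⟨φ, hφ, fun n => ?_⟩
  obtain ⟨m, hnm, hm⟩ := hm n
  refine ⟨m, hnm, E8_ev C N (fun B => ∀ s : S, (s : G) ∈ B → (m : ℤ) ∣ Multiplicative.toAdd (φ s)) ?_ hm⟩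
  obtain ⟨i, hi⟩ := hm.exists
  filter_upwards [hC (N i) (hf i)] with j hj s hs
  exact hi s (hj hs)

theorem conv_rk' (F : Type w) [Field F] {G : Type} [Group G] [Group.FG G] (H : Subgroup G) [H.FiniteIndex] {m n : Type} [Fintype m]
    [Fintype n] (A : Matrix m n (MonoidAlgebra ℤ G)) :
    ∃ r : ℕ, ∀ (N : ℕ → Subgroup G) [∀ i, (N i).Normal] [∀ i, (N i).FiniteIndex], RichIn H N →
      Tendsto (fun i => (NBT.rk F (N i) A : ℝ) / ((N i).index : ℝ)) atTop (nhds ((r : ℝ) / (H.index : ℝ))) := by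
  classical
  by_cases hex : ∃ N0 : ℕ → Subgroup G, (∀ i, (N0 i).Normal) ∧ (∀ i, (N0 i).FiniteIndex) ∧ RichIn H N0
  · obtain ⟨N0, n0, f0, r0⟩ := hex
    obtain ⟨C, nC, fC, -, cC⟩ := exists_cofinal G
    have key : ∀ (N : ℕ → Subgroup G) [∀ i, (N i).Normal] [∀ i, (N i).FiniteIndex], RichIn H N →
        ∃ r : ℕ, Tendsto (fun i => (NBT.rk F (N i) A : ℝ) / ((N i).index : ℝ)) atTop (nhds ((r : ℝ) / (H.index : ℝ))) ∧
          Tendsto (fun i => (NBT.rk F (C i) A : ℝ) / ((C i).index : ℝ)) atTop (nhds ((r : ℝ) / (H.index : ℝ))) := by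
      intro N nN fN rN
      have n2 : ∀ i, (E8mix C N i).Normal := by
        intro i
        unfold E8mix
        split_ifs
        · exact nC _
        · exact nN _
      have f2 : ∀ i, (E8mix C N i).FiniteIndex := by
        intro i
        unfold E8mix
        split_ifs
        · exact fC _
        · exact fN _
      obtain ⟨r, hr⟩ := conv_rich F H A (E8mix C N) (E8_rich H C N fN cC rN)
      have t0 : Tendsto (fun i : ℕ => 2 * i) atTop atTop :=
        tendsto_atTop_mono (fun i => by rw [id_eq]; omega) tendsto_id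
      have t1 : Tendsto (fun i : ℕ => 2 * i + 1) atTop atTop :=
        tendsto_atTop_mono (fun i => by rw [id_eq]; omega) tendsto_id
      have h0 := hr.comp t0
      have h1 := hr.comp t1
      have g0 : (fun i => (NBT.rk F (E8mix C N i) A : ℝ) / ((E8mix C N i).index : ℝ)) ∘ (fun i : ℕ => 2 * i) =
          fun i => (NBT.rk F (C i) A : ℝ) / ((C i).index : ℝ) := by
        funext i
        change (NBT.rk F (E8mix C N (2 * i)) A : ℝ) / ((E8mix C N (2 * i)).index : ℝ) = _
        rw [NBT.rk_congr F (E8_even C N i) A, E8_even C N i]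
      have g1 : (fun i => (NBT.rk F (E8mix C N i) A : ℝ) / ((E8mix C N i).index : ℝ)) ∘
          (fun i : ℕ => 2 * i + 1) =
          fun i => (NBT.rk F (N i) A : ℝ) / ((N i).index : ℝ) := by
        funext i
        change (NBT.rk F (E8mix C N (2 * i + 1)) A : ℝ) / ((E8mix C N (2 * i + 1)).index : ℝ) = _
        rw [NBT.rk_congr F (E8_odd C N i) A, E8_odd C N i]
      rw [g0] at h0
      rw [g1] at h1
      exact ⟨r, h1, h0⟩
    obtain ⟨r, -, hr⟩ := key N0 r0
    refine ⟨r, ?_⟩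
    intro N nN fN rN
    obtain ⟨r', h1, h2⟩ := key N rN
    rw [tendsto_nhds_unique hr h2]
    exact h1
  · refine ⟨0, fun N n1 f1 c1 => ?_⟩
    exact absurd ⟨N, n1, f1, c1⟩ hex

theorem conv_betti' (F : Type w) [Field F] {G : Type} [Group G] [Group.FG G] (H : Subgroup G) [H.FiniteIndex] {D : ℕ}
    (R : NBT.FFR G D) (n : ℕ) :
    ∃ r : ℤ, ∀ (N : ℕ → Subgroup G) [∀ i, (N i).Normal] [∀ i, (N i).FiniteIndex], RichIn H N →
      Tendsto (fun i => (NBT.betti F R (N i) n : ℝ) / ((N i).index : ℝ)) atTop (nhds ((r : ℝ) / (H.index : ℝ))) := by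
  have hH0 : (H.index : ℝ) ≠ 0 := by exact_mod_cast Subgroup.FiniteIndex.index_ne_zero
  cases n with
  | zero =>
    obtain ⟨r, hr⟩ := conv_rk' F H (R.d 0)
    refine ⟨(Fintype.card (R.ι 0) : ℤ) * H.index - r, fun N n1 f1 c1 => ?_⟩
    have h1 := (tendsto_const_nhds (x := (Fintype.card (R.ι 0) : ℝ))).sub (hr N c1)
    have e1 : (((Fintype.card (R.ι 0) : ℤ) * H.index - r : ℤ) : ℝ) / (H.index : ℝ) =
        (Fintype.card (R.ι 0) : ℝ) - (r : ℝ) / (H.index : ℝ) := by
      push_cast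
      field_simp
    rw [e1]
    refine h1.congr fun i => ?_
    have hi0 : ((N i).index : ℝ) ≠ 0 := by exact_mod_cast Subgroup.FiniteIndex.index_ne_zero
    have h2 : (NBT.betti F R (N i) 0 : ℝ) + (NBT.rk F (N i) (R.d 0) : ℝ) =
        (Fintype.card (R.ι 0) : ℝ) * ((N i).index : ℝ) := by
      exact_mod_cast NBT.betti_zero F R (N i)
    rw [eq_div_iff hi0, sub_mul, div_mul_cancel₀ _ hi0]
    linarith
  | succ n =>
    obtain ⟨r, hr⟩ := conv_rk' F H (R.d n)
    obtain ⟨r', hr'⟩ := conv_rk' F H (R.d (n + 1))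
    refine ⟨(Fintype.card (R.ι (n + 1)) : ℤ) * H.index - r - r', fun N n1 f1 c1 => ?_⟩
    have h1 := ((tendsto_const_nhds (x := (Fintype.card (R.ι (n + 1)) : ℝ))).sub (hr N c1)).sub
      (hr' N c1)
    have e1 : (((Fintype.card (R.ι (n + 1)) : ℤ) * H.index - r - r' : ℤ) : ℝ) / (H.index : ℝ) =
        (Fintype.card (R.ι (n + 1)) : ℝ) - (r : ℝ) / (H.index : ℝ) - (r' : ℝ) / (H.index : ℝ) := by
      push_cast
      field_simp
    rw [e1]
    refine h1.congr fun i => ?_
    have hi0 : ((N i).index : ℝ) ≠ 0 := by exact_mod_cast Subgroup.FiniteIndex.index_ne_zero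
    have h2 : (NBT.betti F R (N i) (n + 1) : ℝ) + (NBT.rk F (N i) (R.d n) : ℝ) +
        (NBT.rk F (N i) (R.d (n + 1)) : ℝ) =
        (Fintype.card (R.ι (n + 1)) : ℝ) * ((N i).index : ℝ) := by
      exact_mod_cast NBT.betti_succ F R (N i) n
    rw [eq_div_iff hi0, sub_mul, sub_mul, div_mul_cancel₀ _ hi0, div_mul_cancel₀ _ hi0]
    linarith

end RFC
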