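import Pool.Agent.Lib.MP_83fbc5_gt.RFC.WDefs

/-!
# RFC, module W1: cofinal sequences in groups with a subgroup of class `VI` are rich

PROOF. For `S ≤ H` the subgroup `S.subgroupOf H` of `H` is finitely generated (isomorphic to `S`: `Subgroup.subgroupOfEquivOfLe`, or
`(S.subgroupOf H).map H.subtype = S` and injectivity) and nontrivial; transport `φ`; `B ≤ H` of finite index in `H` gives `B.map H.subtype` of
finite index in `G`, and eventually `N i ≤ B.map H.subtype`.
(20 minutes)
-/

set_option autoImplicit false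

namespace RFC

open Filter

theorem vi_richin {G : Type} [Group G] (H : Subgroup G) [H.FiniteIndex] (hH : VI H) (N : ℕ → Subgroup G) (hN : Cofinal N) :
    RichIn H N := by
  refine ⟨hN H inferInstance, fun S hS hfg hne => ?_⟩
  have hmap : (S.subgroupOf H).map H.subtype = S := by
    rw [Subgroup.subgroupOf_map_subtype, inf_eq_left.2 hS]
  have hfg' : (S.subgroupOf H).FG := by
    have h1 : Group.FG S := (Group.fg_iff_subgroup_fg S).2 hfg
    have h2 : Group.FG (S.subgroupOf H) := Group.fg_of_surjective (f := (Subgroup.subgroupOfEquivOfLe hS).symm.toMonoidHom)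
      (Subgroup.subgroupOfEquivOfLe hS).symm.surjective
    exact (Group.fg_iff_subgroup_fg _).1 h2
  have hne' : S.subgroupOf H ≠ ⊥ := by
    intro hb
    rw [hb, Subgroup.map_bot] at hmap
    exact hne hmap.symm
  obtain ⟨φ, hφ, hm⟩ := hH _ hfg' hne'
  let e := (Subgroup.subgroupOfEquivOfLe hS).symm
  refine ⟨φ.comp e.toMonoidHom, hφ.comp e.surjective, fun n => ?_⟩
  obtain ⟨m, hnm, B, hB, hm⟩ := hm n
  refine ⟨m, hnm, ?_⟩
  have hfin : (B.map H.subtype).FiniteIndex := by
    refine ⟨?_⟩
    have h1 := Subgroup.index_map_subtype B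
    rw [h1]
    exact mul_ne_zero hB.index_ne_zero Subgroup.FiniteIndex.index_ne_zero
  filter_upwards [hN _ hfin] with i hi s hs
  refine hm (e s) ?_
  obtain ⟨b, hb, hbs⟩ := hi hs
  have e1 : ((e s : S.subgroupOf H) : H) = b := by
    apply Subtype.ext
    exact hbs.symm
  rw [e1]
  exact hb

end RFC
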