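import Pool.Agent.Lib.MP_83fbc5_gt.RFC.RDefs

/-!
# RFC, module A1: the recursive path order on shapes is well founded

PROOF. (1) `Acc Lt Sh.o`: no constructor of `Lt` ends in `Lt _ Sh.o` (`cases`).
(2) `∀ x, Acc Lt x → ∀ y, Acc Lt y → Acc Lt (Sh.a x y)`: induction on `Acc Lt x` (hypothesis IHx: for all `s < x` and all accessible
`t`: `Sh.a s t` accessible), inside it induction on `Acc Lt y`. `Acc.intro _ fun s hs => by cases hs`: `a_l h`: `s < x` is accessible
(`Acc.inv`), `a_l'`, `a_r`, `a_r'` similar, `a_ll hs ht`: `IHx s hs t (hy.inv ht)`, `a_le hs`: `IHx s hs y hy`, `a_el ht`: `IHy`.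
(3) The same for `Sh.m x y`; inside, prove `∀ z s, Lt s z → z = Sh.m x y → Acc Lt s` by induction on `Lt s z`: `m_ll, m_le, m_el` by the
induction hypotheses of the outer inductions, `m_a` by (2) and the inner induction hypotheses.
(4) The same for `Sh.i x` (outer induction on `Acc Lt x`), inner induction over the derivation: `i_i hs` outer hypothesis, `i_a` by (2),
`i_m` by (3). (5) Structural induction on the shape.
-/

set_option autoImplicit false

namespace RFC

private theorem A1_acc_o : Acc Lt Sh.o := Acc.intro _ fun s hs => by cases hs

private theorem A1_acc_a : ∀ {x : Sh}, Acc Lt x → ∀ {y : Sh}, Acc Lt y → Acc Lt (Sh.a x y) := by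
  intro x hx
  induction hx with
  | intro x hx' IHx =>
    have hx : Acc Lt x := Acc.intro x hx'
    intro y hy
    induction hy with
    | intro y hy' IHy =>
      have hy : Acc Lt y := Acc.intro y hy'
      refine Acc.intro _ fun s hs => ?_
      cases hs with
      | a_l h => exact hx.inv h
      | a_l' => exact hx
      | a_r h => exact hy.inv h
      | a_r' => exact hy
      | a_ll hs ht => exact IHx _ hs (hy.inv ht)
      | a_le hs => exact IHx _ hs hy
      | a_el ht => exact IHy _ ht

private theorem A1_acc_m : ∀ {x : Sh}, Acc Lt x → ∀ {y : Sh}, Acc Lt y → Acc Lt (Sh.m x y) := by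
  intro x hx
  induction hx with
  | intro x hx' IHx =>
    have hx : Acc Lt x := Acc.intro x hx'
    intro y hy
    induction hy with
    | intro y hy' IHy =>
      have hy : Acc Lt y := Acc.intro y hy'
      have key : ∀ s z, Lt s z → z = Sh.m x y → Acc Lt s := by
        intro s z h
        induction h with
        | a_l h _ => intro e; cases e
        | a_l' => intro e; cases e
        | a_r h _ => intro e; cases e
        | a_r' => intro e; cases e
        | a_ll hs ht _ _ => intro e; cases e
        | a_le hs _ => intro e; cases e
        | a_el ht _ => intro e; cases e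
        | m_l h _ => intro e; cases e; exact hx.inv h
        | m_l' => intro e; cases e; exact hx
        | m_r h _ => intro e; cases e; exact hy.inv h
        | m_r' => intro e; cases e; exact hy
        | m_ll hs ht _ _ => intro e; cases e; exact IHx _ hs (hy.inv ht)
        | m_le hs _ => intro e; cases e; exact IHx _ hs hy
        | m_el ht _ => intro e; cases e; exact IHy _ ht
        | m_a _ _ ih1 ih2 => intro e; exact A1_acc_a (ih1 e) (ih2 e)
        | i_s h _ => intro e; cases e
        | i_s' => intro e; cases e
        | i_i hs _ => intro e; cases e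
        | i_a _ _ _ _ => intro e; cases e
        | i_m _ _ _ _ => intro e; cases e
      exact Acc.intro _ fun s hs => key s _ hs rfl

private theorem A1_acc_i : ∀ {x : Sh}, Acc Lt x → Acc Lt (Sh.i x) := by
  intro x hx
  induction hx with
  | intro x hx' IHx =>
    have hx : Acc Lt x := Acc.intro x hx'
    have key : ∀ s z, Lt s z → z = Sh.i x → Acc Lt s := by
      intro s z h
      induction h with
      | a_l h _ => intro e; cases e
      | a_l' => intro e; cases e
      | a_r h _ => intro e; cases e
      | a_r' => intro e; cases e
      | a_ll hs ht _ _ => intro e; cases e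
      | a_le hs _ => intro e; cases e
      | a_el ht _ => intro e; cases e
      | m_l h _ => intro e; cases e
      | m_l' => intro e; cases e
      | m_r h _ => intro e; cases e
      | m_r' => intro e; cases e
      | m_ll hs ht _ _ => intro e; cases e
      | m_le hs _ => intro e; cases e
      | m_el ht _ => intro e; cases e
      | m_a _ _ _ _ => intro e; cases e
      | i_s h _ => intro e; cases e; exact hx.inv h
      | i_s' => intro e; cases e; exact hx
      | i_i hs _ => intro e; cases e; exact IHx _ hs
      | i_a _ _ ih1 ih2 => intro e; exact A1_acc_a (ih1 e) (ih2 e)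
      | i_m _ _ ih1 ih2 => intro e; exact A1_acc_m (ih1 e) (ih2 e)
    exact Acc.intro _ fun s hs => key s _ hs rfl

theorem Lt_wf : WellFounded Lt := by
  refine ⟨fun x => ?_⟩
  induction x with
  | o => exact A1_acc_o
  | a x y hx hy => exact A1_acc_a hx hy
  | m x y hx hy => exact A1_acc_m hx hy
  | i x hx => exact A1_acc_i hx

end RFC
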