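import Pool.Agent.Lib.MP_83fbc5_gt.RFC.RDefs

/-!
# RFC, module A2: conjugation of expressions and of values; uniqueness of values

All by structural induction over the expression or over the derivation of `Val` (for `Val.unique`: induction on the first derivation,
`cases` on the second; in the case `inv` the units are equal by `Units.ext`). `Val.conj`: `ρ(g w g⁻¹) = ρ g ρ w (ρ g)⁻¹`
(`map_mul`, `map_inv`); in the case `inv` the conjugate of the unit `c` is the unit `ρ g * c * (ρ g)⁻¹`.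
-/

set_option autoImplicit false

namespace RFC

universe u v

section

variable {Γ : Type u}

theorem Ex.ws_finite (e : Ex Γ) : e.ws.Finite := by
  induction e with
  | one => exact Set.finite_empty
  | add p q w hp hq => exact (hp.union hq).union (Set.finite_singleton w)
  | mul p q hp hq => exact hp.union hq
  | inv p hp => exact hp

variable [Group Γ]

theorem Ex.conj_sh (g : Γ) (e : Ex Γ) : (e.conj g).sh = e.sh := by
  induction e with
  | one => rfl
  | add p q w hp hq => simp only [Ex.conj, Ex.sh, hp, hq]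
  | mul p q hp hq => simp only [Ex.conj, Ex.sh, hp, hq]
  | inv p hp => simp only [Ex.conj, Ex.sh, hp]

theorem Ex.conj_ws (g : Γ) (e : Ex Γ) : (e.conj g).ws = (fun w => g * w * g⁻¹) '' e.ws := by
  induction e with
  | one => simp only [Ex.conj, Ex.ws, Set.image_empty]
  | add p q w hp hq =>
    simp only [Ex.conj, Ex.ws, hp, hq, Set.image_union, Set.image_singleton]
  | mul p q hp hq => simp only [Ex.conj, Ex.ws, hp, hq, Set.image_union]
  | inv p hp => simp only [Ex.conj, Ex.ws, hp]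

variable {U : Type v} [Ring U] {ρ : Γ →* Uˣ}

theorem Val.conj {e : Ex Γ} {a : U} (h : Val ρ e a) (g : Γ) :
    Val ρ (e.conj g) ((ρ g : U) * a * (((ρ g)⁻¹ : Uˣ) : U)) := by
  induction h with
  | one =>
    have e : (ρ g : U) * 1 * (((ρ g)⁻¹ : Uˣ) : U) = 1 := by rw [mul_one, Units.mul_inv]
    rw [e]
    exact Val.one
  | @add p q a b w _ _ ih1 ih2 =>
    have e : (ρ g : U) * (a + b * (ρ w : U)) * (((ρ g)⁻¹ : Uˣ) : U) =
        (ρ g : U) * a * (((ρ g)⁻¹ : Uˣ) : U) +
          ((ρ g : U) * b * (((ρ g)⁻¹ : Uˣ) : U)) * (ρ (g * w * g⁻¹) : U) := by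
      rw [map_mul, map_mul, map_inv, Units.val_mul, Units.val_mul]
      simp only [mul_add, add_mul, mul_assoc, Units.inv_mul_cancel_left]
    rw [e]
    exact Val.add _ ih1 ih2
  | @mul p q a b _ _ ih1 ih2 =>
    have e : (ρ g : U) * (a * b) * (((ρ g)⁻¹ : Uˣ) : U) =
        ((ρ g : U) * a * (((ρ g)⁻¹ : Uˣ) : U)) * ((ρ g : U) * b * (((ρ g)⁻¹ : Uˣ) : U)) := by
      simp only [mul_assoc, Units.inv_mul_cancel_left]
    rw [e]
    exact Val.mul ih1 ih2
  | @inv p c _ ih =>
    have e1 : (ρ g : U) * (c : U) * (((ρ g)⁻¹ : Uˣ) : U) = ((ρ g * c * (ρ g)⁻¹ : Uˣ) : U) := by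
      rw [Units.val_mul, Units.val_mul]
    rw [e1] at ih
    have e2 : (ρ g : U) * ((c⁻¹ : Uˣ) : U) * (((ρ g)⁻¹ : Uˣ) : U) =
        (((ρ g * c * (ρ g)⁻¹)⁻¹ : Uˣ) : U) := by
      rw [mul_inv_rev, mul_inv_rev, inv_inv, Units.val_mul, Units.val_mul, mul_assoc]
    rw [e2]
    exact Val.inv ih

theorem Val.unique {e : Ex Γ} {a b : U} (h : Val ρ e a) (h' : Val ρ e b) : a = b := by
  induction h generalizing b with
  | one => cases h'; rfl
  | add w _ _ ih1 ih2 =>
    cases h' with
    | add _ h1 h2 => rw [ih1 h1, ih2 h2]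
  | mul _ _ ih1 ih2 =>
    cases h' with
    | mul h1 h2 => rw [ih1 h1, ih2 h2]
  | inv _ ih =>
    cases h' with
    | inv h1 => rw [Units.ext (ih h1)]

end

end RFC
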