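import Pool.Agent.Lib.MP_83fbc5_gt.RFC.A2

/-!
# RFC, module A3: calculus of `Zs` (values of smaller shape times group elements)

`Zq` is the version with `≤`. Everything is unfolding. SUM: `b₁ ρ g₁ + b₂ ρ g₂ = (b₁ + b₂ ρ (g₂ g₁⁻¹)) ρ g₁`, expression
`Ex.add e₁ e₂ (g₂ * g₁⁻¹)`. PRODUCT: `b₁ ρ g₁ b₂ ρ g₂ = (b₁ (ρ g₁ b₂ ρ g₁⁻¹)) ρ (g₁ g₂)`, expression `Ex.mul e₁ (e₂.conj g₁)`.
INVERSE: if `c = b ρ g` is a unit then `b` is a unit and `c⁻¹ = ρ g⁻¹ b⁻¹ = (ρ g⁻¹ b⁻¹ ρ g) ρ g⁻¹`, expression `(Ex.inv e).conj g⁻¹`.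
NEGATIVE: `- (b ρ g) = b ρ (g w0)`. Rules used: `a_ll, a_le, a_el, a_l, a_l', a_r, a_r'` for `Zq.add`, `m_ll, m_le, m_el` for `Zq.mul`,
`m_a` for `Zs.add_m`, `i_a`, `i_m`, `i_i`, `i_s`. In `Zq.add` if one summand is `0` the other one is a single part (which may have shape
equal to `x` or `y`: rules `a_l'`, `a_r'`).
-/

set_option autoImplicit false

namespace RFC

universe u v

section

variable {Γ : Type u} [Group Γ] {U : Type v} [Ring U] (ρ : Γ →* Uˣ)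

/-- `c` is `0` or `b ρ(g)` with `g ∈ N` and `b` the value of an expression over `N` with shape smaller than or equal to `x` -/
def Zq (N : Subgroup Γ) (x : Sh) (c : U) : Prop :=
  c = 0 ∨ ∃ (e : Ex Γ) (g : Γ) (b : U), e.ws ⊆ N ∧ g ∈ N ∧ (Lt e.sh x ∨ e.sh = x) ∧ Val ρ e b ∧ c = b * (ρ g : U)

variable {ρ} {N : Subgroup Γ} {x y : Sh} {c c' : U}

private theorem A3_add {z : Sh} {e₁ e₂ : Ex Γ} {g₁ g₂ : Γ} {b₁ b₂ : U} (hw₁ : e₁.ws ⊆ N) (hg₁ : g₁ ∈ N)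
    (hv₁ : Val ρ e₁ b₁) (hw₂ : e₂.ws ⊆ N) (hg₂ : g₂ ∈ N) (hv₂ : Val ρ e₂ b₂)
    (hlt : Lt (Sh.a e₁.sh e₂.sh) z) : Zs ρ N z (b₁ * (ρ g₁ : U) + b₂ * (ρ g₂ : U)) := by
  refine Or.inr ⟨Ex.add e₁ e₂ (g₂ * g₁⁻¹), g₁, b₁ + b₂ * (ρ (g₂ * g₁⁻¹) : U), ?_, hg₁, hlt,
    Val.add _ hv₁ hv₂, ?_⟩
  · intro w hw
    rcases hw with (hw | hw) | hw
    · exact hw₁ hw
    · exact hw₂ hw
    · rw [Set.mem_singleton_iff] at hw
      subst hw
      exact N.mul_mem hg₂ (N.inv_mem hg₁)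
  · rw [add_mul, mul_assoc b₂, ← Units.val_mul, ← map_mul, inv_mul_cancel_right]

private theorem A3_ws {g : Γ} {e : Ex Γ} (hw : e.ws ⊆ N) (hg : ∀ n ∈ N, g * n * g⁻¹ ∈ N) :
    (e.conj g).ws ⊆ N := by
  rw [Ex.conj_ws]
  rintro _ ⟨w, hw', rfl⟩
  exact hg w (hw hw')

private theorem A3_cj {g : Γ} (hg : g ∈ N) : ∀ n ∈ N, g * n * g⁻¹ ∈ N :=
  fun _ hn => N.mul_mem (N.mul_mem hg hn) (N.inv_mem hg)

private theorem A3_mul {z : Sh} {e₁ e₂ : Ex Γ} {g₁ g₂ : Γ} {b₁ b₂ : U} (hw₁ : e₁.ws ⊆ N) (hg₁ : g₁ ∈ N)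
    (hv₁ : Val ρ e₁ b₁) (hw₂ : e₂.ws ⊆ N) (hg₂ : g₂ ∈ N) (hv₂ : Val ρ e₂ b₂)
    (hlt : Lt (Sh.m e₁.sh e₂.sh) z) : Zs ρ N z ((b₁ * (ρ g₁ : U)) * (b₂ * (ρ g₂ : U))) := by
  refine Or.inr ⟨Ex.mul e₁ (e₂.conj g₁), g₁ * g₂,
    b₁ * ((ρ g₁ : U) * b₂ * (((ρ g₁)⁻¹ : Uˣ) : U)), ?_, N.mul_mem hg₁ hg₂, ?_,
    Val.mul hv₁ (hv₂.conj g₁), ?_⟩
  · intro w hw
    rcases hw with hw | hw
    · exact hw₁ hw
    · exact A3_ws hw₂ (A3_cj hg₁) hw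
  · show Lt (Sh.m e₁.sh (e₂.conj g₁).sh) z
    rw [Ex.conj_sh]
    exact hlt
  · rw [map_mul, Units.val_mul]
    simp only [mul_assoc, Units.inv_mul_cancel_left]

private theorem A3_conj {g : Γ} {e : Ex Γ} {h : Γ} {b : U} (hw : e.ws ⊆ N) (hh : h ∈ N) (hv : Val ρ e b)
    (hg : ∀ n ∈ N, g * n * g⁻¹ ∈ N) : (e.conj g).ws ⊆ N ∧ g * h * g⁻¹ ∈ N ∧
      Val ρ (e.conj g) ((ρ g : U) * b * (((ρ g)⁻¹ : Uˣ) : U)) ∧
      (ρ g : U) * (b * (ρ h : U)) * (((ρ g)⁻¹ : Uˣ) : U) =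
        ((ρ g : U) * b * (((ρ g)⁻¹ : Uˣ) : U)) * (ρ (g * h * g⁻¹) : U) := by
  refine ⟨A3_ws hw hg, hg h hh, hv.conj g, ?_⟩
  rw [map_mul, map_mul, map_inv, Units.val_mul, Units.val_mul]
  simp only [mul_assoc, Units.inv_mul_cancel_left]

theorem Zs.zq (h : Zs ρ N x c) : Zq ρ N x c := by
  rcases h with h | ⟨e, g, b, hw, hg, hl, hv, hc⟩
  · exact Or.inl h
  · exact Or.inr ⟨e, g, b, hw, hg, Or.inl hl, hv, hc⟩

theorem Zq.of_val {e : Ex Γ} (hw : e.ws ⊆ N) (h : Val ρ e c) : Zq ρ N e.sh c := by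
  refine Or.inr ⟨e, 1, c, hw, N.one_mem, Or.inr rfl, h, ?_⟩
  simp

theorem Zs.mul_g (h : Zs ρ N x c) {g : Γ} (hg : g ∈ N) : Zs ρ N x (c * (ρ g : U)) := by
  rcases h with h | ⟨e, g', b, hw, hg', hl, hv, hc⟩
  · subst h
    exact Or.inl (zero_mul _)
  · refine Or.inr ⟨e, g' * g, b, hw, N.mul_mem hg' hg, hl, hv, ?_⟩
    rw [hc, map_mul, Units.val_mul, mul_assoc]

theorem Zq.mul_g (h : Zq ρ N x c) {g : Γ} (hg : g ∈ N) : Zq ρ N x (c * (ρ g : U)) := by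
  rcases h with h | ⟨e, g', b, hw, hg', hl, hv, hc⟩
  · subst h
    exact Or.inl (zero_mul _)
  · refine Or.inr ⟨e, g' * g, b, hw, N.mul_mem hg' hg, hl, hv, ?_⟩
    rw [hc, map_mul, Units.val_mul, mul_assoc]

theorem Zs.conj_g (h : Zs ρ N x c) {g : Γ} (hg : ∀ n ∈ N, g * n * g⁻¹ ∈ N) :
    Zs ρ N x ((ρ g : U) * c * (((ρ g)⁻¹ : Uˣ) : U)) := by
  rcases h with h | ⟨e, g', b, hw, hg', hl, hv, hc⟩
  · subst h
    exact Or.inl (by rw [mul_zero, zero_mul])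
  · obtain ⟨h1, h2, h3, h4⟩ := A3_conj hw hg' hv hg
    refine Or.inr ⟨e.conj g, g * g' * g⁻¹, _, h1, h2, ?_, h3, ?_⟩
    · rw [Ex.conj_sh]; exact hl
    · rw [hc]; exact h4

theorem Zq.conj_g (h : Zq ρ N x c) {g : Γ} (hg : ∀ n ∈ N, g * n * g⁻¹ ∈ N) :
    Zq ρ N x ((ρ g : U) * c * (((ρ g)⁻¹ : Uˣ) : U)) := by
  rcases h with h | ⟨e, g', b, hw, hg', hl, hv, hc⟩
  · subst h
    exact Or.inl (by rw [mul_zero, zero_mul])
  · obtain ⟨h1, h2, h3, h4⟩ := A3_conj hw hg' hv hg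
    refine Or.inr ⟨e.conj g, g * g' * g⁻¹, _, h1, h2, ?_, h3, ?_⟩
    · rw [Ex.conj_sh]; exact hl
    · rw [hc]; exact h4

theorem Zq.add_l (h : Zq ρ N x c) : Zs ρ N (Sh.a x y) c := by
  rcases h with h | ⟨e, g, b, hw, hg, hl, hv, hc⟩
  · exact Or.inl h
  · refine Or.inr ⟨e, g, b, hw, hg, ?_, hv, hc⟩
    rcases hl with hl | hl
    · exact Lt.a_l hl
    · rw [hl]; exact Lt.a_l'

theorem Zq.add_r (h : Zq ρ N y c) : Zs ρ N (Sh.a x y) c := by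
  rcases h with h | ⟨e, g, b, hw, hg, hl, hv, hc⟩
  · exact Or.inl h
  · refine Or.inr ⟨e, g, b, hw, hg, ?_, hv, hc⟩
    rcases hl with hl | hl
    · exact Lt.a_r hl
    · rw [hl]; exact Lt.a_r'

theorem Zq.add (h : Zq ρ N x c) (h' : Zq ρ N y c') (hs : Zs ρ N x c ∨ Zs ρ N y c') : Zs ρ N (Sh.a x y) (c + c') := by
  rcases hs with hs | hs
  · rcases hs with h0 | ⟨e, g, b, hw, hg, hl, hv, hc⟩
    · rw [h0, zero_add]
      exact h'.add_r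
    · rcases h' with h0' | ⟨e', g', b', hw', hg', hl', hv', hc'⟩
      · rw [h0', add_zero]
        exact h.add_l
      · rw [hc, hc']
        refine A3_add hw hg hv hw' hg' hv' ?_
        rcases hl' with hl' | hl'
        · exact Lt.a_ll hl hl'
        · rw [hl']; exact Lt.a_le hl
  · rcases hs with h0' | ⟨e', g', b', hw', hg', hl', hv', hc'⟩
    · rw [h0', add_zero]
      exact h.add_l
    · rcases h with h0 | ⟨e, g, b, hw, hg, hl, hv, hc⟩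
      · rw [h0, zero_add]
        exact h'.add_r
      · rw [hc, hc']
        refine A3_add hw hg hv hw' hg' hv' ?_
        rcases hl with hl | hl
        · exact Lt.a_ll hl hl'
        · rw [hl]; exact Lt.a_el hl'

theorem Zq.mul (h : Zq ρ N x c) (h' : Zq ρ N y c') (hs : Zs ρ N x c ∨ Zs ρ N y c') : Zs ρ N (Sh.m x y) (c * c') := by
  rcases hs with hs | hs
  · rcases hs with h0 | ⟨e, g, b, hw, hg, hl, hv, hc⟩
    · rw [h0, zero_mul]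
      exact Or.inl rfl
    · rcases h' with h0' | ⟨e', g', b', hw', hg', hl', hv', hc'⟩
      · rw [h0', mul_zero]
        exact Or.inl rfl
      · rw [hc, hc']
        refine A3_mul hw hg hv hw' hg' hv' ?_
        rcases hl' with hl' | hl'
        · exact Lt.m_ll hl hl'
        · rw [hl']; exact Lt.m_le hl
  · rcases hs with h0' | ⟨e', g', b', hw', hg', hl', hv', hc'⟩
    · rw [h0', mul_zero]
      exact Or.inl rfl
    · rcases h with h0 | ⟨e, g, b, hw, hg, hl, hv, hc⟩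
      · rw [h0, zero_mul]
        exact Or.inl rfl
      · rw [hc, hc']
        refine A3_mul hw hg hv hw' hg' hv' ?_
        rcases hl with hl | hl
        · exact Lt.m_ll hl hl'
        · rw [hl]; exact Lt.m_el hl'

private theorem A3_add_of {z : Sh} (h : Zs ρ N z c) (h' : Zs ρ N z c')
    (hr : ∀ s t, Lt s z → Lt t z → Lt (Sh.a s t) z) : Zs ρ N z (c + c') := by
  rcases h with h0 | ⟨e, g, b, hw, hg, hl, hv, hc⟩
  · rw [h0, zero_add]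
    exact h'
  · rcases h' with h0' | ⟨e', g', b', hw', hg', hl', hv', hc'⟩
    · rw [h0', add_zero]
      exact Or.inr ⟨e, g, b, hw, hg, hl, hv, hc⟩
    · rw [hc, hc']
      exact A3_add hw hg hv hw' hg' hv' (hr _ _ hl hl')

private theorem A3_sum {z : Sh} {ι : Type*} (s : Finset ι) (f : ι → U)
    (hr : ∀ s t, Lt s z → Lt t z → Lt (Sh.a s t) z) (h : ∀ i ∈ s, Zs ρ N z (f i)) :
    Zs ρ N z (∑ i ∈ s, f i) := by
  classical
  induction s using Finset.induction_on with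
  | empty => exact Or.inl Finset.sum_empty
  | insert a s ha ih =>
    rw [Finset.sum_insert ha]
    exact A3_add_of (h a (Finset.mem_insert_self a s))
      (ih fun i hi => h i (Finset.mem_insert_of_mem hi)) hr

theorem Zs.add_m (h : Zs ρ N (Sh.m x y) c) (h' : Zs ρ N (Sh.m x y) c') : Zs ρ N (Sh.m x y) (c + c') :=
  A3_add_of h h' fun _ _ => Lt.m_a

theorem Zs.sum_m {ι : Type*} (s : Finset ι) (f : ι → U) (h : ∀ i ∈ s, Zs ρ N (Sh.m x y) (f i)) :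
    Zs ρ N (Sh.m x y) (∑ i ∈ s, f i) :=
  A3_sum s f (fun _ _ => Lt.m_a) h

theorem Zs.sum_i {ι : Type*} (s : Finset ι) (f : ι → U) (h : ∀ i ∈ s, Zs ρ N (Sh.i x) (f i)) :
    Zs ρ N (Sh.i x) (∑ i ∈ s, f i) :=
  A3_sum s f (fun _ _ => Lt.i_a) h

theorem Zs.mul_i (h : Zs ρ N (Sh.i x) c) (h' : Zs ρ N (Sh.i x) c') : Zs ρ N (Sh.i x) (c * c') := by
  rcases h with h0 | ⟨e, g, b, hw, hg, hl, hv, hc⟩
  · rw [h0, zero_mul]
    exact Or.inl rfl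
  · rcases h' with h0' | ⟨e', g', b', hw', hg', hl', hv', hc'⟩
    · rw [h0', mul_zero]
      exact Or.inl rfl
    · rw [hc, hc']
      exact A3_mul hw hg hv hw' hg' hv' (Lt.i_m hl hl')

theorem Zs.lift_i (h : Zs ρ N x c) : Zs ρ N (Sh.i x) c := by
  rcases h with h | ⟨e, g, b, hw, hg, hl, hv, hc⟩
  · exact Or.inl h
  · exact Or.inr ⟨e, g, b, hw, hg, Lt.i_s hl, hv, hc⟩

theorem Zs.neg (h : Zs ρ N x c) {w0 : Γ} (hw : w0 ∈ N) (h1 : (ρ w0 : U) = -1) : Zs ρ N x (-c) := by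
  have h2 := h.mul_g hw
  rwa [h1, mul_neg, mul_one] at h2

theorem Zs.inv_i {c : Uˣ} [Nontrivial U] (h : Zs ρ N x (c : U)) : Zs ρ N (Sh.i x) ((c⁻¹ : Uˣ) : U) := by
  rcases h with h | ⟨e, g, b, hw, hg, hl, hv, hc⟩
  · exact absurd h c.ne_zero
  · have hb : b = ((c * (ρ g)⁻¹ : Uˣ) : U) := by
      rw [Units.val_mul, hc, Units.mul_inv_cancel_right]
    rw [hb] at hv
    refine Or.inr ⟨(Ex.inv e).conj g⁻¹, g⁻¹, (ρ g⁻¹ : U) * (((c * (ρ g)⁻¹)⁻¹ : Uˣ) : U) *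
      (((ρ g⁻¹)⁻¹ : Uˣ) : U), ?_, N.inv_mem hg, ?_, (Val.inv hv).conj g⁻¹, ?_⟩
    · exact A3_ws (e := Ex.inv e) hw (A3_cj (N.inv_mem hg))
    · rw [Ex.conj_sh]
      exact Lt.i_i hl
    · rw [Units.inv_mul_cancel_right, map_inv, ← Units.val_mul]
      congr 1
      group

/-- if all values of shapes smaller than `x` are `0` or units, so is `c` -/
theorem Zs.zero_or_unit (h : Zs ρ N x c) (H : ∀ s, Lt s x → PP ρ s) : c = 0 ∨ IsUnit c := by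
  rcases h with h | ⟨e, g, b, hw, hg, hl, hv, hc⟩
  · exact Or.inl h
  · rcases H _ hl e rfl b hv with h0 | h0
    · left; rw [hc, h0, zero_mul]
    · right; rw [hc]; exact h0.mul (ρ g).isUnit

end

end RFC
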