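import Pool.Agent.Lib.MP_83fbc5_gt.RFC.RDefs

/-!
# RFC, module A4: twisted power series

`sig k f = t^k f t^(-k)` coefficientwise (as a product with the constant series `t^k`, `t^(-k)`); it maps `d.S` to `d.S`.
`Th (sig k f) = tu^k Th f tu^(-k)`: for `k = 1` from `(t X) f = (sig 1 f) (t X)` in the power series ring (`X` is central) and
`Th (t X) = j t` a unit; the general case by induction (`Int.induction_on`).
`factor`: if `cf f n = 0` for `n < n0` then `f_n = 0` for `n < n0`; `g := mk (fun n => f_(n + n0) t^(-n0))`; `cf g n = cf f (n + n0)`.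
`unit_S`: `f_0` is a unit `u` of `U` lying in `C`; the inverse series: `PowerSeries.invOfUnit` (or `MvPowerSeries`) gives `g` with
`f g = 1`, `g f = 1` in `U[[X]]`; `cf g n ∈ C` by strong induction from `g_n = - g_0 ∑_(k ≥ 1) f_k g_(n-k)`, i.e.
`cf g n = - cf g 0 ∑ cf f k (t^k cf g (n-k) t^(-k))`, see `Datum.cf_mul`.
-/

set_option autoImplicit false

namespace RFC

universe v

variable {U : Type v} [Ring U] (d : Datum U)

/-- coefficientwise conjugation by `t^k` -/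
noncomputable def Datum.sig (k : ℤ) (f : PowerSeries U) : PowerSeries U :=
  PowerSeries.C ((d.t ^ k : Uˣ) : U) * f * PowerSeries.C (((d.t ^ k)⁻¹ : Uˣ) : U)

theorem Datum.conj_zpow (k : ℤ) {c : U} (hc : c ∈ d.C) : ((d.t ^ k : Uˣ) : U) * c * (((d.t ^ k)⁻¹ : Uˣ) : U) ∈ d.C := by
  induction k using Int.induction_on generalizing c with
  | zero => simpa using hc
  | succ n ih =>
    have h := ih (d.conj _ hc)
    rw [zpow_add_one, mul_inv_rev, Units.val_mul, Units.val_mul]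
    simpa only [mul_assoc] using h
  | pred n ih =>
    have h := ih (d.conj' _ hc)
    rw [zpow_sub_one, mul_inv_rev, inv_inv, Units.val_mul, Units.val_mul]
    simpa only [mul_assoc] using h

theorem Datum.cf_sig (k : ℤ) (f : PowerSeries U) (n : ℕ) :
    d.cf (d.sig k f) n = ((d.t ^ k : Uˣ) : U) * d.cf f n * (((d.t ^ k)⁻¹ : Uˣ) : U) := by
  simp only [Datum.cf, Datum.sig, PowerSeries.coeff_mul_C, PowerSeries.coeff_C_mul, mul_assoc]
  congr 2
  rw [← Units.val_mul, ← Units.val_mul]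
  congr 1
  rw [← mul_inv_rev, ← mul_inv_rev, ← zpow_natCast, ← zpow_add, ← zpow_add, add_comm]

theorem Datum.sig_mem (k : ℤ) {f : PowerSeries U} (hf : f ∈ d.S) : d.sig k f ∈ d.S := by
  intro n
  rw [Datum.cf_sig]
  exact d.conj_zpow k (hf n)

theorem Datum.cf_add (f g : PowerSeries U) (n : ℕ) : d.cf (f + g) n = d.cf f n + d.cf g n := by
  simp only [Datum.cf, map_add, add_mul]

theorem Datum.cf_C (c : U) (n : ℕ) : d.cf (PowerSeries.C c) n = if n = 0 then c else 0 := by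
  simp only [Datum.cf, PowerSeries.coeff_C]
  split_ifs with h
  · subst h; simp
  · simp

/-- multiplication by a constant on the right -/
theorem Datum.cf_mul_C (f : PowerSeries U) (c : U) (n : ℕ) :
    d.cf (f * PowerSeries.C c) n = d.cf f n * (((d.t ^ n : Uˣ) : U) * c * (((d.t ^ n)⁻¹ : Uˣ) : U)) := by
  simp only [Datum.cf, PowerSeries.coeff_mul_C, mul_assoc, Units.inv_mul_cancel_left]

/-- multiplication by a constant on the left -/
theorem Datum.cf_C_mul (f : PowerSeries U) (c : U) (n : ℕ) : d.cf (PowerSeries.C c * f) n = c * d.cf f n := by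
  simp only [Datum.cf, PowerSeries.coeff_C_mul, mul_assoc]

theorem Datum.Xl_mem (l : ℕ) : (PowerSeries.C (d.t : U) * PowerSeries.X) ^ l ∈ d.S := pow_mem d.X_mem l

private theorem A4_Xl (l : ℕ) : (PowerSeries.C (d.t : U) * PowerSeries.X) ^ l =
    PowerSeries.C ((d.t ^ l : Uˣ) : U) * PowerSeries.X ^ l := by
  rw [(PowerSeries.commute_X (PowerSeries.C (d.t : U))).mul_pow, Units.val_pow_eq_pow_val, map_pow]

theorem Datum.cf_mul_Xl (f : PowerSeries U) (l n : ℕ) :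
    d.cf (f * (PowerSeries.C (d.t : U) * PowerSeries.X) ^ l) n = if l ≤ n then d.cf f (n - l) else 0 := by
  rw [A4_Xl, ← mul_assoc]
  simp only [Datum.cf, PowerSeries.coeff_mul_X_pow', PowerSeries.coeff_mul_C]
  split_ifs with h
  · rw [mul_assoc]
    congr 1
    rw [← Units.val_mul]
    congr 1
    obtain ⟨m, rfl⟩ := Nat.exists_eq_add_of_le h
    rw [Nat.add_sub_cancel_left, add_comm l m, pow_add, mul_inv_rev, mul_inv_cancel_left]
  · rw [zero_mul]

theorem Datum.ext_cf {f g : PowerSeries U} (h : ∀ n, d.cf f n = d.cf g n) : f = g := by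
  ext n
  have h1 := h n
  simp only [Datum.cf] at h1
  exact (Units.mul_left_inj _).1 h1

theorem Datum.factor {f : PowerSeries U} (hf : f ∈ d.S) (n0 : ℕ) (h : ∀ n < n0, d.cf f n = 0) :
    ∃ g ∈ d.S, f = g * (PowerSeries.C (d.t : U) * PowerSeries.X) ^ n0 ∧ ∀ n, d.cf g n = d.cf f (n + n0) := by
  have hcf : ∀ n, d.cf (PowerSeries.mk fun n => PowerSeries.coeff (n + n0) f *
      (((d.t ^ n0)⁻¹ : Uˣ) : U)) n = d.cf f (n + n0) := by
    intro n
    simp only [Datum.cf, PowerSeries.coeff_mk, mul_assoc]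
    congr 1
    rw [← Units.val_mul]
    congr 1
    rw [← mul_inv_rev, ← pow_add]
  refine ⟨_, ?_, ?_, hcf⟩
  · intro n
    rw [hcf]
    exact hf _
  · refine d.ext_cf fun n => ?_
    rw [Datum.cf_mul_Xl]
    split_ifs with h1
    · rw [hcf, Nat.sub_add_cancel h1]
    · exact h n (not_le.1 h1)

/-- a series of `S` whose constant coefficient is a unit has an inverse in `S`; recursion for the coefficients -/
theorem Datum.unit_S {f : PowerSeries U} (hf : f ∈ d.S) (h0 : IsUnit (d.cf f 0)) :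
    ∃ g ∈ d.S, f * g = 1 ∧ g * f = 1 ∧ d.cf f 0 * d.cf g 0 = 1 ∧ d.cf g 0 * d.cf f 0 = 1 ∧
      ∀ n, 0 < n → d.cf g n = -(d.cf g 0 * ∑ k ∈ Finset.range n,
        d.cf f (k + 1) * (((d.t ^ (k + 1) : Uˣ) : U) * d.cf g (n - (k + 1)) * (((d.t ^ (k + 1))⁻¹ : Uˣ) : U))) := by
  obtain ⟨u, hu⟩ := h0
  have hcf0 : ∀ g : PowerSeries U, d.cf g 0 = PowerSeries.constantCoeff g := by
    intro g
    simp [Datum.cf]
  have hu' : PowerSeries.constantCoeff f = u := by rw [← hcf0, hu]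
  set g := PowerSeries.invOfUnit f u with hg
  have h1 : f * g = 1 := PowerSeries.mul_invOfUnit f u hu'
  have h2 : g * f = 1 := PowerSeries.invOfUnit_mul f u hu'
  have hg0 : d.cf g 0 = ((u⁻¹ : Uˣ) : U) := by
    rw [hcf0, hg, PowerSeries.constantCoeff_invOfUnit]
  have e1 : d.cf f 0 * d.cf g 0 = 1 := by rw [← hu, hg0, Units.mul_inv]
  have e2 : d.cf g 0 * d.cf f 0 = 1 := by rw [← hu, hg0, Units.inv_mul]
  have hrec : ∀ n, 0 < n → d.cf g n = -(d.cf g 0 * ∑ k ∈ Finset.range n,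
        d.cf f (k + 1) * (((d.t ^ (k + 1) : Uˣ) : U) * d.cf g (n - (k + 1)) * (((d.t ^ (k + 1))⁻¹ : Uˣ) : U))) := by
    intro n hn
    obtain ⟨m, rfl⟩ : ∃ m, n = m + 1 := ⟨n - 1, by omega⟩
    have h3 := d.cf_mul f g (m + 1)
    have h4 : d.cf (1 : PowerSeries U) (m + 1) = 0 := by
      simp [Datum.cf, PowerSeries.coeff_one]
    rw [h1, h4, Finset.Nat.sum_antidiagonal_succ] at h3
    simp only [pow_zero, Units.val_one, one_mul, inv_one, mul_one] at h3
    have h5 := Finset.Nat.sum_antidiagonal_eq_sum_range_succ (fun i j =>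
      d.cf f (i + 1) * (((d.t ^ (i + 1) : Uˣ) : U) * d.cf g j * (((d.t ^ (i + 1))⁻¹ : Uˣ) : U))) m
    rw [h5] at h3
    have h6 : ∀ k ∈ Finset.range m.succ,
        d.cf f (k + 1) * (((d.t ^ (k + 1) : Uˣ) : U) * d.cf g (m - k) *
          (((d.t ^ (k + 1))⁻¹ : Uˣ) : U)) =
        d.cf f (k + 1) * (((d.t ^ (k + 1) : Uˣ) : U) * d.cf g (m + 1 - (k + 1)) *
          (((d.t ^ (k + 1))⁻¹ : Uˣ) : U)) := by
      intro k _
      rw [Nat.add_sub_add_right]
    rw [Finset.sum_congr rfl h6] at h3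
    have h7 := congrArg (fun z => d.cf g 0 * z) h3
    simp only [mul_zero, mul_add] at h7
    rw [← mul_assoc, e2, one_mul] at h7
    exact eq_neg_of_add_eq_zero_left h7.symm
  refine ⟨g, ?_, h1, h2, e1, e2, hrec⟩
  intro n
  induction n using Nat.strong_induction_on with
  | _ n ih =>
    have hC0 : d.cf g 0 ∈ d.C := by
      rw [hg0]
      refine d.inv u ?_
      rw [hu]
      exact hf 0
    rcases Nat.eq_zero_or_pos n with rfl | hn
    · exact hC0
    · rw [hrec n hn]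
      refine neg_mem (mul_mem hC0 (sum_mem fun k hk => ?_))
      exact mul_mem (hf _) (d.conj_pow _ (ih _ (by omega)))

variable {d} (E : Ext d)

theorem Ext.Th_Xl (l : ℕ) : E.Th ⟨(PowerSeries.C (d.t : U) * PowerSeries.X) ^ l, d.Xl_mem l⟩ =
    ((E.tu ^ (l : ℤ) : E.U'ˣ) : E.U') := by
  have h : (⟨(PowerSeries.C (d.t : U) * PowerSeries.X) ^ l, d.Xl_mem l⟩ : d.S) =
      ⟨PowerSeries.C (d.t : U) * PowerSeries.X, d.X_mem⟩ ^ l := rfl
  rw [h, map_pow, E.Th_X, zpow_natCast, Units.val_pow_eq_pow_val]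
  rfl

private theorem A4_sig_one {f : PowerSeries U} (hf : f ∈ d.S) : E.Th ⟨d.sig 1 f, d.sig_mem 1 hf⟩ =
    ((E.tu : E.U'ˣ) : E.U') * E.Th ⟨f, hf⟩ * (((E.tu)⁻¹ : E.U'ˣ) : E.U') := by
  have h1 : (⟨d.sig 1 f, d.sig_mem 1 hf⟩ : d.S) * ⟨PowerSeries.C (d.t : U) * PowerSeries.X, d.X_mem⟩ =
      ⟨PowerSeries.C (d.t : U) * PowerSeries.X, d.X_mem⟩ * ⟨f, hf⟩ := by
    apply Subtype.ext
    change d.sig 1 f * (PowerSeries.C (d.t : U) * PowerSeries.X) =
      PowerSeries.C (d.t : U) * PowerSeries.X * f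
    have h2 : PowerSeries.C (((d.t ^ (1 : ℤ))⁻¹ : Uˣ) : U) * PowerSeries.C (d.t : U) = 1 := by
      rw [← map_mul, zpow_one, Units.inv_mul, map_one]
    rw [Datum.sig, mul_assoc, ← mul_assoc (PowerSeries.C (((d.t ^ (1 : ℤ))⁻¹ : Uˣ) : U)), h2,
      one_mul, mul_assoc, (PowerSeries.commute_X f).eq, zpow_one, mul_assoc]
  have h3 := congrArg E.Th h1
  rw [map_mul, map_mul, E.Th_X] at h3
  have h4 : E.j d.t = ((E.tu : E.U'ˣ) : E.U') := rfl
  rw [h4] at h3
  rw [← h3, Units.mul_inv_cancel_right]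

private theorem A4_sig_sig (k l : ℤ) (f : PowerSeries U) : d.sig k (d.sig l f) = d.sig (k + l) f := by
  refine d.ext_cf fun n => ?_
  rw [Datum.cf_sig, Datum.cf_sig, Datum.cf_sig, zpow_add, mul_inv_rev, Units.val_mul, Units.val_mul]
  simp only [mul_assoc]

theorem Ext.Th_sig (k : ℤ) {f : PowerSeries U} (hf : f ∈ d.S) : E.Th ⟨d.sig k f, d.sig_mem k hf⟩ =
    ((E.tu ^ k : E.U'ˣ) : E.U') * E.Th ⟨f, hf⟩ * (((E.tu ^ k)⁻¹ : E.U'ˣ) : E.U') := by
  have hstep : ∀ k : ℤ, E.Th ⟨d.sig (1 + k) f, d.sig_mem (1 + k) hf⟩ =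
      ((E.tu : E.U'ˣ) : E.U') * E.Th ⟨d.sig k f, d.sig_mem k hf⟩ *
        (((E.tu)⁻¹ : E.U'ˣ) : E.U') := by
    intro k
    rw [← A4_sig_one E (d.sig_mem k hf)]
    congr 1
    apply Subtype.ext
    exact (A4_sig_sig 1 k f).symm
  induction k using Int.induction_on with
  | zero =>
    have h : (⟨d.sig 0 f, d.sig_mem 0 hf⟩ : d.S) = ⟨f, hf⟩ := by
      apply Subtype.ext
      simp [Datum.sig]
    rw [h]
    simp
  | succ n ih =>
    have h : (⟨d.sig ((n : ℤ) + 1) f, d.sig_mem _ hf⟩ : d.S) = ⟨d.sig (1 + (n : ℤ)) f, d.sig_mem _ hf⟩ := by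
      apply Subtype.ext
      change d.sig ((n : ℤ) + 1) f = d.sig (1 + (n : ℤ)) f
      rw [add_comm]
    rw [h, hstep, ih, add_comm (n : ℤ) 1, zpow_add, zpow_one, mul_inv_rev, Units.val_mul,
      Units.val_mul]
    simp only [mul_assoc]
  | pred n ih =>
    have h1 := hstep (-(n : ℤ) - 1)
    have h : (⟨d.sig (1 + (-(n : ℤ) - 1)) f, d.sig_mem _ hf⟩ : d.S) = ⟨d.sig (-(n : ℤ)) f, d.sig_mem _ hf⟩ := by
      apply Subtype.ext
      change d.sig (1 + (-(n : ℤ) - 1)) f = d.sig (-(n : ℤ)) f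
      rw [add_sub_cancel]
    rw [h, ih] at h1
    have h2 : E.Th ⟨d.sig (-(n : ℤ) - 1) f, d.sig_mem _ hf⟩ =
        (((E.tu)⁻¹ : E.U'ˣ) : E.U') * (((E.tu ^ (-(n : ℤ)) : E.U'ˣ) : E.U') * E.Th ⟨f, hf⟩ *
          (((E.tu ^ (-(n : ℤ)))⁻¹ : E.U'ˣ) : E.U')) * ((E.tu : E.U'ˣ) : E.U') := by
      rw [h1]
      simp only [mul_assoc, Units.inv_mul_cancel_left, Units.inv_mul, mul_one]
    have e1 : E.tu ^ (-(n : ℤ) - 1) = E.tu⁻¹ * E.tu ^ (-(n : ℤ)) := by
      rw [sub_eq_add_neg, add_comm, zpow_add, zpow_neg_one]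
    rw [h2, e1, mul_inv_rev, inv_inv, Units.val_mul, Units.val_mul]
    simp only [mul_assoc]

theorem Ext.j_conj (k : ℤ) (c : U) : E.j (((d.t ^ k : Uˣ) : U) * c * (((d.t ^ k)⁻¹ : Uˣ) : U)) =
    ((E.tu ^ k : E.U'ˣ) : E.U') * E.j c * (((E.tu ^ k)⁻¹ : E.U'ˣ) : E.U') := by
  have h1 : E.tu ^ k = Units.map E.j.toMonoidHom (d.t ^ k) := by
    rw [map_zpow]
    rfl
  rw [map_mul, map_mul, h1, ← map_inv]
  rfl

end RFC
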