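import Pool.Agent.Lib.MP_83fbc5_gt.RFC.A2

/-!
# RFC, module A45: basic facts on the kernel `N` of a good subgroup

`G.N = {ν ∈ S : φ ν = 1}` (image of the kernel under `S.subtype`). `N ≤ S`; conjugation by elements of `S` preserves `N` (`φ` has
commutative target); `w ∈ S` is `ν t0^d` with `d = φ w`, `ν ∈ N`; `ρ ν ∈ C` (`G.hC`); values of expressions over `N` are in `C`
(induction over `Val`, `d.C` is a subring closed under inverses, `Datum.inv`); elements of order 2 of `S` are in `N` (`ℤ` is torsion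
free); `w = ν t0^d` with `d = 0` iff `w ∈ N` is used as: if `d = 0` then `w ∈ N`.
-/

set_option autoImplicit false

namespace RFC

universe u v

section

variable {Γ : Type u} [Group Γ] {U : Type v} [Ring U] {ρ : Γ →* Uˣ} {S : Subgroup Γ} (G : Good ρ S)

theorem Good.N_le : G.N ≤ S := Subgroup.map_subtype_le _

theorem Good.conj_N {g : Γ} (hg : g ∈ S) : ∀ n ∈ G.N, g * n * g⁻¹ ∈ G.N := by
  intro n hn
  obtain ⟨ν, hν, rfl⟩ := Subgroup.mem_map.1 hn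
  refine Subgroup.mem_map.2 ⟨(⟨g, hg⟩ : S) * ν * (⟨g, hg⟩ : S)⁻¹, ?_, rfl⟩
  rw [MonoidHom.mem_ker] at hν ⊢
  rw [map_mul, map_mul, map_inv, hν, mul_one, mul_inv_cancel]

theorem Good.split {w : Γ} (hw : w ∈ S) : ∃ (k : ℤ) (ν : Γ), ν ∈ G.N ∧ w = ν * (G.t0 : Γ) ^ k := by
  set k : ℤ := Multiplicative.toAdd (G.φ ⟨w, hw⟩) with hk
  refine ⟨k, w * ((G.t0 : Γ) ^ k)⁻¹, ?_, by rw [inv_mul_cancel_right]⟩
  refine Subgroup.mem_map.2 ⟨(⟨w, hw⟩ : S) * (G.t0 ^ k)⁻¹, ?_, rfl⟩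
  rw [MonoidHom.mem_ker, map_mul, map_inv, map_zpow, G.ht0, ← ofAdd_zsmul, smul_eq_mul, mul_one,
    hk, ofAdd_toAdd, mul_inv_cancel]

theorem Good.t0_mem (k : ℤ) : (G.t0 : Γ) ^ k ∈ S := zpow_mem G.t0.2 k

theorem Good.rho_t0 (k : ℤ) : ρ ((G.t0 : Γ) ^ k) = G.d.t ^ k := by
  rw [map_zpow, G.dt]

theorem Good.rho_mem {ν : Γ} (h : ν ∈ G.N) : ((ρ ν : Uˣ) : U) ∈ G.d.C := by
  obtain ⟨μ, hμ, rfl⟩ := Subgroup.mem_map.1 h
  exact G.hC μ (MonoidHom.mem_ker.1 hμ)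

theorem Good.val_mem {e : Ex Γ} {a : U} (h : Val ρ e a) (he : e.ws ⊆ G.N) : a ∈ G.d.C := by
  induction h with
  | one => exact one_mem _
  | add w _ _ ih1 ih2 =>
    simp only [Ex.ws, Set.union_subset_iff, Set.singleton_subset_iff] at he
    exact add_mem (ih1 he.1.1) (mul_mem (ih2 he.1.2) (G.rho_mem he.2))
  | mul _ _ ih1 ih2 =>
    simp only [Ex.ws, Set.union_subset_iff] at he
    exact mul_mem (ih1 he.1) (ih2 he.2)
  | inv _ ih => exact G.d.inv _ (ih he)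

theorem Good.invol {w : Γ} (hw : w ∈ S) (h : w * w = 1) : w ∈ G.N := by
  refine Subgroup.mem_map.2 ⟨(⟨w, hw⟩ : S), ?_, rfl⟩
  rw [MonoidHom.mem_ker]
  have h1 : G.φ ⟨w, hw⟩ * G.φ ⟨w, hw⟩ = 1 := by
    rw [← map_mul]
    have h2 : (⟨w, hw⟩ : S) * ⟨w, hw⟩ = 1 := Subtype.ext h
    rw [h2, map_one]
  have h3 : Multiplicative.toAdd (G.φ ⟨w, hw⟩) + Multiplicative.toAdd (G.φ ⟨w, hw⟩) = 0 := by
    rw [← toAdd_mul, h1, toAdd_one]
  have h4 : Multiplicative.toAdd (G.φ ⟨w, hw⟩) = 0 := by omega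
  exact toAdd_eq_zero.1 h4

/-- `S` is not contained in `N` -/
theorem Good.not_le : ¬ S ≤ G.N := by
  intro h
  obtain ⟨ν, hν, he⟩ := Subgroup.mem_map.1 (h G.t0.2)
  have h1 : ν = G.t0 := Subtype.ext he
  rw [h1, MonoidHom.mem_ker, G.ht0, ofAdd_eq_one] at hν
  exact one_ne_zero hν

end

end RFC
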