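import Pool.Agent.Lib.MP_83fbc5_gt.RFC.A3
import Pool.Agent.Lib.MP_83fbc5_gt.RFC.A4
import Pool.Agent.Lib.MP_83fbc5_gt.RFC.A45

/-!
# RFC, module A5: decomposition of a sum

PROOF. First a common form of the alternatives: `Dec` of `(e, a)` gives `k : ℤ`, `f ∈ d.S` with `j a = Th f * tu^k` and
`∀ n, Zq ρ N e.sh (cf f n)`, and moreover either `e.ws ⊆ N`, `k = 0`, `f = C a` (so `cf f n = 0` for `n > 0`), or
`∀ n, Zs ρ N e.sh (cf f n)`. (In case (A) `a ∈ C` by `Good.val_mem` and `Th (C a) = j a` is `Ext.Th_C`.)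
Let `w = ν t0^m` (`Good.split`), `p ~ (k, f)`, `q ~ (k', f')`. If both are (A) and `m = 0`: the expression is (A) (`w = ν ∈ N`).
Otherwise `j (a + b ρ w) = Th f tu^k + Th f' tu^k' ρ(ν) tu^m = Th f tu^k + Th (f' C(ν')) tu^(k' + m)`,
`ν' = t^k' ρ ν t^(-k') = ρ (t0^k' ν t0^(-k')) ∈ C` (`Ext.j_conj`, `Ext.Th_C`). Let `k2 = k' + m`.
 * `k ≤ k2`, `l = k2 - k`: `= Th (f + f' C(ν') (tX)^l) tu^k` (`Ext.Th_Xl`). By `cf_add`, `cf_mul_Xl`, `cf_mul_C` the coefficient is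
   `cf f n + (if l ≤ n then cf f' (n - l) ρ(g) else 0)`, `g = t0^(n-l) t0^k' ν t0^(-k') t0^(-(n-l)) ∈ N`. It is in
   `Zs ρ N (a x y)`: if one of `p`, `q` is strict (B): `Zq.add` (note `Zq` of the other one, `Zs` of the strict one); if both are (A):
   `l = m ≠ 0` and for each `n` at most one of the two terms is nonzero: `Zq.add_l`, `Zq.add_r`.
 * `k2 < k`, `l = k - k2`: `= Th (f (tX)^l + f' C(ν')) tu^k2`: `Th f tu^k = Th f tu^l tu^k2`; same analysis.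
-/

set_option autoImplicit false

namespace RFC

universe u v

variable {Γ : Type u} [Group Γ] {U : Type v} [Ring U] {ρ : Γ →* Uˣ} {S : Subgroup Γ}

/-- the common form of the two alternatives -/
private lemma a5_form (G : Good ρ S) {e : Ex Γ} {a : U} (h : Val ρ e a) (hd : Dec ρ G e a) :
    ∃ (k : ℤ) (f : PowerSeries U) (hf : f ∈ G.d.S),
      G.E.j a = G.E.Th ⟨f, hf⟩ * ((G.E.tu ^ k : G.E.U'ˣ) : G.E.U') ∧
      (∀ n, Zq ρ G.N e.sh (G.d.cf f n)) ∧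
      ((e.ws ⊆ G.N ∧ k = 0 ∧ ∀ n, 0 < n → G.d.cf f n = 0) ∨ ∀ n, Zs ρ G.N e.sh (G.d.cf f n)) := by
  rcases hd with hw | ⟨k, f, h1, h2⟩
  · have ha : a ∈ G.d.C := G.val_mem h hw
    refine ⟨0, PowerSeries.C a, G.d.C_mem ha, ?_, ?_, Or.inl ⟨hw, rfl, ?_⟩⟩
    · rw [G.E.Th_C a ha, zpow_zero, Units.val_one, mul_one]
    · intro n
      rw [G.d.cf_C]
      split_ifs with hn
      · exact Zq.of_val hw h
      · exact Or.inl rfl
    · intro n hn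
      rw [G.d.cf_C, if_neg hn.ne']
  · exact ⟨k, f.1, f.2, h1, fun n => (h2 n).zq, Or.inr h2⟩

/-- the sum of two decompositions -/
private lemma a5_sum (G : Good ρ S) {x y : Sh} {u v : U} {k k' : ℤ} {f f' : PowerSeries U}
    (hf : f ∈ G.d.S) (hf' : f' ∈ G.d.S)
    (hu : G.E.j u = G.E.Th ⟨f, hf⟩ * ((G.E.tu ^ k : G.E.U'ˣ) : G.E.U'))
    (hv : G.E.j v = G.E.Th ⟨f', hf'⟩ * ((G.E.tu ^ k' : G.E.U'ˣ) : G.E.U'))
    (hz : ∀ n, Zq ρ G.N x (G.d.cf f n)) (hz' : ∀ n, Zq ρ G.N y (G.d.cf f' n))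
    (h : ∀ n n' : ℕ, (n : ℤ) + k = n' + k' →
      Zs ρ G.N x (G.d.cf f n) ∨ Zs ρ G.N y (G.d.cf f' n')) :
    ∃ (k0 : ℤ) (F : G.d.S), G.E.j (u + v) = G.E.Th F * ((G.E.tu ^ k0 : G.E.U'ˣ) : G.E.U') ∧
      ∀ n, Zs ρ G.N (Sh.a x y) (G.d.cf F n) := by
  rcases le_or_gt k k' with hk | hk
  · obtain ⟨l, hl⟩ := Int.eq_ofNat_of_zero_le (sub_nonneg.2 hk)
    refine ⟨k, ⟨f, hf⟩ + ⟨f', hf'⟩ * ⟨_, G.d.Xl_mem l⟩, ?_, ?_⟩
    · rw [map_add, map_add, map_mul, hu, hv, G.E.Th_Xl, add_mul, mul_assoc, ← Units.val_mul,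
        ← zpow_add]
      congr 5
      omega
    · intro n
      have e1 : G.d.cf ((⟨f, hf⟩ + ⟨f', hf'⟩ * ⟨_, G.d.Xl_mem l⟩ : G.d.S) : PowerSeries U) n =
          G.d.cf f n + if l ≤ n then G.d.cf f' (n - l) else 0 := by
        rw [← G.d.cf_mul_Xl, ← G.d.cf_add]
        rfl
      rw [e1]
      split_ifs with hn
      · refine Zq.add (hz n) (hz' _) (h n (n - l) ?_)
        push_cast [Nat.cast_sub hn]
        omega
      · rw [add_zero]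
        exact Zq.add_l (hz n)
  · obtain ⟨l, hl⟩ := Int.eq_ofNat_of_zero_le (sub_nonneg.2 hk.le)
    refine ⟨k', ⟨f, hf⟩ * ⟨_, G.d.Xl_mem l⟩ + ⟨f', hf'⟩, ?_, ?_⟩
    · rw [map_add, map_add, map_mul, hu, hv, G.E.Th_Xl, add_mul, mul_assoc, ← Units.val_mul,
        ← zpow_add]
      congr 5
      omega
    · intro n
      have e1 : G.d.cf ((⟨f, hf⟩ * ⟨_, G.d.Xl_mem l⟩ + ⟨f', hf'⟩ : G.d.S) : PowerSeries U) n =
          (if l ≤ n then G.d.cf f (n - l) else 0) + G.d.cf f' n := by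
        rw [← G.d.cf_mul_Xl, ← G.d.cf_add]
        rfl
      rw [e1]
      split_ifs with hn
      · refine Zq.add (hz _) (hz' n) (h (n - l) n ?_)
        push_cast [Nat.cast_sub hn]
        omega
      · rw [zero_add]
        exact Zq.add_r (hz' n)

/-- powers of `t` in the extension -/
private lemma a5_tu {d : Datum U} (E : Ext d) (k : ℤ) :
    ((E.tu ^ k : E.U'ˣ) : E.U') = E.j ((d.t ^ k : Uˣ) : U) := by
  unfold Ext.tu
  rw [← map_zpow]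
  rfl

/-- multiplication with a group element of `S` -/
private lemma a5_mulw (G : Good ρ S) {y : Sh} {v : U} {k : ℤ} {f : PowerSeries U} (hf : f ∈ G.d.S)
    (hv : G.E.j v = G.E.Th ⟨f, hf⟩ * ((G.E.tu ^ k : G.E.U'ˣ) : G.E.U')) {ν : Γ} (hν : ν ∈ G.N)
    (m : ℤ) :
    ∃ (F : PowerSeries U) (hF : F ∈ G.d.S),
      G.E.j (v * (ρ (ν * (G.t0 : Γ) ^ m) : U)) =
        G.E.Th ⟨F, hF⟩ * ((G.E.tu ^ (k + m) : G.E.U'ˣ) : G.E.U') ∧
      (∀ n, Zq ρ G.N y (G.d.cf f n) → Zq ρ G.N y (G.d.cf F n)) ∧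
      (∀ n, Zs ρ G.N y (G.d.cf f n) → Zs ρ G.N y (G.d.cf F n)) ∧
      (∀ n, G.d.cf f n = 0 → G.d.cf F n = 0) := by
  obtain ⟨ν', hν'⟩ : ∃ ν' : Γ, ν' = (G.t0 : Γ) ^ k * ν * ((G.t0 : Γ) ^ k)⁻¹ := ⟨_, rfl⟩
  have hν'N : ν' ∈ G.N := by
    rw [hν']
    exact G.conj_N (G.t0_mem k) ν hν
  have hρ' : (ρ ν' : U) = ((G.d.t ^ k : Uˣ) : U) * (ρ ν : U) * (((G.d.t ^ k)⁻¹ : Uˣ) : U) := by
    rw [hν', map_mul, map_mul, map_inv, G.rho_t0, Units.val_mul, Units.val_mul]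
  have hc : (ρ ν' : U) ∈ G.d.C := G.rho_mem hν'N
  refine ⟨f * PowerSeries.C (ρ ν' : U), mul_mem hf (G.d.C_mem hc), ?_, ?_⟩
  · have e1 : G.E.Th ⟨f * PowerSeries.C (ρ ν' : U), mul_mem hf (G.d.C_mem hc)⟩ =
        G.E.Th ⟨f, hf⟩ * G.E.j (ρ ν' : U) := by
      rw [← G.E.Th_C _ hc, ← map_mul]
      rfl
    rw [e1, hρ', G.E.j_conj, map_mul, hv, map_mul, G.rho_t0, Units.val_mul, map_mul, ← a5_tu,
      zpow_add, Units.val_mul]
    simp only [mul_assoc, Units.inv_mul_cancel_left]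
  · have key : ∀ n : ℕ, ∃ g : Γ, g ∈ G.N ∧
        G.d.cf (f * PowerSeries.C (ρ ν' : U)) n = G.d.cf f n * (ρ g : U) := by
      intro n
      refine ⟨(G.t0 : Γ) ^ (n : ℤ) * ν' * ((G.t0 : Γ) ^ (n : ℤ))⁻¹,
        G.conj_N (G.t0_mem _) ν' hν'N, ?_⟩
      rw [G.d.cf_mul_C, map_mul, map_mul, map_inv, G.rho_t0, Units.val_mul, Units.val_mul,
        zpow_natCast]
    refine ⟨fun n hn => ?_, fun n hn => ?_, fun n hn => ?_⟩
    · obtain ⟨g, hg, e⟩ := key n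
      rw [e]
      exact hn.mul_g hg
    · obtain ⟨g, hg, e⟩ := key n
      rw [e]
      exact hn.mul_g hg
    · obtain ⟨g, hg, e⟩ := key n
      rw [e, hn, zero_mul]

theorem dec_add (G : Good ρ S) {p q : Ex Γ} {a b : U} (hp : Val ρ p a) (hq : Val ρ q b) {w : Γ} (hw : w ∈ S)
    (dp : Dec ρ G p a) (dq : Dec ρ G q b) : Dec ρ G (Ex.add p q w) (a + b * (ρ w : U)) := by
  obtain ⟨m, ν, hν, rfl⟩ := G.split hw
  obtain ⟨k, f, hf, h1, h2, h3⟩ := a5_form G hp dp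
  obtain ⟨k', f', hf', h1', h2', h3'⟩ := a5_form G hq dq
  obtain ⟨F, hF, e1, e2, e3, e4⟩ := a5_mulw G (y := q.sh) hf' h1' hν m
  by_cases hA : (p.ws ⊆ G.N ∧ q.ws ⊆ G.N) ∧ m = 0
  · left
    obtain ⟨⟨hA1, hA2⟩, rfl⟩ := hA
    intro g hg
    rcases hg with (hg | hg) | hg
    · exact hA1 hg
    · exact hA2 hg
    · rw [Set.mem_singleton_iff] at hg
      rw [hg, zpow_zero, mul_one]
      exact hν
  · right
    refine a5_sum G hf hF h1 e1 h2 (fun n => e2 n (h2' n)) ?_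
    intro n n' hn
    rcases h3 with ⟨hw1, hk, hz⟩ | h3
    · rcases h3' with ⟨hw2, hk', hz'⟩ | h3'
      · have hm : m ≠ 0 := fun hm => hA ⟨⟨hw1, hw2⟩, hm⟩
        subst hk hk'
        by_cases hn0 : 0 < n
        · exact Or.inl (Or.inl (hz n hn0))
        · have hn1 : 0 < n' := by
            rcases Nat.eq_zero_or_pos n' with h0 | h0
            · subst h0
              exfalso
              apply hm
              have : n = 0 := by omega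
              subst this
              simp at hn
              omega
            · exact h0
          exact Or.inr (Or.inl (e4 n' (hz' n' hn1)))
      · exact Or.inr (e3 n' (h3' n'))
    · exact Or.inl (h3 n)

end RFC
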