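import Pool.Agent.Lib.MP_83fbc5_gt.RFC.A3
import Pool.Agent.Lib.MP_83fbc5_gt.RFC.A4
import Pool.Agent.Lib.MP_83fbc5_gt.RFC.A45

/-!
# RFC, module A6: decomposition of a product

PROOF. Both (A): (A). Otherwise write `p ~ (k, f)`, `q ~ (k', f')` as in A5 (in case (A): `k = 0`, `f = C a`, coefficients in `Zq`,
`cf f n = 0` for `n > 0`). `j (a b) = Th f tu^k Th f' tu^k' = Th (f * sig k f') tu^(k + k')` (`Ext.Th_sig`). By `Datum.cf_mul` and
`Datum.cf_sig`: `cf (f * sig k f') n = ∑_(i + j = n) cf f i * (t^i (t^k cf f' j t^(-k)) t^(-i))`, and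
`t^i t^k = ρ (t0^(i + k))` with `t0^(i+k) ∈ S` (`Zq.conj_g`, `Good.conj_N`). Each term is in `Zs ρ N (m x y)` by `Zq.mul` (one of the
two factors is strict because one of `p`, `q` is (B)); sums by `Zs.sum_m`.
-/

set_option autoImplicit false

namespace RFC

universe u v

variable {Γ : Type u} [Group Γ] {U : Type v} [Ring U] {ρ : Γ →* Uˣ} {S : Subgroup Γ}

/-- the common form of the two alternatives -/
private lemma a6_form (G : Good ρ S) {e : Ex Γ} {a : U} (h : Val ρ e a) (hd : Dec ρ G e a) :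
    ∃ (k : ℤ) (f : PowerSeries U) (hf : f ∈ G.d.S),
      G.E.j a = G.E.Th ⟨f, hf⟩ * ((G.E.tu ^ k : G.E.U'ˣ) : G.E.U') ∧
      (∀ n, Zq ρ G.N e.sh (G.d.cf f n)) ∧
      (e.ws ⊆ G.N ∨ ∀ n, Zs ρ G.N e.sh (G.d.cf f n)) := by
  rcases hd with hw | ⟨k, f, h1, h2⟩
  · have ha : a ∈ G.d.C := G.val_mem h hw
    refine ⟨0, PowerSeries.C a, G.d.C_mem ha, ?_, ?_, Or.inl hw⟩
    · rw [G.E.Th_C a ha, zpow_zero, Units.val_one, mul_one]
    · intro n
      rw [G.d.cf_C]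
      split_ifs with hn
      · exact Zq.of_val hw h
      · exact Or.inl rfl
  · exact ⟨k, f.1, f.2, h1, fun n => (h2 n).zq, Or.inr h2⟩

theorem dec_mul (G : Good ρ S) {p q : Ex Γ} {a b : U} (hp : Val ρ p a) (hq : Val ρ q b)
    (dp : Dec ρ G p a) (dq : Dec ρ G q b) : Dec ρ G (Ex.mul p q) (a * b) := by
  obtain ⟨k, f, hf, h1, h2, h3⟩ := a6_form G hp dp
  obtain ⟨k', f', hf', h1', h2', h3'⟩ := a6_form G hq dq
  by_cases hA : p.ws ⊆ G.N ∧ q.ws ⊆ G.N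
  · left
    intro g hg
    rcases hg with hg | hg
    · exact hA.1 hg
    · exact hA.2 hg
  · right
    have hstrict : (∀ n, Zs ρ G.N p.sh (G.d.cf f n)) ∨ (∀ n, Zs ρ G.N q.sh (G.d.cf f' n)) := by
      rcases h3 with h3 | h3
      · rcases h3' with h3' | h3'
        · exact absurd ⟨h3, h3'⟩ hA
        · exact Or.inr h3'
      · exact Or.inl h3
    refine ⟨k + k', ⟨f, hf⟩ * ⟨G.d.sig k f', G.d.sig_mem k hf'⟩, ?_, ?_⟩
    · rw [map_mul, map_mul, h1, h1', G.E.Th_sig k hf', zpow_add, Units.val_mul]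
      simp only [mul_assoc, Units.inv_mul_cancel_left]
    · intro n
      have e1 : G.d.cf ((⟨f, hf⟩ * ⟨G.d.sig k f', G.d.sig_mem k hf'⟩ : G.d.S) : PowerSeries U) n =
          G.d.cf (f * G.d.sig k f') n := rfl
      rw [e1, G.d.cf_mul]
      change Zs ρ G.N (Sh.m p.sh q.sh) _
      apply Zs.sum_m
      intro x _
      have e2 : ((G.d.t ^ x.1 : Uˣ) : U) * G.d.cf (G.d.sig k f') x.2 *
            (((G.d.t ^ x.1)⁻¹ : Uˣ) : U) =
          (ρ ((G.t0 : Γ) ^ ((x.1 : ℤ) + k)) : U) * G.d.cf f' x.2 *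
            (((ρ ((G.t0 : Γ) ^ ((x.1 : ℤ) + k)))⁻¹ : Uˣ) : U) := by
        rw [G.d.cf_sig, G.rho_t0, zpow_add, zpow_natCast, mul_inv_rev, Units.val_mul,
          Units.val_mul]
        simp only [mul_assoc]
      rw [e2]
      have hg : ∀ ν ∈ G.N, (G.t0 : Γ) ^ ((x.1 : ℤ) + k) * ν * ((G.t0 : Γ) ^ ((x.1 : ℤ) + k))⁻¹ ∈ G.N :=
        G.conj_N (G.t0_mem _)
      apply Zq.mul (h2 _) ((h2' _).conj_g hg)
      rcases hstrict with hs | hs
      · exact Or.inl (hs _)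
      · exact Or.inr ((hs _).conj_g hg)

end RFC
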