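import Pool.Agent.Lib.MP_83fbc5_gt.RFC.A3
import Pool.Agent.Lib.MP_83fbc5_gt.RFC.A4
import Pool.Agent.Lib.MP_83fbc5_gt.RFC.A45

/-!
# RFC, module A7: decomposition of an inverse, and units from decompositions

`lead`: if all twisted coefficients of `f ∈ d.S` are `0` or units and `f ≠ 0` there are `n0` and `g, g' ∈ d.S` with
`f = g (tX)^n0`, `cf g n = cf f (n + n0)`, `g g' = g' g = 1` and the recursion for the coefficients of `g'`: `n0` least with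
`cf f n0 ≠ 0` (`Nat.find`; `Datum.ext_cf`), `Datum.factor`, `Datum.unit_S`.
`dec_unit`: `j a = Th f tu^k`, coefficients `0` or units: if `f = 0` then `j a = 0`, `a = 0` (`E.inj`); otherwise
`Th f = Th g tu^n0` is a unit (`Th g Th g' = 1`), so `j a` is a unit and `a` is one (`E.refl`).
`dec_inv`: (A): `e.ws = p.ws`. (B): `j c = Th f tu^k`, coefficients in `Zs ρ N p.sh`, so `0` or units (`Zs.zero_or_unit`); `f ≠ 0`
because `j c ≠ 0` (`c` is a unit, `U` nontrivial, `E.inj`). With `lead`: `j c = Th g tu^(n0 + k)` and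
`j c⁻¹ = tu^(-(n0+k)) Th g' = Th (sig (-(n0+k)) g') tu^(-(n0+k))`. Coefficients of `g'` by strong induction in `Zs ρ N (Sh.i x)`,
`x = p.sh`: `cf g' 0` is the inverse of the unit `cf g 0 = cf f n0`: `Zs.inv_i`; `cf g' n = -(cf g' 0 * ∑ cf g (k+1) (t^(k+1) cf g'
(n-k-1) t^(-(k+1))))`: `Zs.lift_i`, `Zs.conj_g` (`t^(k+1) = ρ (t0^(k+1))`), `Zs.mul_i`, `Zs.sum_i`, `Zs.neg` (`w0 ∈ N` by
`Good.invol`). Then `Zs.conj_g` for `sig` (`Datum.cf_sig`).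
-/

set_option autoImplicit false

namespace RFC

universe u v

variable {Γ : Type u} [Group Γ] {U : Type v} [Ring U] {ρ : Γ →* Uˣ} {S : Subgroup Γ}

theorem lead (d : Datum U) {f : PowerSeries U} (hf : f ∈ d.S) (h : ∀ n, d.cf f n = 0 ∨ IsUnit (d.cf f n)) (h0 : f ≠ 0) :
    ∃ (n0 : ℕ) (g g' : PowerSeries U), g ∈ d.S ∧ g' ∈ d.S ∧ f = g * (PowerSeries.C (d.t : U) * PowerSeries.X) ^ n0 ∧
      (∀ n, d.cf g n = d.cf f (n + n0)) ∧ g * g' = 1 ∧ g' * g = 1 ∧ d.cf g 0 * d.cf g' 0 = 1 ∧ d.cf g' 0 * d.cf g 0 = 1 ∧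
      ∀ n, 0 < n → d.cf g' n = -(d.cf g' 0 * ∑ k ∈ Finset.range n,
        d.cf g (k + 1) * (((d.t ^ (k + 1) : Uˣ) : U) * d.cf g' (n - (k + 1)) * (((d.t ^ (k + 1))⁻¹ : Uˣ) : U))) := by
  classical
  have hex : ∃ n, d.cf f n ≠ 0 := by
    by_contra hne
    push Not at hne
    apply h0
    apply d.ext_cf
    intro n
    rw [hne n]
    simp only [Datum.cf, map_zero, zero_mul]
  obtain ⟨g, hg, hfg, hcf⟩ := d.factor hf (Nat.find hex)
    (fun n hn => not_not.1 (Nat.find_min hex hn))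
  have hu : IsUnit (d.cf g 0) := by
    rw [hcf 0, Nat.zero_add]
    exact (h _).resolve_left (Nat.find_spec hex)
  obtain ⟨g', hg', e1, e2, e3, e4, e5⟩ := d.unit_S hg hu
  exact ⟨Nat.find hex, g, g', hg, hg', hfg, hcf, e1, e2, e3, e4, e5⟩

theorem dec_unit {d : Datum U} (E : Ext d) {a : U} {k : ℤ} (f : d.S)
    (h : E.j a = E.Th f * ((E.tu ^ k : E.U'ˣ) : E.U')) (h0 : ∀ n, d.cf f n = 0 ∨ IsUnit (d.cf f n)) :
    a = 0 ∨ IsUnit a := by
  by_cases hf0 : (f : PowerSeries U) = 0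
  · left
    have hf1 : f = 0 := Subtype.ext hf0
    rw [hf1, map_zero, zero_mul] at h
    exact E.inj (h.trans (map_zero _).symm)
  · right
    obtain ⟨n0, g, g', hg, hg', e1, -, e2, e3, -⟩ := lead d f.2 h0 hf0
    apply E.refl
    rw [h]
    have e4 : f = ⟨g, hg⟩ * ⟨_, d.Xl_mem n0⟩ := Subtype.ext e1
    rw [e4, map_mul, E.Th_Xl]
    have h5 : E.Th ⟨g, hg⟩ * E.Th ⟨g', hg'⟩ = 1 := by
      rw [← map_mul, ← map_one E.Th]
      exact congrArg E.Th (Subtype.ext e2)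
    have h6 : E.Th ⟨g', hg'⟩ * E.Th ⟨g, hg⟩ = 1 := by
      rw [← map_mul, ← map_one E.Th]
      exact congrArg E.Th (Subtype.ext e3)
    have e5 : IsUnit (E.Th ⟨g, hg⟩) := ⟨⟨_, _, h5, h6⟩, rfl⟩
    exact (e5.mul (Units.isUnit _)).mul (Units.isUnit _)

theorem dec_inv [Nontrivial U] (G : Good ρ S) {p : Ex Γ} {c : Uˣ} (hp : Val ρ p (c : U)) (dp : Dec ρ G p (c : U))
    {w0 : Γ} (hw0 : w0 ∈ S) (h1 : w0 * w0 = 1) (h2 : (ρ w0 : U) = -1) (H : ∀ s, Lt s p.sh → PP ρ s) :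
    Dec ρ G (Ex.inv p) ((c⁻¹ : Uˣ) : U) := by
  rcases dp with hw | ⟨k, f, hf1, hf2⟩
  · exact Or.inl hw
  right
  have hf0 : (f : PowerSeries U) ≠ 0 := by
    intro h0
    have h3 : f = 0 := Subtype.ext h0
    rw [h3, map_zero, zero_mul] at hf1
    exact c.ne_zero (G.E.inj (hf1.trans (map_zero _).symm))
  obtain ⟨n0, g, g', hg, hg', e1, e2, e3, e4, e5, e6, e7⟩ := lead G.d f.2
    (fun n => (hf2 n).zero_or_unit H) hf0
  have hw0N : w0 ∈ G.N := G.invol hw0 h1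
  -- the coefficients of g
  have hgz : ∀ n, Zs ρ G.N p.sh (G.d.cf g n) := by
    intro n
    rw [e2 n]
    exact hf2 _
  -- the coefficients of g'
  have hg'z : ∀ n, Zs ρ G.N (Sh.i p.sh) (G.d.cf g' n) := by
    intro n
    induction n using Nat.strong_induction_on with
    | _ n ih =>
      rcases Nat.eq_zero_or_pos n with hn | hn
      · subst hn
        have h3 : G.d.cf g' 0 = (((⟨G.d.cf g 0, G.d.cf g' 0, e5, e6⟩ : Uˣ)⁻¹ : Uˣ) : U) := rfl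
        rw [h3]
        exact Zs.inv_i (hgz 0)
      · rw [e7 n hn]
        have h0 : Zs ρ G.N (Sh.i p.sh) (G.d.cf g' 0) := ih 0 hn
        refine Zs.neg (h0.mul_i (Zs.sum_i _ _ fun i hi => ?_)) hw0N h2
        rw [Finset.mem_range] at hi
        have h3 := ih (n - (i + 1)) (by omega)
        refine ((hgz (i + 1)).lift_i).mul_i ?_
        have h4 := h3.conj_g (g := (G.t0 : Γ) ^ ((i + 1 : ℕ) : ℤ)) (G.conj_N (G.t0_mem _))
        rw [G.rho_t0, zpow_natCast] at h4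
        exact h4
  have hgu : G.E.Th ⟨g, hg⟩ * G.E.Th ⟨g', hg'⟩ = 1 := by
    rw [← map_mul, ← map_one G.E.Th]
    exact congrArg G.E.Th (Subtype.ext e3)
  have hgu' : G.E.Th ⟨g', hg'⟩ * G.E.Th ⟨g, hg⟩ = 1 := by
    rw [← map_mul, ← map_one G.E.Th]
    exact congrArg G.E.Th (Subtype.ext e4)
  have hf3 : f = ⟨g, hg⟩ * ⟨_, G.d.Xl_mem n0⟩ := Subtype.ext e1
  set K : ℤ := (n0 : ℤ) + k with hK
  have hjc : G.E.j (c : U) = G.E.Th ⟨g, hg⟩ * ((G.E.tu ^ K : G.E.U'ˣ) : G.E.U') := by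
    rw [hf1, hf3, map_mul, G.E.Th_Xl, mul_assoc, ← Units.val_mul, ← zpow_add]
  refine ⟨-K, ⟨G.d.sig (-K) g', G.d.sig_mem (-K) hg'⟩, ?_, ?_⟩
  · rw [G.E.Th_sig, Units.inv_mul_cancel_right]
    have h3 : G.E.j ((c⁻¹ : Uˣ) : U) * G.E.j (c : U) = 1 := by
      rw [← map_mul, Units.inv_mul, map_one]
    have h4 : G.E.j (c : U) * (((G.E.tu ^ (-K) : G.E.U'ˣ) : G.E.U') * G.E.Th ⟨g', hg'⟩) = 1 := by
      rw [hjc, zpow_neg, mul_assoc, Units.mul_inv_cancel_left, hgu]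
    calc G.E.j ((c⁻¹ : Uˣ) : U)
        = G.E.j ((c⁻¹ : Uˣ) : U) *
            (G.E.j (c : U) * (((G.E.tu ^ (-K) : G.E.U'ˣ) : G.E.U') * G.E.Th ⟨g', hg'⟩)) := by
          rw [h4, mul_one]
      _ = _ := by rw [← mul_assoc, h3, one_mul]
  · intro n
    change Zs ρ G.N (Sh.i p.sh) (G.d.cf (G.d.sig (-K) g') n)
    rw [G.d.cf_sig]
    have h4 := (hg'z n).conj_g (g := (G.t0 : Γ) ^ (-K)) (G.conj_N (G.t0_mem _))
    rw [G.rho_t0] at h4
    exact h4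

end RFC
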