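import Pool.Agent.Lib.MP_83fbc5_gt.RFC.A1
import Pool.Agent.Lib.MP_83fbc5_gt.RFC.A5
import Pool.Agent.Lib.MP_83fbc5_gt.RFC.A6
import Pool.Agent.Lib.MP_83fbc5_gt.RFC.A7

/-!
# RFC, module A8: Theorem T, all values are `0` or units

PROOF. Well founded induction (`Lt_wf.induction`) over the shape `x`; hypothesis `H : ∀ s, Lt s x → PP ρ s`. Let `e` have shape `x`
and value `a`. `S := Subgroup.closure (e.ws ∪ {w0})`, finitely generated (`Ex.ws_finite`).
CASE `S ≤ Z0`: by induction over `Val`, `a = κ k` for some `k : K` (one, sum, product; inverse: `κ k = c` unit, so `k ≠ 0`, and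
`c⁻¹ = κ k⁻¹`); so `a = 0` or `a` is a unit (`k = 0` or not).
CASE `S` not contained in `Z0`: let `G : Good ρ S`. CLAIM: for every expression `e'` with `e'.ws ⊆ S`, `Val ρ e' a'` and
`∀ s, Lt s e'.sh → PP ρ s`: `Dec ρ G e' a'`. Induction over `Val`: `one`: left alternative. `add`, `mul`, `inv`: `dec_add`, `dec_mul`,
`dec_inv`; the hypothesis on shapes passes to the subexpressions by the rules `a_l, a_r, m_l, m_r, i_s`. For `e` itself: the left
alternative `e.ws ⊆ N` gives `S ≤ N` (`w0 ∈ N` by `Good.invol`), against `Good.not_le`. The right alternative: the coefficients are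
`0` or units by `Zs.zero_or_unit` and `H`; `dec_unit`.
-/

set_option autoImplicit false

namespace RFC

universe u v w

variable {Γ : Type u} [Group Γ] {U : Type v} [Ring U]

theorem zero_or_unit [Nontrivial U] (ρ : Γ →* Uˣ) (Z0 : Subgroup Γ) {K : Type w} [Field K] (κ : K →+* U)
    (hZ : ∀ z ∈ Z0, ∃ k : K, (ρ z : U) = κ k) (w0 : Γ) (hw0 : w0 ∈ Z0) (h1 : w0 * w0 = 1) (h2 : (ρ w0 : U) = -1)
    (hG : ∀ S : Subgroup Γ, S.FG → ¬ S ≤ Z0 → Nonempty (Good ρ S)) (x : Sh) : PP ρ x := by
  induction x using Lt_wf.induction with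
  | _ x H =>
  intro e hx a ha
  subst hx
  set S : Subgroup Γ := Subgroup.closure (e.ws ∪ {w0}) with hSdef
  have hw0S : w0 ∈ S := Subgroup.subset_closure (Or.inr rfl)
  have heS : e.ws ⊆ S := fun w hw => Subgroup.subset_closure (Or.inl hw)
  have hfin : (e.ws ∪ {w0}).Finite := (Ex.ws_finite e).union (Set.finite_singleton w0)
  have hSfg : S.FG := (Subgroup.fg_iff S).2 ⟨e.ws ∪ {w0}, rfl, hfin⟩
  by_cases hle : S ≤ Z0
  · have key : ∀ (e' : Ex Γ) (a' : U), Val ρ e' a' → e'.ws ⊆ Z0 → ∃ k : K, a' = κ k := by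
      intro e' a' hv
      induction hv with
      | one => intro _; exact ⟨1, (map_one κ).symm⟩
      | add w _ _ ihp ihq =>
        intro hs
        obtain ⟨k1, hk1⟩ := ihp fun z hz => hs (Or.inl (Or.inl hz))
        obtain ⟨k2, hk2⟩ := ihq fun z hz => hs (Or.inl (Or.inr hz))
        obtain ⟨k3, hk3⟩ := hZ w (hs (Or.inr rfl))
        exact ⟨k1 + k2 * k3, by rw [hk1, hk2, hk3, map_add, map_mul]⟩
      | mul _ _ ihp ihq =>
        intro hs
        obtain ⟨k1, hk1⟩ := ihp fun z hz => hs (Or.inl hz)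
        obtain ⟨k2, hk2⟩ := ihq fun z hz => hs (Or.inr hz)
        exact ⟨k1 * k2, by rw [hk1, hk2, map_mul]⟩
      | @inv p c _ ihp =>
        intro hs
        obtain ⟨k, hk⟩ := ihp hs
        have hk0 : k ≠ 0 := by
          rintro rfl
          rw [map_zero] at hk
          exact c.ne_zero hk
        refine ⟨k⁻¹, ?_⟩
        have h : (c : U) * κ k⁻¹ = 1 := by rw [hk, ← map_mul, mul_inv_cancel₀ hk0, map_one]
        calc ((c⁻¹ : Uˣ) : U) = ((c⁻¹ : Uˣ) : U) * ((c : U) * κ k⁻¹) := by rw [h, mul_one]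
          _ = κ k⁻¹ := by rw [← mul_assoc, Units.inv_mul, one_mul]
    obtain ⟨k, hk⟩ := key e a ha fun w hw => hle (heS hw)
    rcases eq_or_ne k 0 with rfl | hk0
    · left; rw [hk, map_zero]
    · right; rw [hk]; exact (IsUnit.mk0 k hk0).map κ
  · obtain ⟨G⟩ := hG S hSfg hle
    have key : ∀ (e' : Ex Γ) (a' : U), Val ρ e' a' → e'.ws ⊆ S → (∀ s, Lt s e'.sh → PP ρ s) → Dec ρ G e' a' := by
      intro e' a' hv
      induction hv with
      | one => intro _ _; exact Or.inl (Set.empty_subset _)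
      | add w hp hq ihp ihq =>
        intro hs hH
        exact dec_add G hp hq (hs (Or.inr rfl))
          (ihp (fun z hz => hs (Or.inl (Or.inl hz))) fun s h => hH s (Lt.a_l h))
          (ihq (fun z hz => hs (Or.inl (Or.inr hz))) fun s h => hH s (Lt.a_r h))
      | mul hp hq ihp ihq =>
        intro hs hH
        exact dec_mul G hp hq
          (ihp (fun z hz => hs (Or.inl hz)) fun s h => hH s (Lt.m_l h))
          (ihq (fun z hz => hs (Or.inr hz)) fun s h => hH s (Lt.m_r h))
      | inv hp ihp =>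
        intro hs hH
        exact dec_inv G hp (ihp hs fun s h => hH s (Lt.i_s h)) hw0S h1 h2 fun s h => hH s (Lt.i_s h)
    rcases key e a ha heS H with hN | ⟨k, f, hj, hn⟩
    · exfalso
      refine Good.not_le G ?_
      refine (Subgroup.closure_le _).2 ?_
      rintro z (hz | hz)
      · exact hN hz
      · rw [Set.mem_singleton_iff] at hz
        rw [hz]
        exact Good.invol G hw0S h1
    · exact dec_unit G.E f hj fun n => (hn n).zero_or_unit H

end RFC
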