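import Pool.Agent.Lib.MP_83fbc5_gt.RFC.A2

/-!
# RFC, module A9: the division ring of all values

PROOF. `D = {c | c = 0 ∨ ∃ e g b, Val ρ e b ∧ c = b * ρ g}`. Closed under sums: `b₁ ρ g₁ + b₂ ρ g₂ = (b₁ + b₂ ρ (g₂ g₁⁻¹)) ρ g₁`
(`Val.add`), products: `b₁ (ρ g₁ b₂ ρ g₁⁻¹) ρ (g₁ g₂)` (`Val.mul`, `Val.conj`), negatives: `-(b ρ g) = b ρ (g w0)`. A nonzero element
`c = b ρ g` has `b ≠ 0`, so `b = u` is a unit and `c⁻¹ = ρ g⁻¹ u⁻¹ = (ρ g⁻¹ u⁻¹ ρ g) ρ g⁻¹` (`Val.inv`, `Val.conj`).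
-/

set_option autoImplicit false

namespace RFC

universe u v

variable {Γ : Type u} [Group Γ] {U : Type v} [Ring U]

theorem exists_division (ρ : Γ →* Uˣ) (w0 : Γ) (h2 : (ρ w0 : U) = -1) (h : ∀ x, PP ρ x) :
    ∃ D : Subring U, (∀ g, (ρ g : U) ∈ D) ∧ ∀ a ∈ D, a ≠ 0 → ∃ b ∈ D, a * b = 1 ∧ b * a = 1 := by
  have hconj : ∀ (g : Γ) (b : U), (ρ g : U) * b = ((ρ g : U) * b * (((ρ g)⁻¹ : Uˣ) : U)) * (ρ g : U) := by
    intro g b
    rw [mul_assoc ((ρ g : U) * b), Units.inv_mul, mul_one]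
  let D : Subring U :=
    { carrier := {c | c = 0 ∨ ∃ (e : Ex Γ) (g : Γ) (b : U), Val ρ e b ∧ c = b * (ρ g : U)}
      zero_mem' := Or.inl rfl
      one_mem' := Or.inr ⟨Ex.one, 1, 1, Val.one, by rw [map_one, Units.val_one, mul_one]⟩
      add_mem' := by
        rintro c c' (rfl | ⟨e, g, b, hb, rfl⟩) (rfl | ⟨e', g', b', hb', rfl⟩)
        · exact Or.inl (add_zero 0)
        · exact Or.inr ⟨e', g', b', hb', zero_add _⟩
        · exact Or.inr ⟨e, g, b, hb, add_zero _⟩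
        · refine Or.inr ⟨Ex.add e e' (g' * g⁻¹), g, _, Val.add _ hb hb', ?_⟩
          rw [add_mul, mul_assoc b', ← Units.val_mul, ← map_mul, inv_mul_cancel_right]
      mul_mem' := by
        rintro c c' (rfl | ⟨e, g, b, hb, rfl⟩) (rfl | ⟨e', g', b', hb', rfl⟩)
        · exact Or.inl (mul_zero 0)
        · exact Or.inl (zero_mul _)
        · exact Or.inl (mul_zero _)
        · refine Or.inr ⟨Ex.mul e (e'.conj g), g * g', _, Val.mul hb (hb'.conj g), ?_⟩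
          rw [map_mul, Units.val_mul]
          simp only [mul_assoc, Units.inv_mul_cancel_left]
      neg_mem' := by
        rintro c (rfl | ⟨e, g, b, hb, rfl⟩)
        · exact Or.inl neg_zero
        · refine Or.inr ⟨e, g * w0, b, hb, ?_⟩
          rw [map_mul, Units.val_mul, h2, mul_neg, mul_one, mul_neg] }
  refine ⟨D, fun g => Or.inr ⟨Ex.one, g, 1, Val.one, (one_mul _).symm⟩, ?_⟩
  rintro a (rfl | ⟨e, g, b, hb, rfl⟩) ha
  · exact absurd rfl ha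
  · rcases h e.sh e rfl b hb with h0 | ⟨u, hu⟩
    · rw [h0, zero_mul] at ha
      exact absurd rfl ha
    · rw [← hu] at hb
      have h3 := (Val.inv hb).conj g⁻¹
      refine ⟨_, Or.inr ⟨_, g⁻¹, _, h3, rfl⟩, ?_, ?_⟩
      · rw [← hu, ← hconj, map_inv, ← Units.val_mul, ← Units.val_mul, ← Units.val_mul,
          ← mul_assoc, mul_assoc u, mul_inv_cancel, mul_one, mul_inv_cancel, Units.val_one]
      · rw [← hu, ← hconj, map_inv, ← Units.val_mul, ← Units.val_mul, ← Units.val_mul,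
          ← mul_assoc, mul_assoc (ρ g)⁻¹, inv_mul_cancel, mul_one, inv_mul_cancel, Units.val_one]

end RFC
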