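import Pool.Agent.Lib.MP_83fbc5_gt.RFC.BDefs

/-!
# RFC, module B1: sequences modulo null sequences

PROOF. The null sequences `{u | ∀ ε > 0, eventually Sm ε (u k)}` form a two-sided ideal (`TwoSidedIdeal.mk'`; or build the `RingCon`
`r u v := u - v` null by hand): zero by `mono zero`, sums by `add` with `ε / 2`, negatives by `mul_l (-1)`, products by `mul_l`, `mul_r`.
`U'` is the quotient (`RingCon.Quotient`), `π` the quotient map (`RingCon.mk'`).
(20-30 minutes)
-/

set_option autoImplicit false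

namespace RFC

universe v

theorem Size.exists_seq {U : Type v} [Ring U] (Z : Size U) :
    ∃ (U' : Type v) (_ : Ring U') (π : (ℕ → U) →+* U'), Function.Surjective π ∧
      ∀ u : ℕ → U, π u = 0 ↔ ∀ ε : ℝ, 0 < ε → ∀ᶠ k in Filter.atTop, Z.Sm ε (u k) := by
  let N : Set (ℕ → U) := {u | ∀ ε : ℝ, 0 < ε → ∀ᶠ k in Filter.atTop, Z.Sm ε (u k)}
  have h0 : (0 : ℕ → U) ∈ N := fun ε hε =>
    Filter.Eventually.of_forall fun k => Z.mono hε.le Z.zero
  have hadd : ∀ {x y : ℕ → U}, x ∈ N → y ∈ N → x + y ∈ N := by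
    intro x y hx hy ε hε
    filter_upwards [hx (ε / 2) (by positivity), hy (ε / 2) (by positivity)] with k h1 h2
    have h3 := Z.add h1 h2
    rw [add_halves] at h3
    exact h3
  have hneg : ∀ {x : ℕ → U}, x ∈ N → -x ∈ N := by
    intro x hx ε hε
    filter_upwards [hx ε hε] with k h1
    have h3 := Z.mul_l (-1) h1
    rw [neg_one_mul] at h3
    exact h3
  have hml : ∀ {x y : ℕ → U}, y ∈ N → x * y ∈ N := by
    intro x y hy ε hε
    filter_upwards [hy ε hε] with k h1
    exact Z.mul_l (x k) h1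
  have hmr : ∀ {x y : ℕ → U}, x ∈ N → x * y ∈ N := by
    intro x y hx ε hε
    filter_upwards [hx ε hε] with k h1
    exact Z.mul_r (y k) h1
  let I : TwoSidedIdeal (ℕ → U) := TwoSidedIdeal.mk' N h0 hadd hneg hml hmr
  refine ⟨I.ringCon.Quotient, inferInstance, I.ringCon.mk', ?_, ?_⟩
  · exact Quotient.mk_surjective
  · intro u
    have h1 : I.ringCon.mk' u = 0 ↔ I.ringCon u 0 := by
      rw [← map_zero I.ringCon.mk']
      exact I.ringCon.eq
    rw [h1]
    show u - 0 ∈ N ↔ _
    rw [sub_zero]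
    exact Iff.rfl

end RFC
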