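import Pool.Agent.Lib.MP_83fbc5_gt.RFC.RDefs

/-!
# RFC, module B2: truncated evaluation

PROOF. Put `x = t q`. For `c ∈ C`: `x * c = (t c t⁻¹) * x` (`q c = c q`), hence `x ^ n * c = (t ^ n c t ^ (-n)) * x ^ n` (induction, with
`Datum.conj_pow` for the membership). Define `T f = ∑ n < m, cf f n * x ^ n`. `T 1 = 1` since `cf 1 0 = 1`, `cf 1 n = 0` for `n > 0`, `m > 0`.
Additive, since `cf` is. `T f * T g = ∑ a < m, ∑ b < m, cf f a * x ^ a * (cf g b) * x ^ b = ∑ ∑ cf f a * (t ^ a cf g b t ^ (-a)) * x ^ (a + b)`;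
terms with `a + b ≥ m` vanish (`x ^ m = 0`), and the terms with `a + b = n < m` sum to `cf (f g) n * x ^ n` (`Datum.cf_mul`).
(30-45 minutes)
-/

set_option autoImplicit false

namespace RFC

universe v

private lemma b2_comm {U : Type v} [Ring U] (d : Datum U) (q : U) (hc : ∀ c ∈ d.C, q * c = c * q)
    (n : ℕ) {c : U} (h : c ∈ d.C) :
    ((d.t : U) * q) ^ n * c =
      ((d.t ^ n : Uˣ) : U) * c * (((d.t ^ n)⁻¹ : Uˣ) : U) * ((d.t : U) * q) ^ n := by
  induction n with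
  | zero => simp
  | succ n ih =>
    have h1 := d.conj_pow n h
    have h2 : ((d.t : U) * q) * (((d.t ^ n : Uˣ) : U) * c * (((d.t ^ n)⁻¹ : Uˣ) : U)) =
        ((d.t ^ (n + 1) : Uˣ) : U) * c * (((d.t ^ (n + 1))⁻¹ : Uˣ) : U) * ((d.t : U) * q) := by
      rw [mul_assoc, hc _ h1, pow_succ', mul_inv_rev, Units.val_mul, Units.val_mul]
      simp only [mul_assoc, Units.inv_mul_cancel_left]
    rw [pow_succ', mul_assoc, ih, ← mul_assoc, h2, mul_assoc, ← pow_succ']

private lemma b2_sum {U : Type v} [Ring U] (m : ℕ) (H : ℕ × ℕ → U)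
    (hH : ∀ p : ℕ × ℕ, m ≤ p.1 + p.2 → H p = 0) :
    ∑ a ∈ Finset.range m, ∑ b ∈ Finset.range m, H (a, b) =
      ∑ n ∈ Finset.range m, ∑ p ∈ Finset.HasAntidiagonal.antidiagonal n, H p := by
  classical
  have h1 : ∑ a ∈ Finset.range m, ∑ b ∈ Finset.range m, H (a, b) =
      ∑ p ∈ (Finset.range m ×ˢ Finset.range m).filter (fun p => p.1 + p.2 < m), H p := by
    rw [← Finset.sum_product', ← Finset.sum_filter_add_sum_filter_not _
      (fun p : ℕ × ℕ => p.1 + p.2 < m)]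
    rw [Finset.sum_eq_zero (s := Finset.filter (fun p : ℕ × ℕ => ¬ p.1 + p.2 < m) _), add_zero]
    intro p hp
    exact hH p (not_lt.1 (Finset.mem_filter.1 hp).2)
  rw [h1, ← Finset.sum_fiberwise_of_maps_to (t := Finset.range m) (g := fun p => p.1 + p.2)]
  · refine Finset.sum_congr rfl fun n hn => Finset.sum_congr ?_ fun _ _ => rfl
    ext ⟨a, b⟩
    rw [Finset.mem_range] at hn
    simp only [Finset.mem_filter, Finset.mem_product, Finset.mem_range,
      Finset.HasAntidiagonal.mem_antidiagonal]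
    omega
  · intro p hp
    exact Finset.mem_range.2 (Finset.mem_filter.1 hp).2

theorem exists_Thk {U : Type v} [Ring U] (d : Datum U) (q : U) (m : ℕ) (hm : 0 < m) (hq : ((d.t : U) * q) ^ m = 0)
    (hc : ∀ c ∈ d.C, q * c = c * q) :
    ∃ T : d.S →+* U, ∀ f : d.S, T f = ∑ n ∈ Finset.range m, d.cf f n * ((d.t : U) * q) ^ n := by
  classical
  obtain ⟨x, hx⟩ : ∃ x : U, x = (d.t : U) * q := ⟨_, rfl⟩
  have hcomm : ∀ (n : ℕ) {c : U}, c ∈ d.C → x ^ n * c =
      ((d.t ^ n : Uˣ) : U) * c * (((d.t ^ n)⁻¹ : Uˣ) : U) * x ^ n := by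
    intro n c h
    rw [hx]
    exact b2_comm d q hc n h
  rw [← hx] at hq ⊢
  refine ⟨{ toFun := fun f => ∑ n ∈ Finset.range m, d.cf f n * x ^ n
            map_one' := ?_
            map_mul' := ?_
            map_zero' := ?_
            map_add' := ?_ }, fun f => rfl⟩
  · obtain ⟨m', rfl⟩ : ∃ m', m = m' + 1 := ⟨m - 1, by omega⟩
    rw [Finset.sum_range_succ', Finset.sum_eq_zero, zero_add]
    · simp [Datum.cf]
    · intro n _
      simp [Datum.cf, PowerSeries.coeff_one]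
  · intro f g
    have hH := b2_sum m (fun p : ℕ × ℕ => d.cf f p.1 *
      (((d.t ^ p.1 : Uˣ) : U) * d.cf g p.2 * (((d.t ^ p.1)⁻¹ : Uˣ) : U)) * x ^ (p.1 + p.2)) (by
        intro p hp
        have h0 : x ^ (p.1 + p.2) = 0 := pow_eq_zero_of_le hp hq
        rw [h0, mul_zero])
    have h1 : (∑ n ∈ Finset.range m, d.cf ((f * g : d.S) : PowerSeries U) n * x ^ n) =
        ∑ n ∈ Finset.range m, ∑ p ∈ Finset.HasAntidiagonal.antidiagonal n, d.cf f p.1 *
          (((d.t ^ p.1 : Uˣ) : U) * d.cf g p.2 * (((d.t ^ p.1)⁻¹ : Uˣ) : U)) * x ^ (p.1 + p.2) := by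
      refine Finset.sum_congr rfl fun n _ => ?_
      rw [show ((f * g : d.S) : PowerSeries U) = (f : PowerSeries U) * (g : PowerSeries U) from rfl,
        d.cf_mul, Finset.sum_mul]
      refine Finset.sum_congr rfl fun p hp => ?_
      rw [Finset.HasAntidiagonal.mem_antidiagonal] at hp
      rw [hp]
    rw [h1, ← hH, Finset.sum_mul]
    refine Finset.sum_congr rfl fun a _ => ?_
    rw [Finset.mul_sum]
    refine Finset.sum_congr rfl fun b _ => ?_
    have h2 := hcomm a (g.2 b)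
    calc d.cf f a * (((d.t ^ a : Uˣ) : U) * d.cf g b * (((d.t ^ a)⁻¹ : Uˣ) : U)) * x ^ (a + b)
        = d.cf f a * (((d.t ^ a : Uˣ) : U) * d.cf g b * (((d.t ^ a)⁻¹ : Uˣ) : U) * x ^ a) * x ^ b := by
          rw [pow_add]
          simp only [mul_assoc]
      _ = d.cf f a * (x ^ a * d.cf g b) * x ^ b := by rw [h2]
      _ = _ := by simp only [mul_assoc]
  · simp [Datum.cf]
  · intro f g
    rw [← Finset.sum_add_distrib]
    refine Finset.sum_congr rfl fun n _ => ?_
    rw [← add_mul]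
    simp [Datum.cf, add_mul]

end RFC
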