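import Pool.Agent.Lib.MP_83fbc5_gt.RFC.B1
import Pool.Agent.Lib.MP_83fbc5_gt.RFC.B2

/-!
# RFC, module B3: extensions from towers

PROOF. `C := Subring.centralizer {x | ∃ (j : ℤ) (k : ℕ), x = t ^ j * q k * t ^ (-j)}` (powers of the unit `t`). `conj`, `conj'`: `t c t⁻¹`
commutes with `t ^ j q t ^ (-j)` iff `c` commutes with `t ^ (j-1) q t ^ (1-j)`. `inv`: if a unit commutes with `x`, so does its inverse
(`Commute.units_inv_left`). `V ⊆ C`: `v` commutes with `t ^ j q t ^ (-j)` iff `t ^ (-j) v t ^ j ∈ V` commutes with `q`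
(`t ^ j V t ^ (-j) = V` for all `j : ℤ` by `hVt`, `hVt'`).
`Ext`: `U'`, `π` from `Z.exists_seq`; `j c := π (fun _ => c)` (`Pi.constRingHom`); injective: `j c = 0` gives `Sm ε c` for all `ε > 0`
(a constant sequence, `Filter.eventually_const`), `faithful`. `refl`: if `j c` is a unit, its inverse is `π v` (surjective), so
`1 - c * v k` is null, hence for every `ε > 0` there is `k` with `Sm ε (1 - c * v k)`; `unit`.
`Th f := π (fun k => T k f)` with `T k` from `exists_Thk d (q k) (m k)` (`Pi.ringHom`; `0 < m k` from `hm`; for `c ∈ C` take `j = 0`).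
`Th_C`: `cf (C c) 0 = c`, `cf (C c) n = 0` for `n > 0`, so `T k (C c) = c`. `Th_X`: `cf (C t * X) n` is `1` for `n = 1` and `0` otherwise, so
`T k (C t * X) = t * q k` for `k ≥ 1` (`m k > 1`); `t - t * q k = t * (1 - q k)` is null: `Sm (1 / m k) (1 - q k)` and `1 / m k → 0`
(`m k > k`).
(45 minutes)
-/

set_option autoImplicit false

namespace RFC

universe v

/-- the elements `t ^ j * q k * t ^ (-j)` -/
private def B3set {U : Type v} [Ring U] (t : Uˣ) (q : ℕ → U) : Set U :=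
  {x | ∃ (j : ℤ) (k : ℕ), x = ((t ^ j : Uˣ) : U) * q k * (((t ^ j)⁻¹ : Uˣ) : U)}

private theorem B3_conj {U : Type v} [Ring U] (s : Uˣ) {c x : U} (h : x * c = c * x) :
    ((s : U) * x * ((s⁻¹ : Uˣ) : U)) * ((s : U) * c * ((s⁻¹ : Uˣ) : U)) =
      ((s : U) * c * ((s⁻¹ : Uˣ) : U)) * ((s : U) * x * ((s⁻¹ : Uˣ) : U)) := by
  have e : ∀ a b : U, ((s : U) * a * ((s⁻¹ : Uˣ) : U)) * ((s : U) * b * ((s⁻¹ : Uˣ) : U)) =
      (s : U) * (a * b) * ((s⁻¹ : Uˣ) : U) := by
    intro a b
    simp only [mul_assoc, Units.inv_mul_cancel_left]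
  rw [e, e, h]

private theorem B3_mem {U : Type v} [Ring U] (t : Uˣ) (q : ℕ → U) (j0 : ℤ) {c : U}
    (hc : ∀ x ∈ B3set t q, x * c = c * x) :
    ∀ x ∈ B3set t q, x * (((t ^ j0 : Uˣ) : U) * c * (((t ^ j0)⁻¹ : Uˣ) : U)) =
      (((t ^ j0 : Uˣ) : U) * c * (((t ^ j0)⁻¹ : Uˣ) : U)) * x := by
  rintro x ⟨j, k, rfl⟩
  have h1 := B3_conj (t ^ j0) (hc _ ⟨j - j0, k, rfl⟩)
  have e : ((t ^ j0 : Uˣ) : U) * (((t ^ (j - j0) : Uˣ) : U) * q k * (((t ^ (j - j0))⁻¹ : Uˣ) : U)) *
      (((t ^ j0)⁻¹ : Uˣ) : U) = ((t ^ j : Uˣ) : U) * q k * (((t ^ j)⁻¹ : Uˣ) : U) := by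
    have e1 : t ^ j = t ^ j0 * t ^ (j - j0) := by rw [← zpow_add]; congr 1; ring
    rw [e1, mul_inv_rev, Units.val_mul, Units.val_mul]
    simp only [mul_assoc]
  rw [e] at h1
  exact h1

/-- the subring `C` -/
private def B3C {U : Type v} [Ring U] (t : Uˣ) (q : ℕ → U) : Subring U where
  carrier := {c | ∀ x ∈ B3set t q, x * c = c * x}
  zero_mem' := by intro x _; rw [mul_zero, zero_mul]
  one_mem' := by intro x _; rw [mul_one, one_mul]
  add_mem' {a b} ha hb := by intro x hx; rw [mul_add, add_mul, ha x hx, hb x hx]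
  neg_mem' {a} ha := by intro x hx; rw [mul_neg, neg_mul, ha x hx]
  mul_mem' {a b} ha hb := by intro x hx; rw [← mul_assoc, ha x hx, mul_assoc, hb x hx, mul_assoc]

private noncomputable def B3D {U : Type v} [Ring U] (t : Uˣ) (q : ℕ → U) : Datum U where
  C := B3C t q
  t := t
  conj c hc := by
    have h := B3_mem t q 1 hc
    simp only [zpow_one] at h
    exact h
  conj' c hc := by
    have h := B3_mem t q (-1) hc
    simp only [zpow_neg, zpow_one, inv_inv] at h
    exact h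
  inv c hc := by
    intro x hx
    have h := hc x hx
    have h1 : ((c⁻¹ : Uˣ) : U) * (x * (c : U)) * ((c⁻¹ : Uˣ) : U) = ((c⁻¹ : Uˣ) : U) * ((c : U) * x) * ((c⁻¹ : Uˣ) : U) := by
      rw [h]
    rw [Units.inv_mul_cancel_left, mul_assoc, Units.mul_inv_cancel_right] at h1
    exact h1.symm

theorem ext_of_tower {U : Type v} [Ring U] (Z : Size U) (t : Uˣ) (m : ℕ → ℕ) (hm : ∀ k, k < m k) (q : ℕ → U)
    (hq : ∀ k, ((t : U) * q k) ^ m k = 0) (hs : ∀ k, Z.Sm (1 / (m k : ℝ)) (1 - q k)) (V : Set U)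
    (hV : ∀ v ∈ V, ∀ k, q k * v = v * q k) (hVt : ∀ v ∈ V, (t : U) * v * ((t⁻¹ : Uˣ) : U) ∈ V)
    (hVt' : ∀ v ∈ V, ((t⁻¹ : Uˣ) : U) * v * (t : U) ∈ V) :
    ∃ d : Datum U, d.t = t ∧ (∀ v ∈ V, v ∈ d.C) ∧ Nonempty (Ext d) := by
  classical
  refine ⟨B3D t q, rfl, ?_, ?_⟩
  · -- conjugates of elements of `V` by powers of `t` are in `V`
    have hj : ∀ (j : ℤ) (v : U), v ∈ V → ((t ^ j : Uˣ) : U) * v * (((t ^ j)⁻¹ : Uˣ) : U) ∈ V := by
      intro j
      induction j using Int.induction_on with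
      | zero => intro v hv; simpa using hv
      | succ n ih =>
        intro v hv
        have h := hVt _ (ih v hv)
        have e : t ^ ((n : ℤ) + 1) = t * t ^ (n : ℤ) := by rw [zpow_add, zpow_one]; exact (Commute.zpow_self t n).eq
        rw [e, mul_inv_rev, Units.val_mul, Units.val_mul]
        simpa only [mul_assoc] using h
      | pred n ih =>
        intro v hv
        have h := hVt' _ (ih v hv)
        have e : t ^ (-(n : ℤ) - 1) = t⁻¹ * t ^ (-(n : ℤ)) := by
          rw [sub_eq_add_neg, add_comm, zpow_add, zpow_neg_one]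
        rw [e, mul_inv_rev, inv_inv, Units.val_mul, Units.val_mul]
        simpa only [mul_assoc] using h
    intro v hv
    show ∀ x ∈ B3set t q, x * v = v * x
    rintro x ⟨j, k, rfl⟩
    have h1 := hV _ (hj (-j) v hv) k
    have h2 := B3_conj (t ^ j) h1
    have e : ((t ^ j : Uˣ) : U) * (((t ^ (-j) : Uˣ) : U) * v * (((t ^ (-j))⁻¹ : Uˣ) : U)) * (((t ^ j)⁻¹ : Uˣ) : U) = v := by
      rw [zpow_neg, inv_inv]
      simp only [mul_assoc, Units.mul_inv_cancel_left, Units.mul_inv, mul_one]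
    rw [e] at h2
    exact h2
  · obtain ⟨U', _, π, hπs, hπ⟩ := Z.exists_seq
    have hcq : ∀ k, ∀ c ∈ (B3D t q).C, q k * c = c * q k := by
      intro k c hc
      have h := hc (q k) ⟨0, k, by simp⟩
      exact h
    have hT : ∀ k, ∃ T : (B3D t q).S →+* U, ∀ f : (B3D t q).S, T f = ∑ n ∈ Finset.range (m k),
        (B3D t q).cf f n * (((B3D t q).t : U) * q k) ^ n :=
      fun k => exists_Thk (B3D t q) (q k) (m k) (lt_of_le_of_lt (Nat.zero_le _) (hm k)) (hq k) (hcq k)
    choose T hT using hT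
    have hsm : ∀ ε : ℝ, 0 < ε → ∀ᶠ k in Filter.atTop, Z.Sm ε (1 - q k) := by
      intro ε hε
      obtain ⟨n, hn⟩ := exists_nat_gt (1 / ε)
      filter_upwards [Filter.eventually_ge_atTop n] with k hk
      refine Z.mono ?_ (hs k)
      have h1 : (n : ℝ) < (m k : ℝ) := by exact_mod_cast lt_of_le_of_lt hk (hm k)
      have h2 : (1 : ℝ) / ε < (m k : ℝ) := hn.trans h1
      rw [div_le_iff₀ (lt_trans (by positivity) h2)]
      rw [div_lt_iff₀ hε] at h2
      linarith
    refine ⟨{ U' := U', j := π.comp (Pi.constRingHom ℕ U), inj := ?_, refl := ?_, Th := π.comp (RingHom.pi T), Th_C := ?_, Th_X := ?_ }⟩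
    · rw [injective_iff_map_eq_zero]
      intro c hc
      refine Z.faithful c fun ε hε => ?_
      have h := (hπ _).1 hc ε hε
      obtain ⟨k, hk⟩ := h.exists
      exact hk
    · intro c hc
      obtain ⟨w, hw⟩ := hc
      obtain ⟨v, hv⟩ := hπs (((w⁻¹ : U'ˣ)) : U')
      refine Z.unit c fun ε hε => ?_
      have h1 : π ((fun _ => 1) - (fun _ => c) * v) = 0 := by
        have e1 : π (fun _ => (1 : U)) = 1 := map_one π
        have e2 : π (fun _ => c) = (w : U') := hw.symm
        rw [map_sub, map_mul, hv, e1, e2, Units.mul_inv, sub_self]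
      obtain ⟨k, hk⟩ := ((hπ _).1 h1 ε hε).exists
      exact ⟨v k, hk⟩
    · intro c hc
      show π (fun k => T k _) = π (fun _ => c)
      congr 1
      funext k
      rw [hT k]
      rw [Finset.sum_eq_single 0]
      · simp [Datum.cf]
      · intro n _ hn
        simp [Datum.cf, PowerSeries.coeff_C, hn]
      · intro h0
        exact absurd (Finset.mem_range.2 (lt_of_le_of_lt (Nat.zero_le _) (hm k))) h0
    · show π (fun k => T k _) = π (fun _ => (t : U))
      rw [← sub_eq_zero, ← map_sub, hπ]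
      intro ε hε
      filter_upwards [hsm ε hε, Filter.eventually_ge_atTop 1] with k hk hk1
      have e : T k ⟨PowerSeries.C ((B3D t q).t : U) * PowerSeries.X, (B3D t q).X_mem⟩ = (t : U) * q k := by
        rw [hT k, Finset.sum_eq_single 1]
        · have e0 : ((B3D t q).t : U) = (t : U) := rfl
          simp only [Datum.cf, PowerSeries.coeff_C_mul, PowerSeries.coeff_X, pow_one, if_true, mul_one, Units.mul_inv, one_mul]
          rfl
        · intro n _ hn
          simp [Datum.cf, PowerSeries.coeff_X, hn]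
        · intro h0
          exact absurd (Finset.mem_range.2 (lt_of_le_of_lt hk1 (hm k))) h0
      have e2 : T k ⟨PowerSeries.C ((B3D t q).t : U) * PowerSeries.X, (B3D t q).X_mem⟩ - (t : U) =
          (-(t : U)) * (1 - q k) := by
        rw [e]
        noncomm_ring
      have h3 := Z.mul_l (-(t : U)) hk
      rw [← e2] at h3
      exact h3

end RFC
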