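import Pool.Agent.Lib.MP_83fbc5_gt.RFC.RDefs

/-!
# RFC: sizes of elements of a ring

`Sm ε u`: `u` is small of size `ε`. In the application `U` consists of sequences of matrices modulo null sequences and `Sm ε u` means
`rank(M_i) ≤ ε |X_i|` eventually, for some representative `M` of `u`.
-/

set_option autoImplicit false

namespace RFC

universe v

/-- a size on a ring -/
structure Size (U : Type v) [Ring U] where
  Sm : ℝ → U → Prop
  mono : ∀ {ε δ : ℝ} {u : U}, ε ≤ δ → Sm ε u → Sm δ u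
  zero : Sm 0 0
  add : ∀ {ε δ : ℝ} {u v : U}, Sm ε u → Sm δ v → Sm (ε + δ) (u + v)
  mul_l : ∀ {ε : ℝ} {u : U} (v : U), Sm ε u → Sm ε (v * u)
  mul_r : ∀ {ε : ℝ} {u : U} (v : U), Sm ε u → Sm ε (u * v)
  faithful : ∀ u : U, (∀ ε : ℝ, 0 < ε → Sm ε u) → u = 0
  unit : ∀ u : U, (∀ ε : ℝ, 0 < ε → ∃ v, Sm ε (1 - u * v)) → IsUnit u

end RFC
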