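import Pool.Agent.Lib.MP_83fbc5_gt.RFC.CDefs

/-!
# RFC, module C0: facts about `Sml`

PROOF. `Matrix.rank_zero`, `rank (A + B) ≤ rank A + rank B` (search Mathlib: `Matrix.rank_add_le`; otherwise via ranges of `mulVecLin`),
`Matrix.rank_mul_le_left`, `Matrix.rank_mul_le_right`, `Filter.Eventually` calculus, `0 ≤ card`.
`not_sml_one`: `rank 1 = card (X i) > 0` (`Matrix.rank_one`), so `card ≤ card / 2` is false; `atTop.NeBot`.
(20 minutes)
-/

set_option autoImplicit false

namespace RFC

open Matrix Filter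

universe w

variable {K : Type w} [Field K] {X : ℕ → Type} [∀ i, Fintype (X i)] [∀ i, DecidableEq (X i)]

private theorem C0_rank_add {m n : Type} [Fintype m] [Fintype n] (A B : Matrix m n K) : (A + B).rank ≤ A.rank + B.rank := by
  unfold Matrix.rank
  rw [Matrix.mulVecLin_add]
  refine (Submodule.finrank_mono (LinearMap.range_add_le _ _)).trans ?_
  exact Submodule.finrank_add_le_finrank_add_finrank _ _

theorem Sml.mono {ε δ : ℝ} {u : MS K X} (h : ε ≤ δ) (hu : Sml ε u) : Sml δ u := by
  filter_upwards [hu] with i hi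
  exact hi.trans (mul_le_mul_of_nonneg_right h (Nat.cast_nonneg _))

theorem Sml.zero : Sml 0 (0 : MS K X) := by
  refine Eventually.of_forall fun i => ?_
  rw [Pi.zero_apply, Matrix.rank_zero, zero_mul, Nat.cast_zero]

theorem Sml.add {ε δ : ℝ} {u v : MS K X} (hu : Sml ε u) (hv : Sml δ v) : Sml (ε + δ) (u + v) := by
  filter_upwards [hu, hv] with i hi hj
  have h1 : (((u + v) i).rank : ℝ) ≤ ((u i).rank : ℝ) + ((v i).rank : ℝ) := by
    exact_mod_cast C0_rank_add (u i) (v i)
  rw [add_mul]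
  linarith

theorem Sml.mul_l {ε : ℝ} {u : MS K X} (v : MS K X) (hu : Sml ε u) : Sml ε (v * u) := by
  filter_upwards [hu] with i hi
  refine le_trans ?_ hi
  exact_mod_cast Matrix.rank_mul_le_right (v i) (u i)

theorem Sml.mul_r {ε : ℝ} {u : MS K X} (v : MS K X) (hu : Sml ε u) : Sml ε (u * v) := by
  filter_upwards [hu] with i hi
  refine le_trans ?_ hi
  exact_mod_cast Matrix.rank_mul_le_left (u i) (v i)

theorem Sml.neg {ε : ℝ} {u : MS K X} (hu : Sml ε u) : Sml ε (-u) := by
  have h := Sml.mul_l (-1) hu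
  rwa [neg_one_mul] at h

/-- small up to a null sequence: slightly larger size -/
theorem Sml.of_null {ε δ : ℝ} {u v : MS K X} (h : ε < δ) (hu : Sml ε u) (hn : Null (v - u)) : Sml δ v := by
  have h1 := Sml.add hu (hn (δ - ε) (sub_pos.2 h))
  rwa [add_sub_cancel, add_sub_cancel] at h1

theorem not_sml_one [∀ i, Nonempty (X i)] : ¬ Sml (1 / 2) (1 : MS K X) := by
  intro h
  obtain ⟨i, hi⟩ := h.exists
  rw [Pi.one_apply, Matrix.rank_one] at hi
  have h1 : (0 : ℝ) < (Fintype.card (X i) : ℝ) := by exact_mod_cast Fintype.card_pos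
  linarith

end RFC
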