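import Pool.Agent.Lib.MP_83fbc5_gt.RFC.C0

/-!
# RFC, module C1: the ring of sequences of matrices modulo null sequences

PROOF. The null sequences form a two-sided ideal (`Sml.zero`, `Sml.add` with `ε / 2`, `Sml.neg`, `Sml.mul_l`, `Sml.mul_r`); `U` is the
quotient (`RingCon.Quotient`), `π` the quotient map. (As in B1.)
(15-20 minutes)
-/

set_option autoImplicit false

namespace RFC

universe w

theorem exists_UU (K : Type w) [Field K] (X : ℕ → Type) [∀ i, Fintype (X i)] [∀ i, DecidableEq (X i)] :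
    ∃ (U : Type w) (_ : Ring U) (π : MS K X →+* U), Function.Surjective π ∧ ∀ u : MS K X, π u = 0 ↔ Null u := by
  let I : TwoSidedIdeal (MS K X) := TwoSidedIdeal.mk' {u | Null u}
    (fun ε hε => Sml.zero.mono hε.le)
    (fun {u v} hu hv ε hε => by
      have := (hu (ε / 2) (by linarith)).add (hv (ε / 2) (by linarith))
      rwa [add_halves] at this)
    (fun {u} hu ε hε => (hu ε hε).neg)
    (fun {u v} hv ε hε => (hv ε hε).mul_l u)
    (fun {u v} hu ε hε => (hu ε hε).mul_r v)
  refine ⟨I.ringCon.Quotient, inferInstance, I.ringCon.mk', I.ringCon.mk'_surjective, fun u => ?_⟩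
  have h1 : I.ringCon.mk' u = 0 ↔ u ∈ I := by
    rw [TwoSidedIdeal.mem_iff, ← RingCon.eq]
    rfl
  rw [h1]
  exact TwoSidedIdeal.mem_mk' _ _ _ _ _ _ u

end RFC
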