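import Pool.Agent.Lib.MP_83fbc5_gt.RFC.C0

/-!
# RFC, module C2: generalised inverses of matrices over a field

PROOF. For the linear map `f = M.mulVecLin` on `V = X → K` choose a complement `W` of `ker f` and a complement `W'` of `range f`
(`Submodule.exists_isCompl`), `f : W ≃ range f`, and let `g = (f|W)⁻¹` on `range f`, `0` on `W'`. Then `f g f = f`: `f g` is the projection
to `range f` along `W'`, so `1 - f g` has range `W'`, of dimension `card - rank f`; `g f` is the projection to `W` along `ker f`, so `1 - g f` has
range `ker f`, of dimension `card - rank f`. (`LinearMap.exists_leftInverse_of_injective` and `exists_rightInverse_of_surjective` may be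
convenient: any `g` with `f g f = f` works, because then `range (1 - f g) ⊓ range f = ⊥` (`x = (1 - fg) y = f z` gives
`f g x = x` and `f g x = 0`) and `range (1 - g f) ≤ ker f`.) `Matrix.toLin'`, `LinearMap.toMatrix'`.
(25-35 minutes)
-/

set_option autoImplicit false

namespace RFC

universe w

theorem exists_ginv {K : Type w} [Field K] {X : Type} [Fintype X] [DecidableEq X] (M : Matrix X X K) :
    ∃ B : Matrix X X K, (1 - M * B).rank + M.rank ≤ Fintype.card X ∧ (1 - B * M).rank + M.rank ≤ Fintype.card X := by
  classical
  let f : (X → K) →ₗ[K] (X → K) := Matrix.toLin' M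
  obtain ⟨s, hs⟩ := f.rangeRestrict.exists_rightInverse_of_surjective
    (LinearMap.range_eq_top.2 (LinearMap.surjective_rangeRestrict f))
  obtain ⟨p, hp⟩ := (LinearMap.range f).subtype.exists_leftInverse_of_injective (Submodule.ker_subtype _)
  let g : (X → K) →ₗ[K] (X → K) := s.comp p
  have hfgf : ∀ v, f (g (f v)) = f v := by
    intro v
    have h1 : p (f v) = ⟨f v, LinearMap.mem_range_self f v⟩ := by
      have := LinearMap.congr_fun hp ⟨f v, LinearMap.mem_range_self f v⟩
      simpa using this
    have h2 : f.rangeRestrict (s (p (f v))) = p (f v) := LinearMap.congr_fun hs (p (f v))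
    have h3 : f (s (p (f v))) = (p (f v) : X → K) := congrArg Subtype.val h2
    show f (s (p (f v))) = f v
    rw [h3, h1]
  have hr : ∀ A : Matrix X X K, A.rank = Module.finrank K (LinearMap.range (Matrix.toLin' A)) := fun A => rfl
  have hB : Matrix.toLin' (LinearMap.toMatrix' g) = g := Matrix.toLin'_toMatrix' g
  refine ⟨LinearMap.toMatrix' g, ?_, ?_⟩
  · rw [hr, hr]
    have e1 : Matrix.toLin' (1 - M * LinearMap.toMatrix' g) = LinearMap.id - f.comp g := by
      rw [map_sub, Matrix.toLin'_one, Matrix.toLin'_mul, hB]
    rw [e1]
    have hd : LinearMap.range (LinearMap.id - f.comp g) ⊓ LinearMap.range f = ⊥ := by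
      rw [eq_bot_iff]
      rintro x ⟨⟨y, hy⟩, ⟨z, hz⟩⟩
      have h1 : f (g x) = x := by rw [← hz, hfgf]
      have h2 : f (g x) = 0 := by
        rw [← hy]
        simp only [LinearMap.sub_apply, LinearMap.id_apply, LinearMap.comp_apply, map_sub]
        rw [hfgf, sub_self]
      rw [Submodule.mem_bot, ← h1, h2]
    have := Submodule.finrank_sup_add_finrank_inf_eq (LinearMap.range (LinearMap.id - f.comp g)) (LinearMap.range f)
    rw [hd, finrank_bot, add_zero] at this
    calc _ = Module.finrank K ↥(LinearMap.range (LinearMap.id - f.comp g) ⊔ LinearMap.range f) := this.symm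
      _ ≤ Module.finrank K (X → K) := Submodule.finrank_le _
      _ = Fintype.card X := Module.finrank_fintype_fun_eq_card K
  · rw [hr, hr]
    have e1 : Matrix.toLin' (1 - LinearMap.toMatrix' g * M) = LinearMap.id - g.comp f := by
      rw [map_sub, Matrix.toLin'_one, Matrix.toLin'_mul, hB]
    rw [e1]
    have hd : LinearMap.range (LinearMap.id - g.comp f) ≤ LinearMap.ker f := by
      rintro x ⟨y, hy⟩
      rw [LinearMap.mem_ker, ← hy]
      simp only [LinearMap.sub_apply, LinearMap.id_apply, LinearMap.comp_apply, map_sub]
      rw [hfgf, sub_self]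
    have h2 := LinearMap.finrank_range_add_finrank_ker f
    have h3 := Submodule.finrank_mono hd
    rw [Module.finrank_fintype_fun_eq_card K] at h2
    have h4 : LinearMap.range (Matrix.toLin' M) = LinearMap.range f := rfl
    rw [h4]
    omega

end RFC
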