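import Pool.Agent.Lib.MP_83fbc5_gt.RFC.C1
import Pool.Agent.Lib.MP_83fbc5_gt.RFC.C2

/-!
# RFC, module C3: the size on the ring of sequences modulo null sequences

PROOF. `Sm ε u := ∃ M, π M = u ∧ Sml ε M`. `mono, zero, add, mul_l, mul_r` from C0 and surjectivity of `π` (for `mul_l v` choose `N` with
`π N = v`). `faithful`: `u = π M0`; for `ε > 0` there is `M` with `π M = π M0`, `Sml (ε / 2) M`, so `M0 - M` is null and `Sml ε M0`
(`Sml.of_null`); hence `M0` is null and `u = 0`. `unit`: `u = π M`; for each `ε > 0` there is `N` with `Sml ε (1 - M * N)` (`Sml.of_null`, with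
`ε / 2`), so `rank (M i) ≥ rank (M i * N i) ≥ card - ε card` eventually (`rank 1 ≤ rank (M N) + rank (1 - M N)`). Take `B i` from
`exists_ginv (M i)`: `rank (1 - M i * B i) ≤ card - rank (M i) ≤ ε card` eventually, the same for `1 - B i * M i`. So `1 - M * B` and `1 - B * M`
are null and `π B` is a two-sided inverse.
(30 minutes)
-/

set_option autoImplicit false

namespace RFC

universe w

private theorem rank_add_le_c3 {K : Type w} [Field K] {P Q : Type} [Fintype P] [Fintype Q] (A B : Matrix P Q K) :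
    (A + B).rank ≤ A.rank + B.rank := by
  have h : LinearMap.range (A + B).mulVecLin ≤ LinearMap.range A.mulVecLin ⊔ LinearMap.range B.mulVecLin := by
    rintro x ⟨y, rfl⟩
    rw [Matrix.mulVecLin_add, LinearMap.add_apply]
    exact Submodule.add_mem_sup (LinearMap.mem_range_self _ y) (LinearMap.mem_range_self _ y)
  exact le_trans (Submodule.finrank_mono h) (Submodule.finrank_add_le_finrank_add_finrank _ _)

theorem exists_size {K : Type w} [Field K] {X : ℕ → Type} [∀ i, Fintype (X i)] [∀ i, DecidableEq (X i)] {U : Type w} [Ring U]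
    (π : MS K X →+* U) (hs : Function.Surjective π) (hπ : ∀ u : MS K X, π u = 0 ↔ Null u) :
    ∃ Z : Size U, ∀ (ε : ℝ) (M : MS K X), Sml ε M → Z.Sm ε (π M) := by
  classical
  have hnull : ∀ M N : MS K X, π M = π N → Null (M - N) := by
    intro M N h
    rw [← hπ, map_sub, h, sub_self]
  refine ⟨{
    Sm := fun ε u => ∃ M : MS K X, π M = u ∧ Sml ε M
    mono := ?_
    zero := ?_
    add := ?_
    mul_l := ?_
    mul_r := ?_
    faithful := ?_
    unit := ?_ }, fun ε M hM => ⟨M, rfl, hM⟩⟩
  · rintro ε δ u h ⟨M, hM, hM2⟩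
    exact ⟨M, hM, hM2.mono h⟩
  · exact ⟨0, map_zero π, Sml.zero⟩
  · rintro ε δ u v ⟨M, hM, hM2⟩ ⟨N, hN, hN2⟩
    exact ⟨M + N, by rw [map_add, hM, hN], hM2.add hN2⟩
  · rintro ε u v ⟨M, hM, hM2⟩
    obtain ⟨N, hN⟩ := hs v
    exact ⟨N * M, by rw [map_mul, hM, hN], hM2.mul_l N⟩
  · rintro ε u v ⟨M, hM, hM2⟩
    obtain ⟨N, hN⟩ := hs v
    exact ⟨M * N, by rw [map_mul, hM, hN], hM2.mul_r N⟩
  · intro u hu
    obtain ⟨M0, hM0⟩ := hs u
    rw [← hM0, hπ]
    intro ε hε
    obtain ⟨M, hM, hM2⟩ := hu (ε / 2) (by linarith)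
    exact hM2.of_null (by linarith) (hnull M0 M (by rw [hM, hM0]))
  · intro u hu
    obtain ⟨M, hM⟩ := hs u
    -- the rank of `M` is eventually at least `(1 - ε) card`
    have hrank : ∀ ε : ℝ, 0 < ε → ∀ᶠ i in Filter.atTop,
        (Fintype.card (X i) : ℝ) - ((M i).rank : ℝ) ≤ ε * (Fintype.card (X i) : ℝ) := by
      intro ε hε
      obtain ⟨v, N', hN', hN2⟩ := hu (ε / 2) (by linarith)
      obtain ⟨N, hN⟩ := hs v
      have h1 : Sml ε (1 - M * N) := by
        refine hN2.of_null (by linarith) (hnull _ _ ?_)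
        rw [hN', map_sub, map_one, map_mul, hM, hN]
      refine Filter.Eventually.mono h1 fun i hi => ?_
      have h2 : (1 : Matrix (X i) (X i) K).rank ≤ (M i).rank + ((1 - M * N : MS K X) i).rank := by
        have h3 : (1 : Matrix (X i) (X i) K) = M i * N i + (1 - M * N : MS K X) i := by
          show (1 : Matrix (X i) (X i) K) = M i * N i + (1 - M i * N i)
          rw [add_sub_cancel]
        calc (1 : Matrix (X i) (X i) K).rank = (M i * N i + (1 - M * N : MS K X) i).rank := by rw [← h3]
          _ ≤ (M i * N i).rank + ((1 - M * N : MS K X) i).rank := rank_add_le_c3 _ _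
          _ ≤ (M i).rank + ((1 - M * N : MS K X) i).rank := Nat.add_le_add_right (Matrix.rank_mul_le_left _ _) _
      rw [Matrix.rank_one] at h2
      have h4 : (Fintype.card (X i) : ℝ) ≤ ((M i).rank : ℝ) + (((1 - M * N : MS K X) i).rank : ℝ) := by exact_mod_cast h2
      linarith
    choose B hB1 hB2 using fun i => exists_ginv (M i)
    have hL : Null (1 - M * B : MS K X) := by
      intro ε hε
      refine (hrank ε hε).mono fun i hi => ?_
      have h5 : ((1 - M * B : MS K X) i) = 1 - M i * B i := rfl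
      rw [h5]
      have h6 : ((1 - M i * B i).rank : ℝ) + ((M i).rank : ℝ) ≤ (Fintype.card (X i) : ℝ) := by exact_mod_cast hB1 i
      linarith
    have hR : Null (1 - B * M : MS K X) := by
      intro ε hε
      refine (hrank ε hε).mono fun i hi => ?_
      have h5 : ((1 - B * M : MS K X) i) = 1 - B i * M i := rfl
      rw [h5]
      have h6 : ((1 - B i * M i).rank : ℝ) + ((M i).rank : ℝ) ≤ (Fintype.card (X i) : ℝ) := by exact_mod_cast hB2 i
      linarith
    have e1 : π M * π B = 1 := by
      have := (hπ _).2 hL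
      rw [map_sub, map_one, map_mul, sub_eq_zero] at this
      exact this.symm
    have e2 : π B * π M = 1 := by
      have := (hπ _).2 hR
      rw [map_sub, map_one, map_mul, sub_eq_zero] at this
      exact this.symm
    rw [← hM]
    exact ⟨⟨π M, π B, e1, e2⟩, rfl⟩

end RFC
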