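import Pool.Agent.Lib.MP_83fbc5_gt.RFC.CDefs

/-!
# RFC, module C4: degree functions

PROOF. Let `x ~ y` iff `∃ s, σ s x = y` (an equivalence relation). For each `x` choose a representative `b x` of its class (`Quotient.out`) and
`s x : S` with `σ (s x) (b x) = x`; `deg x := (toAdd (φ (s x)) : ZMod m)`. For `s : S`: `b (σ s x) = b x`, and
`(s (σ s x))⁻¹ * (s * s x)` fixes `b x`, so its `φ`-value is divisible by `m`: `deg (σ s x) = φ s + deg x` in `ZMod m`
(`ZMod.intCast_zmod_eq_zero_iff_dvd` or `ZMod.intCast_eq_intCast_iff_dvd_sub`).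
(20-30 minutes)
-/

set_option autoImplicit false

namespace RFC

/-- the orbit relation -/
private def orel {S X : Type} [Group S] (σ : S →* Equiv.Perm X) : Setoid X where
  r x y := ∃ s : S, σ s x = y
  iseqv := ⟨fun x => ⟨1, by simp⟩, fun {x y} ⟨s, hs⟩ => ⟨s⁻¹, by rw [← hs, ← Equiv.Perm.mul_apply, ← map_mul]; simp⟩,
    fun {x y z} ⟨s, hs⟩ ⟨t, ht⟩ => ⟨t * s, by rw [map_mul, Equiv.Perm.mul_apply, hs, ht]⟩⟩

theorem exists_deg {S X : Type} [Group S] (σ : S →* Equiv.Perm X) (φ : S →* Multiplicative ℤ) (m : ℕ)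
    (h : ∀ (x : X) (s : S), σ s x = x → (m : ℤ) ∣ Multiplicative.toAdd (φ s)) :
    ∃ deg : X → ZMod m, ∀ (s : S) (x : X), deg (σ s x) = deg x + ((Multiplicative.toAdd (φ s) : ℤ) : ZMod m) := by
  classical
  let _ := orel σ
  let b : X → X := fun x => (Quotient.mk (orel σ) x).out
  have hb : ∀ x, ∃ s : S, σ s (b x) = x := fun x => Quotient.mk_out (s := orel σ) x
  choose t ht using hb
  have hb2 : ∀ (s : S) (x : X), b (σ s x) = b x := by
    intro s x
    have : (Quotient.mk (orel σ) (σ s x)) = Quotient.mk (orel σ) x := by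
      apply Quotient.sound
      exact ⟨s⁻¹, by rw [← Equiv.Perm.mul_apply, ← map_mul]; simp⟩
    simp only [b, this]
  refine ⟨fun x => ((Multiplicative.toAdd (φ (t x)) : ℤ) : ZMod m), fun s x => ?_⟩
  have h1 := h (b x) ((t (σ s x))⁻¹ * (s * t x)) (by
    rw [map_mul, map_mul, Equiv.Perm.mul_apply, Equiv.Perm.mul_apply, ht x, map_inv, Equiv.Perm.inv_eq_iff_eq, ← hb2 s x]
    exact (ht (σ s x)).symm)
  rw [map_mul φ, map_mul φ, map_inv φ, toAdd_mul, toAdd_mul, toAdd_inv] at h1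
  have h2 := (ZMod.intCast_zmod_eq_zero_iff_dvd _ m).2 h1
  push_cast at h2
  linear_combination -h2

end RFC
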