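import Pool.Agent.Lib.MP_83fbc5_gt.RFC.CDefs

/-!
# RFC, module C5: cutting along a degree function

`X` finite, `τ` a permutation with `deg (τ x) = deg x + 1`, `m > 0`; `T` the permutation matrix of `τ`; `Q` the diagonal matrix of
`{deg x ≠ -1}`.
PROOF. `cut_pow`: by induction over `j ≤ m`, `(c • (T * Q)) ^ j` applied to `e_y` is `0` or a multiple of `e_(τ^j y)`, and it is `0` if one of
`deg y, ..., deg y + j - 1` is `-1`; for `j = m` one of `deg y + l`, `l < m`, is `-1`. Entrywise formulation: if the entry `(x, y)` of
`(c • (T * Q)) ^ j` is not `0` then `deg y + l ≠ -1` for all `l < j` (`pow_succ`, `Matrix.mul_apply`: the entry `(z, y)` of `T * Q` is nonzero only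
if `z = τ y` and `deg y ≠ -1`). For `j = m` take `l < m` with `l = -1 - deg y` in `ZMod m` (`ZMod.val`, `ZMod.natCast_zmod_val`,
`ZMod.val_lt`; `NeZero m`).
`cut_rank`: `1 - Q` is the diagonal matrix of `{deg x = -1}`, its rank is the number of such `x` (`Matrix.rank_diagonal`). `τ` gives bijections
between the sets `{deg = a}` and `{deg = a + 1}`, so all `m` fibres have the same number of elements and `m * #{deg = -1} = card X`
(`Finset.card_eq_sum_card_fiberwise`, `ZMod.card`).
`cut_comm`: the permutation matrix of `γ` with `deg (γ x) = deg x` commutes with the diagonal matrix `Q` (entrywise).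
(40-50 minutes; may be split)
-/

set_option autoImplicit false

namespace RFC

universe w

variable {K : Type w} [Field K] {X : Type} [Fintype X] [DecidableEq X] {m : ℕ}

/-- the permutation matrix of a permutation -/
def pmx (K : Type w) [Field K] (τ : Equiv.Perm X) : Matrix X X K := Matrix.of fun x y => if x = τ y then 1 else 0

/-- the diagonal matrix of `{deg x ≠ -1}` -/
noncomputable def cut (K : Type w) [Field K] (deg : X → ZMod m) : Matrix X X K :=
  Matrix.diagonal fun x => if deg x = -1 then 0 else 1

private theorem C5_entry (deg : X → ZMod m) (τ : Equiv.Perm X) (c : K) (z y : X) :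
    ((c • pmx K τ) * cut K deg) z y = (c * if z = τ y then 1 else 0) * (if deg y = -1 then 0 else 1) := by
  unfold cut
  rw [Matrix.mul_diagonal]
  simp only [pmx, Matrix.smul_apply, Matrix.of_apply, smul_eq_mul]

private theorem C5_ne (deg : X → ZMod m) (τ : Equiv.Perm X) (h : ∀ x, deg (τ x) = deg x + 1) (c : K) (j : ℕ) :
    ∀ x y : X, (((c • pmx K τ) * cut K deg) ^ j) x y ≠ 0 → ∀ l < j, deg y + (l : ZMod m) ≠ -1 := by
  induction j with
  | zero => intro x y _ l hl; exact absurd hl (Nat.not_lt_zero l)
  | succ j ih =>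
    intro x y hne l hl
    rw [pow_succ, Matrix.mul_apply] at hne
    obtain ⟨z, -, hz⟩ := Finset.exists_ne_zero_of_sum_ne_zero hne
    have h1 := left_ne_zero_of_mul hz
    have h2 := right_ne_zero_of_mul hz
    rw [C5_entry] at h2
    have h3 := left_ne_zero_of_mul h2
    have h4 := right_ne_zero_of_mul h2
    have h5 := right_ne_zero_of_mul h3
    have hzy : z = τ y := by
      by_contra hc
      exact h5 (if_neg hc)
    have hdy : deg y ≠ -1 := by
      intro hc
      exact h4 (if_pos hc)
    rcases l with _ | l
    · simpa using hdy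
    · have h6 := ih x z h1 l (Nat.lt_of_succ_lt_succ hl)
      rw [hzy, h] at h6
      intro hc
      apply h6
      rw [← hc]
      push_cast
      ring

theorem cut_pow (hm : 0 < m) (deg : X → ZMod m) (τ : Equiv.Perm X) (h : ∀ x, deg (τ x) = deg x + 1) (c : K) :
    ((c • pmx K τ) * cut K deg) ^ m = 0 := by
  have : NeZero m := ⟨hm.ne'⟩
  ext x y
  by_contra hne
  refine C5_ne deg τ h c m x y hne (-1 - deg y).val (ZMod.val_lt _) ?_
  rw [ZMod.natCast_zmod_val]
  ring

theorem cut_rank (hm : 0 < m) (deg : X → ZMod m) (τ : Equiv.Perm X) (h : ∀ x, deg (τ x) = deg x + 1) :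
    m * (1 - cut K deg).rank = Fintype.card X := by
  have : NeZero m := ⟨hm.ne'⟩
  have e1 : (1 : Matrix X X K) - cut K deg = Matrix.diagonal fun x => if deg x = -1 then 1 else 0 := by
    ext x y
    unfold cut
    rw [Matrix.sub_apply, Matrix.one_apply, Matrix.diagonal_apply, Matrix.diagonal_apply]
    by_cases hxy : x = y
    · by_cases hd : deg x = -1 <;> simp [hxy, hd] <;> simp [← hxy, hd]
    · simp [hxy]
  set N : ZMod m → ℕ := fun a => (Finset.univ.filter fun x : X => deg x = a).card with hN
  have e2 : (1 - cut K deg).rank = N (-1) := by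
    classical
    rw [e1, Matrix.rank_diagonal, Fintype.card_subtype, hN]
    congr 1
    ext x
    simp only [Finset.mem_filter, Finset.mem_univ, true_and]
    by_cases hd : deg x = -1 <;> simp [hd]
  have e3 : ∀ a, N (a + 1) = N a := by
    intro a
    refine (Finset.card_bij (fun x _ => τ x) ?_ ?_ ?_).symm
    · intro x hx
      simp only [Finset.mem_filter, Finset.mem_univ, true_and] at hx ⊢
      rw [h, hx]
    · intro x _ y _ hxy
      exact τ.injective hxy
    · intro y hy
      simp only [Finset.mem_filter, Finset.mem_univ, true_and] at hy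
      refine ⟨τ.symm y, ?_, by simp⟩
      simp only [Finset.mem_filter, Finset.mem_univ, true_and]
      have h1 := h (τ.symm y)
      rw [Equiv.apply_symm_apply, hy] at h1
      exact (add_right_cancel h1).symm
  have e4 : ∀ k : ℕ, N (k : ZMod m) = N 0 := by
    intro k
    induction k with
    | zero => simp
    | succ k ih => rw [Nat.cast_succ, e3, ih]
  have e5 : ∀ a, N a = N 0 := by
    intro a
    rw [← ZMod.natCast_zmod_val a]
    exact e4 _
  have e6 : Fintype.card X = ∑ a : ZMod m, N a := by
    rw [← Finset.card_univ, hN]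
    exact Finset.card_eq_sum_card_fiberwise fun x _ => Finset.mem_coe.2 (Finset.mem_univ _)
  rw [e2, e6, Finset.sum_congr rfl fun a _ => e5 a, Finset.sum_const, Finset.card_univ, ZMod.card, e5 (-1), smul_eq_mul]

theorem cut_comm (deg : X → ZMod m) (γ : Equiv.Perm X) (h : ∀ x, deg (γ x) = deg x) (c : K) :
    cut K deg * (c • pmx K γ) = (c • pmx K γ) * cut K deg := by
  ext x y
  unfold cut
  rw [Matrix.mul_diagonal, Matrix.diagonal_mul]
  simp only [pmx, Matrix.smul_apply, Matrix.of_apply, smul_eq_mul]
  by_cases hxy : x = γ y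
  · rw [hxy, h, mul_comm]
  · rw [if_neg hxy]
    simp

end RFC
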