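import Pool.Agent.Lib.MP_83fbc5_gt.RFC.C0
import Pool.Agent.Lib.MP_83fbc5_gt.RFC.C4
import Pool.Agent.Lib.MP_83fbc5_gt.RFC.C5

/-!
# RFC, module C7: the elements `q`

PROOF. For large `i` (those in `hφ`) let `deg i : X i → ZMod m` be the function of `exists_deg` for the action of `S` (compose `σ i` with
`S.subtype`), and `Q i := cut K (deg i)`; for the other `i` let `Q i := 0` (choice: `if h : ... then ... else 0`). `pm K (σ i) g = pmx K (σ i g)`
by definition. `cut_pow` with `τ = σ i t` (`deg (τ x) = deg x + 1` as `φ t = ofAdd 1`; `0 ^ m = 0` for the small `i`), `cut_rank`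
(`rank (1 - Q i) = card / m` for large `i`), `cut_comm` (`φ s = 1` gives `deg (s x) = deg x`; both sides `0` for small `i`).
(30 minutes)
-/

set_option autoImplicit false

namespace RFC

open Filter

universe w

theorem exists_q {K : Type w} [Field K] {X : ℕ → Type} [∀ i, Fintype (X i)] [∀ i, DecidableEq (X i)]
    {G : Type} [Group G] (σ : ∀ i, G →* Equiv.Perm (X i)) (S : Subgroup G) (φ : S →* Multiplicative ℤ) (m : ℕ) (hm : 0 < m)
    (hφ : ∀ᶠ i in atTop, ∀ (x : X i) (s : S), σ i s x = x → (m : ℤ) ∣ Multiplicative.toAdd (φ s))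
    (t : S) (ht : φ t = Multiplicative.ofAdd 1) (c : K) :
    ∃ Q : MS K X, ((fun i => c • pm K (σ i) t) * Q) ^ m = 0 ∧ Sml (1 / (m : ℝ)) (1 - Q) ∧
      ∀ (k : K) (s : S), φ s = 1 → Q * (fun i => k • pm K (σ i) s) = (fun i => k • pm K (σ i) s) * Q := by
  classical
  have key : ∀ i, ∃ Qi : Matrix (X i) (X i) K, ((c • pm K (σ i) t) * Qi) ^ m = 0 ∧
      ((∀ (x : X i) (s : S), σ i s x = x → (m : ℤ) ∣ Multiplicative.toAdd (φ s)) →
        m * (1 - Qi).rank = Fintype.card (X i)) ∧
      ∀ (k : K) (s : S), φ s = 1 → Qi * (k • pm K (σ i) s) = (k • pm K (σ i) s) * Qi := by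
    intro i
    by_cases h : ∀ (x : X i) (s : S), σ i s x = x → (m : ℤ) ∣ Multiplicative.toAdd (φ s)
    · obtain ⟨deg, hdeg⟩ := exists_deg ((σ i).comp S.subtype) φ m h
      have ht1 : ∀ x, deg (σ i t x) = deg x + 1 := by
        intro x
        have := hdeg t x
        rw [ht] at this
        simpa using this
      have hs1 : ∀ s : S, φ s = 1 → ∀ x, deg (σ i s x) = deg x := by
        intro s hs x
        have := hdeg s x
        rw [hs] at this
        simpa using this
      exact ⟨cut K deg, cut_pow hm deg (σ i t) ht1 c, fun _ => cut_rank hm deg (σ i t) ht1,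
        fun k s hs => cut_comm deg (σ i s) (hs1 s hs) k⟩
    · exact ⟨0, by rw [mul_zero, zero_pow hm.ne'], fun h' => absurd h' h, fun k s _ => by rw [zero_mul, mul_zero]⟩
  choose Q hQ1 hQ2 hQ3 using key
  refine ⟨Q, funext fun i => hQ1 i, ?_, fun k s hs => funext fun i => hQ3 i k s hs⟩
  refine hφ.mono fun i hi => ?_
  have h1 := hQ2 i hi
  have h2 : (m : ℝ) * ((1 - Q i).rank : ℝ) = (Fintype.card (X i) : ℝ) := by exact_mod_cast h1
  have h3 : (0 : ℝ) < m := by exact_mod_cast hm
  have h4 : ((1 - Q : MS K X) i) = 1 - Q i := rfl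
  rw [h4, ← h2, ← mul_assoc, one_div, inv_mul_cancel₀ h3.ne', one_mul]

end RFC
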