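import Pool.Agent.Lib.MP_83fbc5_gt.RFC.B3
import Pool.Agent.Lib.MP_83fbc5_gt.RFC.C3
import Pool.Agent.Lib.MP_83fbc5_gt.RFC.C7

/-!
# RFC, module C8: finitely generated subgroups which are not central are good

PROOF. Let `pr = MonoidHom.snd Kˣ G`, `S1 = S.map pr`, finitely generated (`Subgroup.FG.map`) and nontrivial. `Rich` gives `φ1 : S1 → ℤ` and,
for each `k : ℕ`, some `m k > k`. `φ := φ1 ∘ (S → S1)`; surjective; choose `t0 : S` with `φ t0 = ofAdd 1`. `exists_q` for `S1`, `φ1`, `m k`, the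
image of `t0`, `c = t0.1` gives `Q k`; put `q k := π (Q k)`, `t := ρ t0`, and apply `ext_of_tower` with `Z` from `exists_size` and
`V = {v | ∃ ν : S, φ ν = 1 ∧ v = ρ ν}`: `t V t⁻¹ ⊆ V` because the kernel of `φ` is normal (`ρ` is a homomorphism).
`(t * q k) ^ m k = π ((..) ^ m k) = 0`, `Z.Sm (1 / m k) (1 - q k)`, and `q k` commutes with `V` by the last part of `exists_q`.
(45 minutes)
-/

set_option autoImplicit false

namespace RFC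

open Filter

universe w

theorem good_of_rich {K : Type w} [Field K] {X : ℕ → Type} [∀ i, Fintype (X i)] [∀ i, DecidableEq (X i)] {U : Type w} [Ring U]
    (π : MS K X →+* U) (hs : Function.Surjective π) (hπ : ∀ u : MS K X, π u = 0 ↔ Null u) {G : Type} [Group G]
    (σ : ∀ i, G →* Equiv.Perm (X i)) (h : Rich σ) (ρ : Kˣ × G →* Uˣ)
    (hρ : ∀ (k : Kˣ) (g : G), (ρ (k, g) : U) = π (fun i => (k : K) • pm K (σ i) g))
    (S : Subgroup (Kˣ × G)) (hS : S.FG) (hS' : ¬ S ≤ (MonoidHom.snd Kˣ G).ker) : Nonempty (Good ρ S) := by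
  classical
  obtain ⟨Z, hZ⟩ := exists_size π hs hπ
  have hne : S.map (MonoidHom.snd Kˣ G) ≠ ⊥ := by
    intro hb
    apply hS'
    intro x hx
    have : MonoidHom.snd Kˣ G x ∈ S.map (MonoidHom.snd Kˣ G) := Subgroup.mem_map_of_mem _ hx
    rw [hb, Subgroup.mem_bot] at this
    exact this
  have hfg : (S.map (MonoidHom.snd Kˣ G)).FG := by
    obtain ⟨T, hT⟩ := hS
    refine (Subgroup.fg_iff _).2 ⟨MonoidHom.snd Kˣ G '' (T : Set (Kˣ × G)), ?_, T.finite_toSet.image _⟩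
    rw [← MonoidHom.map_closure, hT]
  obtain ⟨φ1, hφ1, hm⟩ := h (S.map (MonoidHom.snd Kˣ G)) hfg hne
  let pr : S →* S.map (MonoidHom.snd Kˣ G) := (MonoidHom.snd Kˣ G).subgroupMap S
  have hpr : Function.Surjective pr := MonoidHom.subgroupMap_surjective _ _
  have hprc : ∀ s : S, ((pr s : S.map (MonoidHom.snd Kˣ G)) : G) = (s : Kˣ × G).2 := fun s => rfl
  let φ : S →* Multiplicative ℤ := φ1.comp pr
  obtain ⟨t0, ht0⟩ := (hφ1.comp hpr) (Multiplicative.ofAdd 1)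
  choose m hm1 hm2 using hm
  have hq : ∀ k : ℕ, ∃ Q : MS K X, ((fun i => ((t0 : Kˣ × G).1 : K) • pm K (σ i) (pr t0 : G)) * Q) ^ m k = 0 ∧
      Sml (1 / (m k : ℝ)) (1 - Q) ∧ ∀ (c : K) (s : S.map (MonoidHom.snd Kˣ G)), φ1 s = 1 →
        Q * (fun i => c • pm K (σ i) (s : G)) = (fun i => c • pm K (σ i) (s : G)) * Q := fun k =>
    exists_q σ (S.map (MonoidHom.snd Kˣ G)) φ1 (m k) (lt_of_le_of_lt (Nat.zero_le _) (hm1 k)) (hm2 k) (pr t0) ht0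
      ((t0 : Kˣ × G).1 : K)
  choose Q hQ1 hQ2 hQ3 using hq
  have hρs : ∀ s : S, ((ρ (s : Kˣ × G) : Uˣ) : U) = π (fun i => ((s : Kˣ × G).1 : K) • pm K (σ i) (pr s : G)) := by
    intro s
    rw [← hρ]
    rfl
  have f1 : ∀ k, ((ρ (t0 : Kˣ × G) : U) * π (Q k)) ^ m k = 0 := by
    intro k
    rw [hρs, ← map_mul, ← map_pow, hQ1, map_zero]
  have f2 : ∀ k, Z.Sm (1 / (m k : ℝ)) (1 - π (Q k)) := by
    intro k
    have e : (1 : U) - π (Q k) = π (1 - Q k) := by rw [map_sub, map_one]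
    rw [e]
    exact hZ _ _ (hQ2 k)
  have f3 : ∀ v ∈ {v : U | ∃ ν : S, φ ν = 1 ∧ v = ((ρ (ν : Kˣ × G) : Uˣ) : U)}, ∀ k, π (Q k) * v = v * π (Q k) := by
    rintro v ⟨ν, hν, rfl⟩ k
    rw [hρs, ← map_mul, ← map_mul, hQ3 k _ (pr ν) hν]
  have f4 : ∀ v ∈ {v : U | ∃ ν : S, φ ν = 1 ∧ v = ((ρ (ν : Kˣ × G) : Uˣ) : U)},
      (ρ (t0 : Kˣ × G) : U) * v * (((ρ (t0 : Kˣ × G))⁻¹ : Uˣ) : U) ∈
        {v : U | ∃ ν : S, φ ν = 1 ∧ v = ((ρ (ν : Kˣ × G) : Uˣ) : U)} := by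
    rintro v ⟨ν, hν, rfl⟩
    refine ⟨t0 * ν * t0⁻¹, ?_, ?_⟩
    · rw [map_mul, map_mul, hν, mul_one, map_inv, mul_inv_cancel]
    · simp only [Subgroup.coe_mul, Subgroup.coe_inv, map_mul, map_inv, Units.val_mul]
  have f5 : ∀ v ∈ {v : U | ∃ ν : S, φ ν = 1 ∧ v = ((ρ (ν : Kˣ × G) : Uˣ) : U)},
      (((ρ (t0 : Kˣ × G))⁻¹ : Uˣ) : U) * v * (ρ (t0 : Kˣ × G) : U) ∈
        {v : U | ∃ ν : S, φ ν = 1 ∧ v = ((ρ (ν : Kˣ × G) : Uˣ) : U)} := by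
    rintro v ⟨ν, hν, rfl⟩
    refine ⟨t0⁻¹ * ν * t0, ?_, ?_⟩
    · rw [map_mul, map_mul, hν, mul_one, map_inv, inv_mul_cancel]
    · simp only [Subgroup.coe_mul, Subgroup.coe_inv, map_mul, map_inv, Units.val_mul]
  obtain ⟨d, hd, hV, ⟨E⟩⟩ := ext_of_tower Z (ρ (t0 : Kˣ × G)) m hm1 (fun k => π (Q k)) f1 f2 _ f3 f4 f5
  exact ⟨{ φ := φ, t0 := t0, ht0 := ht0, d := d, dt := hd, hC := fun ν hν => hV _ ⟨ν, hν, rfl⟩, E := E }⟩

end RFC
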