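import Pool.Agent.Lib.MP_83fbc5_gt.RFC.A8
import Pool.Agent.Lib.MP_83fbc5_gt.RFC.A9
import Pool.Agent.Lib.MP_83fbc5_gt.RFC.C6
import Pool.Agent.Lib.MP_83fbc5_gt.RFC.C8

/-!
# RFC, module C9: `K[G]` maps to a division ring in `U`

PROOF. `U, π` from `exists_UU`, `ρ, κ` from `exists_rho`; `U` is nontrivial because `1` is not null (`not_sml_one`). `zero_or_unit` with
`Z0 = (MonoidHom.snd Kˣ G).ker` (for `z = (k, 1)`: `ρ z = κ k`, `pm K σ 1 = 1`), `w0 = (-1, 1)`, and `good_of_rich`. `exists_division` gives the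
subring `D` of `U` in which every nonzero element has an inverse in `D`; it is a division ring (`DivisionRing.ofIsUnitOrEqZero`, or
by hand), `ι` the inclusion. For `a : MonoidAlgebra K G`: induction (`MonoidAlgebra.induction_on` or a sum of `single`s):
`rp K (σ i) (single g k) = k • pm K (σ i) g` is `0` or `ρ (k, g)` under `π`; sums by `add_mem`.
(30 minutes)
-/

set_option autoImplicit false

namespace RFC

universe w

theorem exists_div {K : Type w} [Field K] {X : ℕ → Type} [∀ i, Fintype (X i)] [∀ i, DecidableEq (X i)] [∀ i, Nonempty (X i)]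
    {G : Type} [Group G] (σ : ∀ i, G →* Equiv.Perm (X i)) (h : Rich σ) :
    ∃ (U : Type w) (_ : Ring U) (π : MS K X →+* U) (D : Type w) (_ : DivisionRing D) (ι : D →+* U),
      Function.Surjective π ∧ (∀ u : MS K X, π u = 0 ↔ Null u) ∧
      ∀ a : MonoidAlgebra K G, ∃ x : D, ι x = π (fun i => rp K (σ i) a) := by
  classical
  obtain ⟨U, _, π, hs, hπ⟩ := exists_UU K X
  obtain ⟨ρ, κ, hρ, hκ⟩ := exists_rho π σ
  have : Nontrivial U := by
    refine ⟨⟨1, 0, fun h10 => ?_⟩⟩
    have h1 : π (1 : MS K X) = 0 := by rw [map_one]; exact h10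
    exact not_sml_one ((hπ 1).1 h1 (1 / 2) (by norm_num))
  have hw : ((ρ ((-1 : Kˣ), (1 : G)) : Uˣ) : U) = -1 := by
    rw [hρ]
    have e : (fun i => ((-1 : Kˣ) : K) • pm K (σ i) (1 : G) : MS K X) = -1 := by
      funext i
      rw [map_one]
      simp
    rw [e, map_neg, map_one]
  have hPP : ∀ x, PP ρ x := by
    refine zero_or_unit ρ (MonoidHom.snd Kˣ G).ker κ ?_ ((-1 : Kˣ), (1 : G)) ?_ ?_ hw ?_
    · rintro ⟨k, g⟩ hz
      have hg : g = 1 := hz
      subst hg
      refine ⟨k, ?_⟩
      rw [hρ, hκ]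
      congr 1
      funext i
      rw [map_one]
    · rfl
    · ext <;> simp
    · intro S hS hS'
      exact good_of_rich π hs hπ σ h ρ hρ S hS hS'
  obtain ⟨D, hD1, hD2⟩ := exists_division ρ _ hw hPP
  have hunit : ∀ a : D, IsUnit a ∨ a = 0 := by
    intro a
    by_cases ha : a = 0
    · exact Or.inr ha
    · left
      obtain ⟨b, hb, h1, h2⟩ := hD2 a a.2 (fun h0 => ha (Subtype.ext h0))
      exact ⟨⟨a, ⟨b, hb⟩, Subtype.ext h1, Subtype.ext h2⟩, rfl⟩
  have hmem : ∀ a : MonoidAlgebra K G, π (fun i => rp K (σ i) a) ∈ D := by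
    intro a
    induction a using MonoidAlgebra.induction_on with
    | of g =>
      have e : (fun i => rp K (σ i) (MonoidAlgebra.of K G g) : MS K X) = fun i => ((1 : Kˣ) : K) • pm K (σ i) g := by
        funext i
        exact rp_single K (σ i) 1 g
      rw [e, ← hρ]
      exact hD1 _
    | add a b ha hb =>
      have e : (fun i => rp K (σ i) (a + b) : MS K X) = (fun i => rp K (σ i) a) + fun i => rp K (σ i) b := by
        funext i
        exact map_add _ _ _
      rw [e, map_add]
      exact add_mem ha hb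
    | smul k a ha =>
      have e : (fun i => rp K (σ i) (k • a) : MS K X) = (fun i => rp K (σ i) (MonoidAlgebra.single (1 : G) k)) *
          fun i => rp K (σ i) a := by
        funext i
        rw [Pi.mul_apply, rp_single, map_smul, map_one, smul_mul_assoc, one_mul]
      rw [e, map_mul]
      refine mul_mem ?_ ha
      by_cases hk : k = 0
      · subst hk
        have e0 : (fun i => rp K (σ i) (MonoidAlgebra.single (1 : G) 0) : MS K X) = 0 := by
          funext i
          rw [MonoidAlgebra.single_zero, map_zero]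
          rfl
        rw [e0, map_zero]
        exact zero_mem _
      · have e1 : (fun i => rp K (σ i) (MonoidAlgebra.single (1 : G) k) : MS K X) =
            fun i => ((Units.mk0 k hk : Kˣ) : K) • pm K (σ i) (1 : G) := by
          funext i
          exact rp_single K (σ i) k 1
        rw [e1, ← hρ]
        exact hD1 _
  exact ⟨U, _, π, D, DivisionRing.ofIsUnitOrEqZero hunit, D.subtype, hs, hπ, fun a => ⟨⟨_, hmem a⟩, rfl⟩⟩

end RFC
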