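import Pool.Agent.Lib.MP_83fbc5_gt.RFC.BDefs

/-!
# RFC: sequences of matrices, permutation matrices, rich sequences of finite sets

`σ i : G →* Equiv.Perm (X i)` is a sequence of actions of `G` on finite sets.
-/

set_option autoImplicit false

namespace RFC

open Matrix Filter

universe w

section

variable (K : Type w) [Field K]

/-- the permutation matrices: `e_y ↦ e_(g y)` -/
def pm {G X : Type} [Group G] [Fintype X] [DecidableEq X] (σ : G →* Equiv.Perm X) : G →* Matrix X X K where
  toFun g := Matrix.of fun x y => if x = σ g y then 1 else 0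
  map_one' := by
    ext x y
    simp [Matrix.one_apply]
  map_mul' g h := by
    ext x y
    simp [Matrix.mul_apply]

/-- the action of `K[G]` on `K[X]` -/
noncomputable def rp {G X : Type} [Group G] [Fintype X] [DecidableEq X] (σ : G →* Equiv.Perm X) :
    MonoidAlgebra K G →ₐ[K] Matrix X X K :=
  MonoidAlgebra.lift K (Matrix X X K) G (pm K σ)

end

/-- the block matrix with blocks `A a b` -/
def blk {K : Type w} {m n X Y : Type} (A : Matrix m n (Matrix X Y K)) : Matrix (m × X) (n × Y) K :=
  Matrix.of fun x y => A x.1 y.1 x.2 y.2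

section

variable (K : Type w) [Field K] (X : ℕ → Type) [∀ i, Fintype (X i)] [∀ i, DecidableEq (X i)]

/-- sequences of square matrices -/
abbrev MS : Type w := ∀ i, Matrix (X i) (X i) K

variable {K X}

/-- the rank is eventually at most `ε` times the size -/
def Sml (ε : ℝ) (u : MS K X) : Prop := ∀ᶠ i in atTop, ((u i).rank : ℝ) ≤ ε * (Fintype.card (X i) : ℝ)

/-- null sequences -/
def Null (u : MS K X) : Prop := ∀ ε : ℝ, 0 < ε → Sml ε u

end

/-- a rich sequence of actions: for every nontrivial finitely generated subgroup `S` there is a surjection `φ : S → ℤ` such that for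
infinitely many `m`, eventually all elements of `S` with a fixed point have `φ`-value divisible by `m` -/
def Rich {G : Type} [Group G] {X : ℕ → Type} (σ : ∀ i, G →* Equiv.Perm (X i)) : Prop :=
  ∀ S : Subgroup G, S.FG → S ≠ ⊥ → ∃ φ : S →* Multiplicative ℤ, Function.Surjective φ ∧
    ∀ n : ℕ, ∃ m : ℕ, n < m ∧ ∀ᶠ i in atTop, ∀ (x : X i) (s : S), σ i s x = x → (m : ℤ) ∣ Multiplicative.toAdd (φ s)

end RFC
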