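import Mathlib

/-!
# RFC, module D1: rank factorisation over a division ring

PROOF. Left vector spaces, row vectors: `A : Matrix m n D` gives the linear map `f : (m → D) → (n → D)`, `v ↦ v ᵥ* A`
(`Matrix.vecMulLinear`; `Matrix.toLinearMapRight'` is the linear equivalence between matrices and linear maps, valid over noncommutative
rings; if it is missing, evaluate linear maps at `Pi.single i 1`). Let `r = finrank (range f)` and choose a linear equivalence
`e : range f ≃ (Fin r → D)` (`Module.finBasis`). `C` = matrix of the injective map `(Fin r → D) ≃ range f → (n → D)`,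
`B` = matrix of the surjective map `e ∘ f : (m → D) → (Fin r → D)`; `A = B * C`. A left inverse of the injective map
(`LinearMap.exists_leftInverse_of_injective`) has a matrix `C'` with `C * C' = 1`; a right inverse of the surjective map
(`LinearMap.exists_rightInverse_of_surjective`) has a matrix `B'` with `B' * B = 1`. (In the row convention the matrix of a composition
`g ∘ f` is the product `(matrix of f) * (matrix of g)`.)
(30-45 minutes)
-/

set_option autoImplicit false

namespace RFC

universe w

private theorem toR_comp {D : Type w} [DivisionRing D] {l m n : Type} [Fintype l] [Fintype m] [Fintype n]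
    [DecidableEq l] [DecidableEq m] [DecidableEq n]
    (f : (l → D) →ₗ[D] (m → D)) (g : (m → D) →ₗ[D] (n → D)) :
    LinearMap.toMatrixRight' (g.comp f) = LinearMap.toMatrixRight' f * LinearMap.toMatrixRight' g := by
  apply Matrix.toLinearMapRight'.injective
  rw [Matrix.toLinearMapRight'_mul]
  have h1 : ∀ {a b : Type} [Fintype a] [Fintype b] [DecidableEq a] [DecidableEq b] (φ : (a → D) →ₗ[D] (b → D)),
      Matrix.toLinearMapRight' (LinearMap.toMatrixRight' φ) = φ := fun φ =>
    LinearMap.toMatrixRight'.symm_apply_apply φ
  rw [h1, h1, h1]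

private theorem toR_id {D : Type w} [DivisionRing D] {m : Type} [Fintype m] [DecidableEq m] :
    LinearMap.toMatrixRight' (LinearMap.id : (m → D) →ₗ[D] (m → D)) = 1 := by
  apply Matrix.toLinearMapRight'.injective
  rw [Matrix.toLinearMapRight'_one]
  exact LinearMap.toMatrixRight'.symm_apply_apply _

theorem rank_fact {D : Type w} [DivisionRing D] {m n : Type} [Fintype m] [Fintype n] [DecidableEq m] [DecidableEq n]
    (A : Matrix m n D) :
    ∃ (r : ℕ) (B : Matrix m (Fin r) D) (C : Matrix (Fin r) n D) (B' : Matrix (Fin r) m D) (C' : Matrix n (Fin r) D),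
      A = B * C ∧ B' * B = 1 ∧ C * C' = 1 := by
  classical
  let f : (m → D) →ₗ[D] (n → D) := Matrix.toLinearMapRight' A
  let r := Module.finrank D (LinearMap.range f)
  let e : LinearMap.range f ≃ₗ[D] (Fin r → D) := (Module.finBasis D (LinearMap.range f)).equivFun
  let g : (Fin r → D) →ₗ[D] (n → D) := (LinearMap.range f).subtype ∘ₗ e.symm.toLinearMap
  let h : (m → D) →ₗ[D] (Fin r → D) := e.toLinearMap ∘ₗ f.rangeRestrict
  have hgh : g.comp h = f := by
    ext v
    simp [g, h]
  have hgi : LinearMap.ker g = ⊥ := by
    rw [LinearMap.ker_eq_bot]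
    intro a b hab
    have : (e.symm a : n → D) = e.symm b := hab
    exact e.symm.injective (Subtype.ext this)
  have hhs : LinearMap.range h = ⊤ := by
    rw [LinearMap.range_eq_top]
    intro a
    obtain ⟨v, hv⟩ := LinearMap.surjective_rangeRestrict f (e.symm a)
    refine ⟨v, ?_⟩
    show e (f.rangeRestrict v) = a
    rw [hv, e.apply_symm_apply]
  obtain ⟨g', hg'⟩ := g.exists_leftInverse_of_injective hgi
  obtain ⟨h', hh'⟩ := h.exists_rightInverse_of_surjective hhs
  refine ⟨r, LinearMap.toMatrixRight' h, LinearMap.toMatrixRight' g, LinearMap.toMatrixRight' h',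
    LinearMap.toMatrixRight' g', ?_, ?_, ?_⟩
  · rw [← toR_comp, hgh]
    exact (LinearMap.toMatrixRight'.apply_symm_apply A).symm
  · rw [← toR_comp, hh', toR_id]
  · rw [← toR_comp, hg', toR_id]

end RFC
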