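import Pool.Agent.Lib.MP_83fbc5_gt.RFC.CDefs

/-!
# RFC, module D2: block matrices

PROOF. `blk_mul`: `Fintype.sum_prod_type`, `Matrix.mul_apply`, `Matrix.sum_apply`. `blk_one`: by cases. `blk_rank_le`:
`blk A = ∑ a, ∑ b, (block matrix with the only nonzero block A a b at (a, b))` and a matrix with one nonzero block `M` is a product
`E * M * E'` (`E` of size `(m × X) × X`), so its rank is at most `rank M`; subadditivity of the rank for finite sums.
(30-40 minutes)
-/

set_option autoImplicit false

namespace RFC

open Matrix

universe w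

variable {K : Type w} [Field K] {m n l X Y Z : Type}

theorem blk_add (A B : Matrix m n (Matrix X Y K)) : blk (A + B) = blk A + blk B := rfl

theorem blk_sub (A B : Matrix m n (Matrix X Y K)) : blk (A - B) = blk A - blk B := rfl

theorem blk_mul [Fintype n] [Fintype X] (A : Matrix m n (Matrix X X K)) (B : Matrix n l (Matrix X X K)) :
    blk (A * B) = blk A * blk B := by
  ext x y
  rw [Matrix.mul_apply, Fintype.sum_prod_type]
  show (A * B) x.1 y.1 x.2 y.2 = _
  rw [Matrix.mul_apply, Matrix.sum_apply]
  refine Finset.sum_congr rfl fun b _ => ?_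
  rw [Matrix.mul_apply]
  rfl

theorem blk_one [DecidableEq m] [Fintype X] [DecidableEq X] : blk (1 : Matrix m m (Matrix X X K)) = 1 := by
  ext x y
  show (1 : Matrix m m (Matrix X X K)) x.1 y.1 x.2 y.2 = _
  rw [Matrix.one_apply, Matrix.one_apply]
  by_cases h : x.1 = y.1
  · rw [if_pos h, Matrix.one_apply]
    by_cases h2 : x.2 = y.2
    · rw [if_pos h2, if_pos (Prod.ext h h2)]
    · rw [if_neg h2, if_neg (fun e => h2 (congrArg Prod.snd e))]
  · rw [if_neg h, if_neg (fun e => h (congrArg Prod.fst e))]
    rfl

private theorem rank_add_le_d2 {P Q : Type} [Fintype P] [Fintype Q] (A B : Matrix P Q K) :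
    (A + B).rank ≤ A.rank + B.rank := by
  have h : LinearMap.range (A + B).mulVecLin ≤ LinearMap.range A.mulVecLin ⊔ LinearMap.range B.mulVecLin := by
    rintro x ⟨y, rfl⟩
    rw [Matrix.mulVecLin_add, LinearMap.add_apply]
    exact Submodule.add_mem_sup (LinearMap.mem_range_self _ y) (LinearMap.mem_range_self _ y)
  exact le_trans (Submodule.finrank_mono h) (Submodule.finrank_add_le_finrank_add_finrank _ _)

private theorem rank_sum_le_d2 {ι P Q : Type} [Fintype P] [Fintype Q] (s : Finset ι) (f : ι → Matrix P Q K) :
    (∑ i ∈ s, f i).rank ≤ ∑ i ∈ s, (f i).rank := by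
  classical
  induction s using Finset.induction_on with
  | empty => simp
  | insert a s ha ih =>
    rw [Finset.sum_insert ha, Finset.sum_insert ha]
    exact le_trans (rank_add_le_d2 _ _) (Nat.add_le_add_left ih _)

theorem blk_rank_le [Fintype m] [Fintype n] [Fintype X] [Fintype Y] (A : Matrix m n (Matrix X Y K)) :
    (blk A).rank ≤ ∑ a, ∑ b, (A a b).rank := by
  classical
  let E : m → Matrix (m × X) X K := fun a => Matrix.of fun p x => if p = (a, x) then 1 else 0
  let F : n → Matrix Y (n × Y) K := fun b => Matrix.of fun y q => if q = (b, y) then 1 else 0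
  have hdec : blk A = ∑ a, ∑ b, E a * A a b * F b := by
    ext ⟨a, x⟩ ⟨b, y⟩
    have h1 : ∀ a' b', (E a' * A a' b' * F b') (a, x) (b, y) = if a = a' then (if b = b' then A a' b' x y else 0) else 0 := by
      intro a' b'
      simp only [Matrix.mul_apply, E, F, Matrix.of_apply, Prod.mk.injEq]
      by_cases ha : a = a'
      · by_cases hb : b = b'
        · simp [ha, hb]
        · simp [ha, hb]
      · simp [ha]
    rw [Matrix.sum_apply]
    simp only [Matrix.sum_apply, h1]
    simp [blk]
  rw [hdec]
  refine le_trans (rank_sum_le_d2 _ _) (Finset.sum_le_sum fun a _ => ?_)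
  refine le_trans (rank_sum_le_d2 _ _) (Finset.sum_le_sum fun b _ => ?_)
  exact le_trans (Matrix.rank_mul_le_left _ _) (Matrix.rank_mul_le_right _ _)

/-- the rank of a block matrix is at most the number of block columns times the size -/
theorem blk_rank_le_card [Fintype m] [Fintype n] [Fintype X] [Fintype Y] (A : Matrix m n (Matrix X Y K)) :
    (blk A).rank ≤ Fintype.card n * Fintype.card Y := by
  have := Matrix.rank_le_card_width (blk A)
  rwa [Fintype.card_prod] at this

end RFC
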