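import Pool.Agent.Lib.MP_83fbc5_gt.RFC.C0
import Pool.Agent.Lib.MP_83fbc5_gt.RFC.D2

/-!
# RFC, module D3: convergence of the ranks from a factorisation

PROOF. Choose lifts `b, c, b', c'` of `B, C, B', C'` with entries in `MS K X` (`π` surjective). Write `ev i` for the evaluation at `i` of a matrix
over `MS K X` (`Matrix.map`, a ring homomorphism entrywise, `Matrix.map_mul`). The matrices `A - b * c`, `b' * b - 1`, `c * c' - 1` have
null entries. Hence (`blk_rank_le`, finitely many entries, `Filter.eventually_all`) for every `ε > 0` eventually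
`rank blk (ev i (A - b c)) ≤ ε card`, and the same for `b' b c c' - 1 = (b' b - 1) c c' + (c c' - 1)` (its entries are null: null sequences
form a two-sided ideal). Upper bound: `rank blk A ≤ rank blk (b c) + ε card ≤ r card + ε card` (`blk_mul`, `rank_mul_le`,
`blk_rank_le_card` for `b`). Lower bound: `r card = rank (blk 1) ≤ rank blk (b' b c c') + ε card ≤ rank blk (b c) + ε card ≤
rank blk A + 2 ε card` (`blk_one`, `rank_one`, `Fintype.card_prod`). With `card > 0` divide: `|rank / card - r| ≤ 2 ε` eventually.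
-/

set_option autoImplicit false

namespace RFC

open Matrix Filter

universe w

private theorem D3_rank_add_le {K : Type w} [Field K] {p q : Type} [Fintype p] [Fintype q] (A B : Matrix p q K) :
    (A + B).rank ≤ A.rank + B.rank := by
  classical
  rw [Matrix.rank, Matrix.rank, Matrix.rank, Matrix.mulVecLin_add]
  calc Module.finrank K (LinearMap.range (A.mulVecLin + B.mulVecLin))
      ≤ Module.finrank K ↥(LinearMap.range A.mulVecLin ⊔ LinearMap.range B.mulVecLin) := by
        apply Submodule.finrank_mono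
        rintro _ ⟨x, rfl⟩
        exact Submodule.add_mem_sup ⟨x, rfl⟩ ⟨x, rfl⟩
    _ ≤ _ := Submodule.finrank_add_le_finrank_add_finrank _ _

private theorem D3_rank_neg {K : Type w} [Field K] {p q : Type} [Fintype p] [Fintype q] (A : Matrix p q K) :
    (-A).rank ≤ A.rank := by
  classical
  have h : -A = A * (-1 : Matrix q q K) := by simp
  rw [h]
  exact Matrix.rank_mul_le_left _ _

private theorem D3_null {K : Type w} [Field K] {X : ℕ → Type} [∀ i, Fintype (X i)] [∀ i, DecidableEq (X i)]
    {p q : Type} [Fintype p] [Fintype q] (M : Matrix p q (MS K X)) (hM : ∀ a b, Null (M a b)) (ε : ℝ) (hε : 0 < ε) :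
    ∀ᶠ i in atTop, ((blk (M.map fun u => u i)).rank : ℝ) ≤ ε * (Fintype.card (X i) : ℝ) := by
  classical
  set N : ℝ := (Fintype.card p : ℝ) * (Fintype.card q : ℝ) with hN
  have hN0 : 0 ≤ N := by positivity
  have hδ : 0 < ε / (N + 1) := by positivity
  have h1 : ∀ᶠ i in atTop, ∀ a b, (((M a b) i).rank : ℝ) ≤ ε / (N + 1) * (Fintype.card (X i) : ℝ) := by
    rw [Filter.eventually_all]
    intro a
    rw [Filter.eventually_all]
    intro b
    exact hM a b _ hδ
  filter_upwards [h1] with i hi
  have h2 := blk_rank_le (M.map fun u => u i)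
  have h3 : ((blk (M.map fun u => u i)).rank : ℝ) ≤ ∑ a, ∑ b, (((M a b) i).rank : ℝ) := by
    have := (Nat.cast_le (α := ℝ)).2 h2
    push_cast at this
    simpa [Matrix.map_apply] using this
  have h4 : ∑ a, ∑ b, (((M a b) i).rank : ℝ) ≤ ∑ a : p, ∑ b : q, ε / (N + 1) * (Fintype.card (X i) : ℝ) :=
    Finset.sum_le_sum fun a _ => Finset.sum_le_sum fun b _ => hi a b
  have h5 : ∑ a : p, ∑ b : q, ε / (N + 1) * (Fintype.card (X i) : ℝ) = N * (ε / (N + 1)) * (Fintype.card (X i) : ℝ) := by
    simp only [Finset.sum_const, Finset.card_univ, nsmul_eq_mul, hN]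
    ring
  have h6 : N * (ε / (N + 1)) ≤ ε := by
    rw [← mul_div_assoc, div_le_iff₀ (by positivity)]
    nlinarith
  have h7 : N * (ε / (N + 1)) * (Fintype.card (X i) : ℝ) ≤ ε * (Fintype.card (X i) : ℝ) :=
    mul_le_mul_of_nonneg_right h6 (Nat.cast_nonneg _)
  linarith

theorem lim_of_fact {K : Type w} [Field K] {X : ℕ → Type} [∀ i, Fintype (X i)] [∀ i, DecidableEq (X i)] [∀ i, Nonempty (X i)]
    {U : Type w} [Ring U] (π : MS K X →+* U) (hs : Function.Surjective π) (hπ : ∀ u : MS K X, π u = 0 ↔ Null u)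
    {m n : Type} [Fintype m] [Fintype n] [DecidableEq m] [DecidableEq n] (A : Matrix m n (MS K X)) (r : ℕ)
    (B : Matrix m (Fin r) U) (C : Matrix (Fin r) n U) (B' : Matrix (Fin r) m U) (C' : Matrix n (Fin r) U)
    (hA : A.map π = B * C) (hB : B' * B = 1) (hC : C * C' = 1) :
    Tendsto (fun i => ((blk (A.map fun u => u i)).rank : ℝ) / (Fintype.card (X i) : ℝ)) atTop (nhds (r : ℝ)) := by
  classical
  -- lifts
  have lift : ∀ {p q : Type} (Q : Matrix p q U), ∃ R : Matrix p q (MS K X), R.map π = Q := by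
    intro p q Q
    refine ⟨Q.map (Function.surjInv hs), ?_⟩
    ext a b
    simp only [Matrix.map_apply]
    exact Function.surjInv_eq hs _
  obtain ⟨b, hb⟩ := lift B
  obtain ⟨c, hc⟩ := lift C
  obtain ⟨b', hb'⟩ := lift B'
  obtain ⟨c', hc'⟩ := lift C'
  -- null matrices
  have nul : ∀ {p q : Type} (R : Matrix p q (MS K X)), R.map π = 0 → ∀ x y, Null (R x y) := by
    intro p q R hR x y
    rw [← hπ]
    have := congrFun (congrFun hR x) y
    simpa [Matrix.map_apply] using this
  have n1 : ∀ x y, Null ((A - b * c) x y) := by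
    apply nul
    rw [Matrix.map_sub π (map_sub π), Matrix.map_mul, hA, hb, hc, sub_self]
  have n2 : ∀ x y, Null ((b' * (b * c) * c' - (1 : Matrix (Fin r) (Fin r) (MS K X))) x y) := by
    apply nul
    rw [Matrix.map_sub π (map_sub π), Matrix.map_mul, Matrix.map_mul, Matrix.map_mul, hb, hc, hb', hc',
      Matrix.map_one π (map_zero π) (map_one π)]
    rw [← Matrix.mul_assoc, hB, Matrix.one_mul, hC, sub_self]
  rw [Metric.tendsto_atTop]
  intro ε hε
  have e1 := D3_null _ n1 (ε / 4) (by positivity)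
  have e2 := D3_null _ n2 (ε / 4) (by positivity)
  obtain ⟨N, hN⟩ := Filter.eventually_atTop.1 (e1.and e2)
  refine ⟨N, fun i hi => ?_⟩
  obtain ⟨f1, f2⟩ := hN i hi
  -- evaluation
  let ev : MS K X →+* Matrix (X i) (X i) K := Pi.evalRingHom (fun i => Matrix (X i) (X i) K) i
  have hev : ∀ {p q : Type} (R : Matrix p q (MS K X)), (R.map fun u => u i) = R.map ev := fun R => rfl
  rw [hev] at f1 f2 ⊢
  set κ : ℝ := (Fintype.card (X i) : ℝ) with hκ
  have hκ0 : 0 < κ := by
    rw [hκ]
    exact_mod_cast Fintype.card_pos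
  have g1 : blk (A.map ev) = blk ((b.map ev)) * blk (c.map ev) + blk ((A - b * c).map ev) := by
    rw [← blk_mul, ← blk_add, Matrix.map_sub ev (map_sub ev), Matrix.map_mul]
    congr 1
    abel
  have g2 : (1 : Matrix (Fin r × X i) (Fin r × X i) K) =
      blk (b'.map ev) * (blk (b.map ev) * blk (c.map ev)) * blk (c'.map ev) + -blk ((b' * (b * c) * c' - 1).map ev) := by
    rw [← blk_mul, ← blk_mul, ← blk_mul, Matrix.map_sub ev (map_sub ev), Matrix.map_mul, Matrix.map_mul, Matrix.map_mul,
      Matrix.map_one ev (map_zero ev) (map_one ev), blk_sub, blk_one]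
    abel
  have g3 : blk (b.map ev) * blk (c.map ev) = blk (A.map ev) + -blk ((A - b * c).map ev) := by
    rw [g1]
    abel
  have up : ((blk (A.map ev)).rank : ℝ) ≤ (r : ℝ) * κ + ε / 4 * κ := by
    have h1 : (blk (A.map ev)).rank ≤ (blk (b.map ev) * blk (c.map ev)).rank + (blk ((A - b * c).map ev)).rank := by
      rw [g1]
      exact D3_rank_add_le _ _
    have h2 : (blk (b.map ev) * blk (c.map ev)).rank ≤ r * Fintype.card (X i) := by
      refine (Matrix.rank_mul_le_left _ _).trans ?_
      have := blk_rank_le_card (b.map ev)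
      simpa using this
    have h3 : ((blk (A.map ev)).rank : ℝ) ≤ (r : ℝ) * κ + ((blk ((A - b * c).map ev)).rank : ℝ) := by
      rw [hκ]
      exact_mod_cast h1.trans (Nat.add_le_add_right h2 _)
    linarith
  have low : (r : ℝ) * κ ≤ ((blk (A.map ev)).rank : ℝ) + ε / 4 * κ + ε / 4 * κ := by
    have h1 : r * Fintype.card (X i) ≤ (blk (b'.map ev) * (blk (b.map ev) * blk (c.map ev)) * blk (c'.map ev)).rank +
        (blk ((b' * (b * c) * c' - 1).map ev)).rank := by
      have h0 : (1 : Matrix (Fin r × X i) (Fin r × X i) K).rank = r * Fintype.card (X i) := by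
        rw [Matrix.rank_one, Fintype.card_prod, Fintype.card_fin]
      rw [← h0]
      conv_lhs => rw [g2]
      exact (D3_rank_add_le _ _).trans (Nat.add_le_add_left (D3_rank_neg _) _)
    have h2 : (blk (b'.map ev) * (blk (b.map ev) * blk (c.map ev)) * blk (c'.map ev)).rank ≤
        (blk (b.map ev) * blk (c.map ev)).rank :=
      (Matrix.rank_mul_le_left _ _).trans (Matrix.rank_mul_le_right _ _)
    have h3 : (blk (b.map ev) * blk (c.map ev)).rank ≤ (blk (A.map ev)).rank + (blk ((A - b * c).map ev)).rank := by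
      rw [g3]
      exact (D3_rank_add_le _ _).trans (Nat.add_le_add_left (D3_rank_neg _) _)
    have h4 : r * Fintype.card (X i) ≤ (blk (A.map ev)).rank + (blk ((A - b * c).map ev)).rank +
        (blk ((b' * (b * c) * c' - 1).map ev)).rank := by omega
    have h5 : (r : ℝ) * κ ≤ ((blk (A.map ev)).rank : ℝ) + ((blk ((A - b * c).map ev)).rank : ℝ) +
        ((blk ((b' * (b * c) * c' - 1).map ev)).rank : ℝ) := by
      rw [hκ]
      exact_mod_cast h4
    linarith
  rw [Real.dist_eq]
  have h8 : ((blk (A.map ev)).rank : ℝ) / κ - (r : ℝ) = (((blk (A.map ev)).rank : ℝ) - (r : ℝ) * κ) / κ := by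
    field_simp
  rw [h8, abs_div, abs_of_pos hκ0, div_lt_iff₀ hκ0, abs_lt]
  have : 0 < ε * κ := by positivity
  constructor <;> linarith

end RFC
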