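import Pool.Agent.Lib.MP_83fbc5_gt.RFC.C9
import Pool.Agent.Lib.MP_83fbc5_gt.RFC.D1
import Pool.Agent.Lib.MP_83fbc5_gt.RFC.D3

/-!
# RFC, module D4: Theorem R

PROOF. `exists_div` gives `U, π, D, ι`. Choose `x a b : D` with `ι (x a b) = π (fun i => rp K (σ i) (A a b))`; `rank_fact` for the matrix `x`
over `D`; map the factorisation to `U` with `ι` (`Matrix.map_mul`, `Matrix.map_one`); `lim_of_fact` for the matrix with the entries
`fun i => rp K (σ i) (A a b)`.
-/

set_option autoImplicit false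

namespace RFC

open Filter

universe w

theorem main_rich (K : Type w) [Field K] {X : ℕ → Type} [∀ i, Fintype (X i)] [∀ i, DecidableEq (X i)] [∀ i, Nonempty (X i)]
    {G : Type} [Group G] (σ : ∀ i, G →* Equiv.Perm (X i)) (h : Rich σ) {m n : Type} [Fintype m] [Fintype n]
    (A : Matrix m n (MonoidAlgebra K G)) :
    ∃ r : ℕ, Tendsto (fun i => ((blk (A.map (rp K (σ i)))).rank : ℝ) / (Fintype.card (X i) : ℝ)) atTop (nhds (r : ℝ)) := by
  classical
  obtain ⟨U, _, π, D, _, ι, hs, hπ, hι⟩ := exists_div (K := K) σ h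
  choose x hx using hι
  obtain ⟨r, B, C, B', C', h1, h2, h3⟩ := rank_fact (A.map x)
  refine ⟨r, ?_⟩
  have key := lim_of_fact π hs hπ (Matrix.of fun a b => (fun i => rp K (σ i) (A a b) : MS K X)) r (B.map ι) (C.map ι)
    (B'.map ι) (C'.map ι) ?_ ?_ ?_
  · exact key
  · ext a b
    have h4 := congrFun (congrFun (congrArg (fun M : Matrix m n D => M.map ι) h1) a) b
    rw [Matrix.map_mul] at h4
    rw [← h4]
    simp only [Matrix.map_apply, Matrix.of_apply]
    rw [hx]
  · rw [← Matrix.map_mul, h2, Matrix.map_one ι (map_zero ι) (map_one ι)]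
  · rw [← Matrix.map_mul, h3, Matrix.map_one ι (map_zero ι) (map_one ι)]

end RFC
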