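import Pool.Agent.Lib.MP_83fbc5_gt.RFC.EDefs

/-!
# RFC, module E1: cofinal sequences in groups of class `VI` are rich; restriction to a subgroup of finite index

PROOF. `rich_of_vi`: eventually `N i ≤ B`; if `s` fixes a point then `s ∈ N i` (`qs_fix`), so `s ∈ B`. `cofinal_sub`: a subgroup `B` of finite
index of `H` gives `B.map H.subtype` of finite index in `G` (`Subgroup.index_map_subtype` or `Subgroup.relindex`), and `N i ≤ B.map H.subtype`
gives `(N i).subgroupOf H ≤ B`.
(15 minutes)
-/

set_option autoImplicit false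

namespace RFC

open Filter

theorem rich_of_vi {G : Type} [Group G] (h : VI G) (N : ℕ → Subgroup G) [∀ i, (N i).Normal] (hN : Cofinal N) :
    Rich (fun i => qs (N i)) := by
  intro S hS hS1
  obtain ⟨φ, hφ, hm⟩ := h S hS hS1
  refine ⟨φ, hφ, fun n => ?_⟩
  obtain ⟨m, hnm, B, hB, hBm⟩ := hm n
  refine ⟨m, hnm, (hN B hB).mono fun i hi x s hs => hBm s (hi ?_)⟩
  exact qs_fix (N i) (s : G) x hs

theorem cofinal_sub {G : Type} [Group G] (H : Subgroup G) [H.FiniteIndex] (N : ℕ → Subgroup G) (hN : Cofinal N) :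
    Cofinal (fun i => (N i).subgroupOf H) := by
  intro B hB
  have hfin : (B.map H.subtype).FiniteIndex := by
    refine ⟨?_⟩
    rw [Subgroup.index_map_subtype]
    exact mul_ne_zero hB.index_ne_zero Subgroup.FiniteIndex.index_ne_zero
  refine (hN _ hfin).mono fun i hi x hx => ?_
  rw [Subgroup.mem_subgroupOf] at hx
  obtain ⟨y, hy, hyx⟩ := Subgroup.mem_map.1 (hi hx)
  have : y = x := Subtype.ext hyx
  rwa [this] at hy

end RFC
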