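import Pool.Agent.Lib.MP_83fbc5_gt.RFC.CDefs
import Pool.Agent.Lib.MP_83fbc5_gt.RFC.C6

/-!
# RFC, module E3: restriction of a matrix to a subgroup, for actions

`H ≤ G`, `t : T → G` representatives of the left cosets: every `g ∈ G` is `t j * h` for exactly one pair `(j, h)`, `j : T`, `h : H`.
PROOF. Define `c j l : K[G] → K[H]` additive (`Finsupp` linear) by `c j l (single g k) = single (t_j⁻¹ g t_l) k` if `t_j⁻¹ g t_l ∈ H` and `0`
otherwise, and `A' (a, j) (b, l) = c j l (A a b)`. Let `σ` be an action of `G` on `X`, `τ` an action of `H` on `Y`, `f : Y → X` with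
`f (τ h y) = σ h (f y)` and such that `e (j, y) = σ (t j) (f y)` is a bijection `T × Y → X`. Then
`(rp K σ a) (e (j, y)) (e (l, y')) = (rp K τ (c j l a)) y y'` for all `a : K[G]`: additive in `a`, and for `a = single g k`: write
`g t_l = t_i h`; `σ g (e (l, y')) = σ (t_i) (f (τ h y')) = e (i, τ h y')`, so the left side is `k` if `i = j` and `y = τ h y'`, and `0`
otherwise; the right side is the same (`t_j⁻¹ g t_l ∈ H` iff `i = j`, and then it is `h`). Therefore the block matrices of `A.map (rp K σ)` and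
`A'.map (rp K τ)` agree up to the bijections `m × X ≃ (m × T) × Y` of rows and columns (`Matrix.rank_submatrix`; or `Matrix.reindex`).
(45 minutes)
-/

set_option autoImplicit false

namespace RFC

universe w

/-- the additive map `single g k ↦ single (t_j⁻¹ g t_l) k` or `0` -/
private noncomputable def E3c {K : Type w} [Field K] {G : Type} [Group G] (H : Subgroup G) {T : Type} (t : T → G) (j l : T) :
    MonoidAlgebra K G →+ MonoidAlgebra K H := by
  classical
  exact (Finsupp.liftAddHom (fun g => if h : (t j)⁻¹ * g * t l ∈ H then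
    MonoidAlgebra.singleAddHom (⟨(t j)⁻¹ * g * t l, h⟩ : H) else 0)).comp
    (MonoidAlgebra.coeffAddEquiv : MonoidAlgebra K G ≃+ (G →₀ K)).toAddMonoidHom

private theorem E3c_pos {K : Type w} [Field K] {G : Type} [Group G] (H : Subgroup G) {T : Type} (t : T → G) (j l : T)
    (g : G) (k : K) (h : (t j)⁻¹ * g * t l ∈ H) :
    E3c H t j l (MonoidAlgebra.single g k) = MonoidAlgebra.single (⟨(t j)⁻¹ * g * t l, h⟩ : H) k := by
  have h1 : (MonoidAlgebra.coeffAddEquiv : MonoidAlgebra K G ≃+ (G →₀ K)) (MonoidAlgebra.single g k) =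
      Finsupp.single g k := rfl
  simp only [E3c, AddMonoidHom.comp_apply, AddEquiv.toAddMonoidHom_eq_coe, AddMonoidHom.coe_coe, h1,
    Finsupp.liftAddHom_apply_single, dif_pos h]
  rfl

private theorem E3c_neg {K : Type w} [Field K] {G : Type} [Group G] (H : Subgroup G) {T : Type} (t : T → G) (j l : T)
    (g : G) (k : K) (h : ¬ (t j)⁻¹ * g * t l ∈ H) :
    E3c H t j l (MonoidAlgebra.single g k) = 0 := by
  have h1 : (MonoidAlgebra.coeffAddEquiv : MonoidAlgebra K G ≃+ (G →₀ K)) (MonoidAlgebra.single g k) =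
      Finsupp.single g k := rfl
  simp only [E3c, AddMonoidHom.comp_apply, AddEquiv.toAddMonoidHom_eq_coe, AddMonoidHom.coe_coe, h1,
    Finsupp.liftAddHom_apply_single, dif_neg h]
  rfl

private theorem E3_entry {K : Type w} [Field K] {G : Type} [Group G] (H : Subgroup G) {T : Type} (t : T → G)
    (ht : ∀ g : G, ∃! p : T × H, g = t p.1 * p.2)
    (X Y : Type) [Fintype X] [DecidableEq X] [Fintype Y] [DecidableEq Y] (σ : G →* Equiv.Perm X) (τ : H →* Equiv.Perm Y)
    (f : Y → X) (hf : ∀ (h : H) (y : Y), f (τ h y) = σ h (f y))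
    (he : Function.Injective (fun p : T × Y => σ (t p.1) (f p.2))) (j l : T) (y y' : Y) (a : MonoidAlgebra K G) :
    (rp K σ a) (σ (t j) (f y)) (σ (t l) (f y')) = (rp K τ (E3c H t j l a)) y y' := by
  induction a using MonoidAlgebra.induction_linear with
  | zero => simp only [map_zero, Matrix.zero_apply]
  | add a b ha hb => simp only [map_add, Matrix.add_apply, ha, hb]
  | single g k =>
    rw [rp_single]
    obtain ⟨⟨i, h⟩, hi, -⟩ := ht (g * t l)
    simp only at hi
    have e1 : σ g (σ (t l) (f y')) = σ (t i) (f (τ h y')) := by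
      rw [hf, ← Equiv.Perm.mul_apply, ← Equiv.Perm.mul_apply, ← map_mul, ← map_mul, hi]
    have e2 : (k • pm K σ g) (σ (t j) (f y)) (σ (t l) (f y')) = k * if σ (t j) (f y) = σ (t i) (f (τ h y')) then 1 else 0 := by
      rw [← e1]
      rfl
    rw [e2]
    by_cases hs : (t j)⁻¹ * g * t l ∈ H
    · rw [E3c_pos H t j l g k hs, rp_single]
      have e3 : (k • pm K τ ⟨(t j)⁻¹ * g * t l, hs⟩) y y' = k * if y = τ ⟨(t j)⁻¹ * g * t l, hs⟩ y' then 1 else 0 := rfl
      rw [e3]
      have hij : (i, h) = (j, (⟨(t j)⁻¹ * g * t l, hs⟩ : H)) := by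
        refine (ht (g * t l)).unique hi ?_
        simp only
        group
      have hi' : i = j := congrArg Prod.fst hij
      have hh' : h = ⟨(t j)⁻¹ * g * t l, hs⟩ := congrArg Prod.snd hij
      subst hi'
      rw [← hh']
      congr 1
      have e4 : (σ (t i) (f y) = σ (t i) (f (τ h y'))) ↔ y = τ h y' := by
        constructor
        · intro hc
          have h5 := @he (i, y) (i, τ h y') hc
          exact congrArg Prod.snd h5
        · intro hc
          rw [← hc]
      by_cases hy : y = τ h y'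
      · rw [if_pos hy, if_pos (e4.2 hy)]
      · rw [if_neg hy, if_neg fun hc => hy (e4.1 hc)]
    · rw [E3c_neg H t j l g k hs, map_zero, Matrix.zero_apply]
      rw [if_neg, mul_zero]
      intro hc
      have h5 := @he (j, y) (i, τ h y') hc
      have h6 : j = i := congrArg Prod.fst h5
      subst h6
      apply hs
      have h7 : (t j)⁻¹ * g * t l = h := by
        rw [mul_assoc, hi, inv_mul_cancel_left]
      rw [h7]
      exact h.2

theorem exists_res {K : Type w} [Field K] {G : Type} [Group G] (H : Subgroup G) {T : Type} [Fintype T] [DecidableEq T] (t : T → G)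
    (ht : ∀ g : G, ∃! p : T × H, g = t p.1 * p.2) {m n : Type} [Fintype m] [Fintype n] (A : Matrix m n (MonoidAlgebra K G)) :
    ∃ A' : Matrix (m × T) (n × T) (MonoidAlgebra K H),
      ∀ (X Y : Type) [Fintype X] [DecidableEq X] [Fintype Y] [DecidableEq Y] (σ : G →* Equiv.Perm X) (τ : H →* Equiv.Perm Y)
        (f : Y → X), (∀ (h : H) (y : Y), f (τ h y) = σ h (f y)) →
        Function.Bijective (fun p : T × Y => σ (t p.1) (f p.2)) →
        (blk (A.map (rp K σ))).rank = (blk (A'.map (rp K τ))).rank := by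
  refine ⟨Matrix.of fun p q => E3c H t p.2 q.2 (A p.1 q.1), ?_⟩
  intro X Y _ _ _ _ σ τ f hf he
  let e : T × Y ≃ X := Equiv.ofBijective _ he
  let er : (m × T) × Y ≃ m × X := (Equiv.prodAssoc m T Y).trans (Equiv.prodCongr (Equiv.refl m) e)
  let ec : (n × T) × Y ≃ n × X := (Equiv.prodAssoc n T Y).trans (Equiv.prodCongr (Equiv.refl n) e)
  rw [← Matrix.rank_submatrix (blk (A.map (rp K σ))) er ec]
  congr 1
  ext ⟨⟨a, j⟩, y⟩ ⟨⟨b, l⟩, y'⟩
  exact E3_entry H t ht X Y σ τ f hf he.1 j l y y' (A a b)

end RFC
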