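import Pool.Agent.Lib.MP_83fbc5_gt.RFC.EDefs

/-!
# RFC, module E4: the quotients `G/N` and `H/(N ∩ H)`

PROOF. `exists_reps`: `T = G ⧸ H`, `t = Quotient.out` (`QuotientGroup.out_eq'`). `incl`: the map `H ⧸ N' → G ⧸ N`, `N' = N.subgroupOf H`,
`f = QuotientGroup.map N' N H.subtype _`, a homomorphism, injective. `f (x h̄⁻¹) = f x h̄⁻¹`. Bijective: given `ḡ ∈ G/N`, write `g⁻¹ = t j * h`,
so `ḡ = f(h̄⁻¹) * (t̄ j)⁻¹ = qs N (t j) (f (h̄⁻¹))`; injective: `f y t̄_j⁻¹ = f y' t̄_l⁻¹` with `y = h̄`, `y' = h̄'`: `t_j h⁻¹ ∈ t_l h'⁻¹ N` and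
`N ≤ H` give `t_j H = t_l H`, `j = l`, then `f y = f y'` and `y = y'`.
(30 minutes)
-/

set_option autoImplicit false

namespace RFC

theorem exists_reps {G : Type} [Group G] (H : Subgroup G) :
    ∃ t : G ⧸ H → G, ∀ g : G, ∃! p : (G ⧸ H) × H, g = t p.1 * p.2 := by
  refine ⟨Quotient.out, fun g => ?_⟩
  have h0 : ((Quotient.out (g : G ⧸ H) : G) : G ⧸ H) = (g : G ⧸ H) := QuotientGroup.out_eq' _
  have h1 : (Quotient.out (g : G ⧸ H) : G)⁻¹ * g ∈ H := QuotientGroup.eq.1 h0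
  refine ⟨((g : G ⧸ H), ⟨_, h1⟩), ?_, ?_⟩
  · show g = Quotient.out (g : G ⧸ H) * ((Quotient.out (g : G ⧸ H))⁻¹ * g)
    rw [mul_inv_cancel_left]
  · rintro ⟨j, h⟩ hj
    have hj' : g = Quotient.out j * (h : G) := hj
    have e1 : (g : G ⧸ H) = j := by
      have h2 : ((Quotient.out j : G) : G ⧸ H) = (g : G ⧸ H) := by
        rw [QuotientGroup.eq, hj', inv_mul_cancel_left]
        exact h.2
      rw [← h2]
      exact QuotientGroup.out_eq' _
    refine Prod.ext e1.symm (Subtype.ext ?_)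
    show (h : G) = (Quotient.out (g : G ⧸ H))⁻¹ * g
    rw [e1, eq_inv_mul_iff_mul_eq]
    exact hj'.symm

theorem exists_incl {G : Type} [Group G] (H N : Subgroup G) [N.Normal] (hN : N ≤ H) (t : G ⧸ H → G)
    (ht : ∀ g : G, ∃! p : (G ⧸ H) × H, g = t p.1 * p.2) :
    ∃ f : H ⧸ N.subgroupOf H → G ⧸ N,
      (∀ (h : H) (y : H ⧸ N.subgroupOf H), f (qs (N.subgroupOf H) h y) = qs N (h : G) (f y)) ∧
      Function.Bijective (fun p : (G ⧸ H) × (H ⧸ N.subgroupOf H) => qs N (t p.1) (f p.2)) := by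
  let f : H ⧸ N.subgroupOf H →* G ⧸ N := QuotientGroup.map (N.subgroupOf H) N H.subtype le_rfl
  have hf : ∀ h : H, f (h : H ⧸ N.subgroupOf H) = ((h : G) : G ⧸ N) := fun h => rfl
  have hmk : ∀ g : G, QuotientGroup.mk' N g = (g : G ⧸ N) := fun g => rfl
  refine ⟨f, ?_, ?_, ?_⟩
  · intro h y
    rw [qs_apply, qs_apply, map_mul, map_inv]
    rfl
  · rintro ⟨j, y⟩ ⟨l, y'⟩ hjl
    obtain ⟨h, rfl⟩ := QuotientGroup.mk_surjective y
    obtain ⟨h', rfl⟩ := QuotientGroup.mk_surjective y'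
    simp only [qs_apply, hf, hmk] at hjl
    have h1 : (((h : G) * (t j)⁻¹ : G) : G ⧸ N) = (((h' : G) * (t l)⁻¹ : G) : G ⧸ N) := hjl
    have h2 : ((h : G) * (t j)⁻¹)⁻¹ * ((h' : G) * (t l)⁻¹) ∈ N := QuotientGroup.eq.1 h1
    -- both sides describe the same element `t j`
    have h3 : ((h : G) * (t j)⁻¹)⁻¹ * ((h' : G) * (t l)⁻¹) = t j * ((h : G)⁻¹ * h') * (t l)⁻¹ := by group
    rw [h3] at h2
    have h4 : (t l)⁻¹ * (t j * ((h : G)⁻¹ * h') * (t l)⁻¹) * t l ∈ N := by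
      have := (inferInstance : N.Normal).conj_mem _ h2 (t l)⁻¹
      rwa [inv_inv] at this
    have h5 : (t l)⁻¹ * (t j * ((h : G)⁻¹ * h') * (t l)⁻¹) * t l = (t l)⁻¹ * t j * ((h : G)⁻¹ * h') := by group
    rw [h5] at h4
    have h6 := hN h4
    have h7 : (t l)⁻¹ * t j ∈ H := by
      have := H.mul_mem h6 (H.inv_mem (H.mul_mem (H.inv_mem h.2) h'.2))
      rwa [mul_inv_cancel_right] at this
    have h8 : (j, (⟨1, H.one_mem⟩ : H)) = (l, (⟨(t l)⁻¹ * t j, h7⟩ : H)) := by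
      refine (ht (t j)).unique ?_ ?_
      · show t j = t j * 1
        rw [mul_one]
      · show t j = t l * ((t l)⁻¹ * t j)
        rw [mul_inv_cancel_left]
    have h9 : j = l := congrArg Prod.fst h8
    subst h9
    have h10 : ((h : H) : H ⧸ N.subgroupOf H) = ((h' : H) : H ⧸ N.subgroupOf H) := by
      rw [QuotientGroup.eq, Subgroup.mem_subgroupOf]
      have : (t j)⁻¹ * t j * ((h : G)⁻¹ * h') = (h : G)⁻¹ * h' := by group
      rw [this] at h4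
      exact h4
    rw [h10]
  · intro x
    obtain ⟨g, rfl⟩ := QuotientGroup.mk_surjective x
    obtain ⟨⟨j, h⟩, hj, -⟩ := ht g⁻¹
    refine ⟨(j, ((h⁻¹ : H) : H ⧸ N.subgroupOf H)), ?_⟩
    show qs N (t j) (f _) = _
    rw [qs_apply, hf, hmk]
    have hj' : g⁻¹ = t j * (h : G) := hj
    have h1 : g = (h : G)⁻¹ * (t j)⁻¹ := by
      rw [← mul_inv_rev, ← hj', inv_inv]
    rw [h1]
    rfl

end RFC
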