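import Pool.Agent.Lib.MP_83fbc5_gt.RFC.D4
import Pool.Agent.Lib.MP_83fbc5_gt.RFC.E1
import Pool.Agent.Lib.MP_83fbc5_gt.RFC.E2
import Pool.Agent.Lib.MP_83fbc5_gt.RFC.E3
import Pool.Agent.Lib.MP_83fbc5_gt.RFC.E4

/-!
# RFC, module E5: convergence for one cofinal sequence

PROOF. `t` from `exists_reps`, `A1 = A.map (MonoidAlgebra.mapRingHom G (Int.castRingHom F))`, `A'` from `exists_res` for `A1`. `main_rich` for `H`,
`X i = H ⧸ (N i).subgroupOf H` (finite, nonempty; `Fintype.ofFinite`, classical decidability), `σ i = qs`, `rich_of_vi hH` and `cofinal_sub`: ranks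
of `A'` over `card` converge to `r`. Eventually `N i ≤ H` (`Cofinal`); then `rk F (N i) A` is the rank of the block matrix of `A1` (`rk_eq`), equal
to the rank of the block matrix of `A'` (`exists_res` with `exists_incl`), and `(N i).index = H.index * card (H ⧸ (N i).subgroupOf H)`
(`Subgroup.relIndex_mul_index`, `Subgroup.index_eq_card`). So the quotient is the rank over `card`, divided by `H.index`.
(30-45 minutes)
-/

set_option autoImplicit false

namespace RFC

open Filter

universe w

theorem conv_one (F : Type w) [Field F] {G : Type} [Group G] (H : Subgroup G) [H.FiniteIndex] (hH : VI H) {m n : Type} [Fintype m]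
    [Fintype n] (A : Matrix m n (MonoidAlgebra ℤ G)) (N : ℕ → Subgroup G) [∀ i, (N i).Normal] [∀ i, (N i).FiniteIndex]
    (hN : Cofinal N) :
    ∃ r : ℕ, Tendsto (fun i => (NBT.rk F (N i) A : ℝ) / ((N i).index : ℝ)) atTop (nhds ((r : ℝ) / (H.index : ℝ))) := by
  classical
  obtain ⟨t, ht⟩ := exists_reps H
  letI : Fintype (G ⧸ H) := Fintype.ofFinite _
  obtain ⟨A', hA'⟩ := exists_res (K := F) H t ht
    (A.map (MonoidAlgebra.mapRingHom G (Int.castRingHom F)))
  haveI : ∀ i, ((N i).subgroupOf H).FiniteIndex := fun i => inferInstance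
  letI : ∀ i, Fintype (H ⧸ (N i).subgroupOf H) := fun i => Fintype.ofFinite _
  letI : ∀ i, Fintype (G ⧸ N i) := fun i => Fintype.ofFinite _
  haveI : ∀ i, ((N i).subgroupOf H).Normal := fun i => inferInstance
  obtain ⟨r, hr⟩ := main_rich F (X := fun i => H ⧸ (N i).subgroupOf H)
    (fun i => qs ((N i).subgroupOf H)) (rich_of_vi hH _ (cofinal_sub H N hN)) A'
  refine ⟨r, ?_⟩
  refine Tendsto.congr' ?_ (hr.div_const (H.index : ℝ))
  filter_upwards [hN H inferInstance] with i hi
  obtain ⟨f, hf1, hf2⟩ := exists_incl H (N i) hi t ht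
  rw [rk_eq F (N i) A, hA' (G ⧸ N i) (H ⧸ (N i).subgroupOf H) (qs (N i))
    (qs ((N i).subgroupOf H)) f hf1 hf2]
  have h1 : (N i).index = Fintype.card (H ⧸ (N i).subgroupOf H) * H.index := by
    rw [← Subgroup.relIndex_mul_index hi, Subgroup.relIndex, Subgroup.index_eq_card,
      Nat.card_eq_fintype_card]
  rw [h1, Nat.cast_mul, div_div]

end RFC
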