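import Pool.Agent.Lib.MP_83fbc5_gt.RFC.E5
import Pool.Agent.Lib.MP_83fbc5_gt.BET

/-!
# RFC, module E6: the limit does not depend on the sequence; Betti numbers

PROOF. `conv_rk`: if there is no cofinal sequence of normal subgroups of finite index take `r = 0`. Otherwise let `N0` be one and `r` its number
from `conv_one`. For another `N` let `N' (2 i) = N0 i`, `N' (2 i + 1) = N i` (`if Even`), cofinal; `conv_one` gives `r'`, and the subsequences
(`tendsto_atTop` composition with `2 i`, `2 i + 1`; instances of normality by cases, `NBT.rk_congr`) converge to the same limit, so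
`r = r'` (uniqueness of limits; `H.index ≠ 0`) and `N` has the limit `r`.
`conv_betti`: `NBT.betti_zero` / `NBT.betti_succ` (`betti (n+1) + rk (d n) + rk (d (n+1)) = card ι(n+1) * index`, or the form stated
in BET) and `conv_rk` for `d n` and `d (n + 1)`: the limit is `card ι - r / [G:H] - r' / [G:H] = (card ι * [G:H] - r - r') / [G:H]`.
(30-45 minutes)
-/

set_option autoImplicit false

namespace RFC

open Filter

universe w

theorem conv_rk (F : Type w) [Field F] {G : Type} [Group G] (H : Subgroup G) [H.FiniteIndex] (hH : VI H) {m n : Type} [Fintype m]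
    [Fintype n] (A : Matrix m n (MonoidAlgebra ℤ G)) :
    ∃ r : ℕ, ∀ (N : ℕ → Subgroup G) [∀ i, (N i).Normal] [∀ i, (N i).FiniteIndex], Cofinal N →
      Tendsto (fun i => (NBT.rk F (N i) A : ℝ) / ((N i).index : ℝ)) atTop (nhds ((r : ℝ) / (H.index : ℝ))) := by
  classical
  by_cases hex : ∃ N0 : ℕ → Subgroup G, (∀ i, (N0 i).Normal) ∧ (∀ i, (N0 i).FiniteIndex) ∧ Cofinal N0
  · obtain ⟨N0, n0, f0, c0⟩ := hex
    obtain ⟨r, hr⟩ := conv_one F H hH A N0 c0
    refine ⟨r, ?_⟩
    intro N n1 f1 c1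
    let N' : ℕ → Subgroup G := fun i => if i % 2 = 0 then N0 (i / 2) else N (i / 2)
    have e0 : ∀ i, N' (2 * i) = N0 i := by
      intro i
      simp only [N']
      rw [if_pos (by omega), show 2 * i / 2 = i by omega]
    have e1 : ∀ i, N' (2 * i + 1) = N i := by
      intro i
      simp only [N']
      rw [if_neg (by omega), show (2 * i + 1) / 2 = i by omega]
    have n2 : ∀ i, (N' i).Normal := by
      intro i
      simp only [N']
      split_ifs
      · exact n0 _
      · exact n1 _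
    have f2 : ∀ i, (N' i).FiniteIndex := by
      intro i
      simp only [N']
      split_ifs
      · exact f0 _
      · exact f1 _
    have c2 : Cofinal N' := by
      intro B hB
      obtain ⟨a, ha⟩ := eventually_atTop.1 (c0 B hB)
      obtain ⟨b, hb⟩ := eventually_atTop.1 (c1 B hB)
      refine eventually_atTop.2 ⟨2 * (a + b), fun i hi => ?_⟩
      simp only [N']
      split_ifs
      · exact ha _ (by omega)
      · exact hb _ (by omega)
    obtain ⟨r', hr'⟩ := conv_one F H hH A N' c2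
    have t0 : Tendsto (fun i : ℕ => 2 * i) atTop atTop :=
      tendsto_atTop_mono (fun i => by rw [id_eq]; omega) tendsto_id
    have t1 : Tendsto (fun i : ℕ => 2 * i + 1) atTop atTop :=
      tendsto_atTop_mono (fun i => by rw [id_eq]; omega) tendsto_id
    have h0 := hr'.comp t0
    have h1 := hr'.comp t1
    have g0 : (fun i => (NBT.rk F (N' i) A : ℝ) / ((N' i).index : ℝ)) ∘ (fun i : ℕ => 2 * i) =
        fun i => (NBT.rk F (N0 i) A : ℝ) / ((N0 i).index : ℝ) := by
      funext i
      change (NBT.rk F (N' (2 * i)) A : ℝ) / ((N' (2 * i)).index : ℝ) = _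
      rw [NBT.rk_congr F (e0 i) A, e0 i]
    have g1 : (fun i => (NBT.rk F (N' i) A : ℝ) / ((N' i).index : ℝ)) ∘
        (fun i : ℕ => 2 * i + 1) =
        fun i => (NBT.rk F (N i) A : ℝ) / ((N i).index : ℝ) := by
      funext i
      change (NBT.rk F (N' (2 * i + 1)) A : ℝ) / ((N' (2 * i + 1)).index : ℝ) = _
      rw [NBT.rk_congr F (e1 i) A, e1 i]
    rw [g0] at h0
    rw [g1] at h1
    rw [tendsto_nhds_unique hr h0]
    exact h1
  · refine ⟨0, fun N n1 f1 c1 => ?_⟩
    exact absurd ⟨N, n1, f1, c1⟩ hex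

theorem conv_betti (F : Type w) [Field F] {G : Type} [Group G] (H : Subgroup G) [H.FiniteIndex] (hH : VI H) {D : ℕ}
    (R : NBT.FFR G D) (n : ℕ) :
    ∃ r : ℤ, ∀ (N : ℕ → Subgroup G) [∀ i, (N i).Normal] [∀ i, (N i).FiniteIndex], Cofinal N →
      Tendsto (fun i => (NBT.betti F R (N i) n : ℝ) / ((N i).index : ℝ)) atTop (nhds ((r : ℝ) / (H.index : ℝ))) := by
  have hH0 : (H.index : ℝ) ≠ 0 := by exact_mod_cast Subgroup.FiniteIndex.index_ne_zero
  cases n with
  | zero =>
    obtain ⟨r, hr⟩ := conv_rk F H hH (R.d 0)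
    refine ⟨(Fintype.card (R.ι 0) : ℤ) * H.index - r, fun N n1 f1 c1 => ?_⟩
    have h1 := (tendsto_const_nhds (x := (Fintype.card (R.ι 0) : ℝ))).sub (hr N c1)
    have e1 : (((Fintype.card (R.ι 0) : ℤ) * H.index - r : ℤ) : ℝ) / (H.index : ℝ) =
        (Fintype.card (R.ι 0) : ℝ) - (r : ℝ) / (H.index : ℝ) := by
      push_cast
      field_simp
    rw [e1]
    refine h1.congr fun i => ?_
    have hi0 : ((N i).index : ℝ) ≠ 0 := by exact_mod_cast Subgroup.FiniteIndex.index_ne_zero
    have h2 : (NBT.betti F R (N i) 0 : ℝ) + (NBT.rk F (N i) (R.d 0) : ℝ) =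
        (Fintype.card (R.ι 0) : ℝ) * ((N i).index : ℝ) := by
      exact_mod_cast NBT.betti_zero F R (N i)
    rw [eq_div_iff hi0, sub_mul, div_mul_cancel₀ _ hi0]
    linarith
  | succ n =>
    obtain ⟨r, hr⟩ := conv_rk F H hH (R.d n)
    obtain ⟨r', hr'⟩ := conv_rk F H hH (R.d (n + 1))
    refine ⟨(Fintype.card (R.ι (n + 1)) : ℤ) * H.index - r - r', fun N n1 f1 c1 => ?_⟩
    have h1 := ((tendsto_const_nhds (x := (Fintype.card (R.ι (n + 1)) : ℝ))).sub (hr N c1)).sub
      (hr' N c1)
    have e1 : (((Fintype.card (R.ι (n + 1)) : ℤ) * H.index - r - r' : ℤ) : ℝ) / (H.index : ℝ) =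
        (Fintype.card (R.ι (n + 1)) : ℝ) - (r : ℝ) / (H.index : ℝ) - (r' : ℝ) / (H.index : ℝ) := by
      push_cast
      field_simp
    rw [e1]
    refine h1.congr fun i => ?_
    have hi0 : ((N i).index : ℝ) ≠ 0 := by exact_mod_cast Subgroup.FiniteIndex.index_ne_zero
    have h2 : (NBT.betti F R (N i) (n + 1) : ℝ) + (NBT.rk F (N i) (R.d n) : ℝ) +
        (NBT.rk F (N i) (R.d (n + 1)) : ℝ) =
        (Fintype.card (R.ι (n + 1)) : ℝ) * ((N i).index : ℝ) := by
      exact_mod_cast NBT.betti_succ F R (N i) n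
    rw [eq_div_iff hi0, sub_mul, sub_mul, div_mul_cancel₀ _ hi0, div_mul_cancel₀ _ hi0]
    linarith

end RFC
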