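import Pool.Agent.Lib.MP_83fbc5_gt.RFC.VDefs

/-!
# RFC: rich sequences of subgroups
-/

set_option autoImplicit false

namespace RFC

open Filter

/-- `N i` is eventually contained in `H`, and for every nontrivial finitely generated subgroup `S` of `H` there is a surjection
`φ : S → ℤ` such that for infinitely many `m` eventually `S ∩ N i ⊆ φ⁻¹(m ℤ)` -/
def RichIn {G : Type} [Group G] (H : Subgroup G) (N : ℕ → Subgroup G) : Prop :=
  (∀ᶠ i in atTop, N i ≤ H) ∧ ∀ S : Subgroup G, S ≤ H → S.FG → S ≠ ⊥ →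
    ∃ φ : S →* Multiplicative ℤ, Function.Surjective φ ∧
      ∀ n : ℕ, ∃ m : ℕ, n < m ∧ ∀ᶠ i in atTop, ∀ s : S, (s : G) ∈ N i → (m : ℤ) ∣ Multiplicative.toAdd (φ s)

/-- `T` is a decreasing sequence of subgroups with trivial intersection which starts with `H`, and every element of `T i` outside
`T (i + 1)` is detected by a homomorphism `T i → ℤ` -/
def Tower {G : Type} [Group G] (H : Subgroup G) (T : ℕ → Subgroup G) : Prop :=
  T 0 = H ∧ Antitone T ∧ (⨅ i, T i = ⊥) ∧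
    ∀ (i : ℕ) (x : T i), (x : G) ∉ T (i + 1) → ∃ φ : T i →* Multiplicative ℤ, φ x ≠ 1

/-- for all homomorphisms `φ : T i → ℤ` and all `k`, eventually `N j ⊆ φ⁻¹(p ^ k ℤ)` -/
def Adapted {G : Type} [Group G] (p : ℕ) (T N : ℕ → Subgroup G) : Prop :=
  ∀ (i k : ℕ) (φ : T i →* Multiplicative ℤ), ∀ᶠ j in atTop, ∀ x ∈ N j, ∃ h : x ∈ T i,
    ((p ^ k : ℕ) : ℤ) ∣ Multiplicative.toAdd (φ ⟨x, h⟩)

/-- eventually contained in all normal subgroups of `H` of `p`-power index -/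
def PCofinal {G : Type} [Group G] (p : ℕ) (H : Subgroup G) (N : ℕ → Subgroup G) : Prop :=
  ∀ B : Subgroup H, B.Normal → (∃ k : ℕ, B.index = p ^ k) → ∀ᶠ i in atTop, N i ≤ B.map H.subtype

end RFC
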