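import Pool.Agent.Lib.MP_83fbc5_gt.RFC.E5
import Pool.Agent.Lib.MP_83fbc5_gt.RFC.WDefs

/-!
# RFC, module E7: convergence for one rich sequence

PROOF. `rich_of_richin`: for a subgroup `S` of `H` take `S.map H.subtype`, transport `φ` along `S ≃ S.map H.subtype`
(`Subgroup.equivMapOfInjective`), `qs_fix`. `conv_rich`: as `conv_one` in E5 with `rich_of_richin` instead of `rich_of_vi`.
-/

set_option autoImplicit false

namespace RFC

open Filter

universe w

theorem rich_of_richin {G : Type} [Group G] (H : Subgroup G) (N : ℕ → Subgroup G) [∀ i, (N i).Normal] (hN : RichIn H N) :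
    Rich (fun i => qs ((N i).subgroupOf H)) := by
  intro S hS hS'
  let e : S ≃* S.map H.subtype := S.equivMapOfInjective H.subtype (Subgroup.subtype_injective H)
  have hle : S.map H.subtype ≤ H := by
    rintro x ⟨y, _, rfl⟩
    exact y.2
  have hfg : (S.map H.subtype).FG := by
    obtain ⟨T, hT⟩ := hS
    refine (Subgroup.fg_iff _).2 ⟨H.subtype '' (T : Set H), ?_, T.finite_toSet.image _⟩
    rw [← MonoidHom.map_closure, hT]
  have hne : S.map H.subtype ≠ ⊥ := by
    intro hb
    exact hS' ((Subgroup.map_eq_bot_iff_of_injective S (Subgroup.subtype_injective H)).1 hb)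
  obtain ⟨φ, hφ, hm⟩ := hN.2 _ hle hfg hne
  refine ⟨φ.comp e.toMonoidHom, hφ.comp e.surjective, fun n => ?_⟩
  obtain ⟨m, hnm, hm⟩ := hm n
  refine ⟨m, hnm, ?_⟩
  filter_upwards [hm] with i hi x s hs
  have h1 := qs_fix _ _ _ hs
  exact hi (e s) h1

theorem conv_rich (F : Type w) [Field F] {G : Type} [Group G] (H : Subgroup G) [H.FiniteIndex] {m n : Type} [Fintype m]
    [Fintype n] (A : Matrix m n (MonoidAlgebra ℤ G)) (N : ℕ → Subgroup G) [∀ i, (N i).Normal] [∀ i, (N i).FiniteIndex]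
    (hN : RichIn H N) :
    ∃ r : ℕ, Tendsto (fun i => (NBT.rk F (N i) A : ℝ) / ((N i).index : ℝ)) atTop (nhds ((r : ℝ) / (H.index : ℝ))) := by
  classical
  obtain ⟨t, ht⟩ := exists_reps H
  letI : Fintype (G ⧸ H) := Fintype.ofFinite _
  obtain ⟨A', hA'⟩ := exists_res (K := F) H t ht
    (A.map (MonoidAlgebra.mapRingHom G (Int.castRingHom F)))
  have _ : ∀ i, ((N i).subgroupOf H).FiniteIndex := fun i => inferInstance
  letI : ∀ i, Fintype (H ⧸ (N i).subgroupOf H) := fun i => Fintype.ofFinite _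
  letI : ∀ i, Fintype (G ⧸ N i) := fun i => Fintype.ofFinite _
  obtain ⟨r, hr⟩ := main_rich F (X := fun i => H ⧸ (N i).subgroupOf H)
    (fun i => qs ((N i).subgroupOf H)) (rich_of_richin H N hN) A'
  refine ⟨r, ?_⟩
  refine Tendsto.congr' ?_ (hr.div_const (H.index : ℝ))
  filter_upwards [hN.1] with i hi
  obtain ⟨f, hf1, hf2⟩ := exists_incl H (N i) hi t ht
  rw [rk_eq F (N i) A, hA' (G ⧸ N i) (H ⧸ (N i).subgroupOf H) (qs (N i))
    (qs ((N i).subgroupOf H)) f hf1 hf2]
  have h1 : (N i).index = Fintype.card (H ⧸ (N i).subgroupOf H) * H.index := by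
    rw [← Subgroup.relIndex_mul_index hi, Subgroup.relIndex, Subgroup.index_eq_card,
      Nat.card_eq_fintype_card]
  rw [h1, Nat.cast_mul, div_div]

end RFC
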