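import Pool.Agent.Lib.MP_83fbc5_gt.Basic
import Pool.Agent.Lib.MP_83fbc5_gt.RFC.CDefs

/-!
# RFC: quotients by normal subgroups, the class `VI`, cofinal sequences
-/

set_option autoImplicit false

namespace RFC

open Matrix Filter

/-- the action of `G` on `G/N` by right multiplication with the inverse -/
def qs {G : Type} [Group G] (N : Subgroup G) [N.Normal] : G →* Equiv.Perm (G ⧸ N) where
  toFun g := Equiv.mulRight (QuotientGroup.mk' N g)⁻¹
  map_one' := by
    ext x
    simp
  map_mul' g h := by
    ext x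
    simp [mul_assoc]

theorem qs_apply {G : Type} [Group G] (N : Subgroup G) [N.Normal] (g : G) (x : G ⧸ N) :
    qs N g x = x * (QuotientGroup.mk' N g)⁻¹ := rfl

theorem qs_fix {G : Type} [Group G] (N : Subgroup G) [N.Normal] (g : G) (x : G ⧸ N) (h : qs N g x = x) : g ∈ N := by
  rw [qs_apply] at h
  have h1 : (QuotientGroup.mk' N g)⁻¹ = 1 := mul_eq_left.mp h
  rw [inv_eq_one] at h1
  exact (QuotientGroup.eq_one_iff g).mp h1

/-- every nontrivial finitely generated subgroup `S` has a surjection `φ : S → ℤ` such that for infinitely many `m` the subgroup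
`φ⁻¹(m ℤ)` contains the intersection of `S` with a subgroup of finite index of `G` -/
def VI (G : Type) [Group G] : Prop :=
  ∀ S : Subgroup G, S.FG → S ≠ ⊥ → ∃ φ : S →* Multiplicative ℤ, Function.Surjective φ ∧
    ∀ n : ℕ, ∃ m : ℕ, n < m ∧ ∃ B : Subgroup G, B.FiniteIndex ∧
      ∀ s : S, (s : G) ∈ B → (m : ℤ) ∣ Multiplicative.toAdd (φ s)

/-- a sequence of subgroups which is eventually contained in every subgroup of finite index -/
def Cofinal {G : Type} [Group G] (N : ℕ → Subgroup G) : Prop :=
  ∀ B : Subgroup G, B.FiniteIndex → ∀ᶠ i in atTop, N i ≤ B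

end RFC
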