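import Mathlib

/-!
# MP_83fbc5_gt, RFC: definitions

`/team-store/RFC_PROOF.md` is the paper proof. Shapes and expressions (sections 1, 2), twisted power series, extensions.
-/

set_option autoImplicit false

namespace RFC

universe u v w

/-! ## Shapes -/

/-- shapes of rational expressions: `1`, sum, product, inverse -/
inductive Sh : Type
  | o : Sh
  | a : Sh → Sh → Sh
  | m : Sh → Sh → Sh
  | i : Sh → Sh

/-- the recursive path order on shapes -/
inductive Lt : Sh → Sh → Prop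
  | a_l {s x y : Sh} : Lt s x → Lt s (Sh.a x y)
  | a_l' {x y : Sh} : Lt x (Sh.a x y)
  | a_r {s x y : Sh} : Lt s y → Lt s (Sh.a x y)
  | a_r' {x y : Sh} : Lt y (Sh.a x y)
  | a_ll {s t x y : Sh} : Lt s x → Lt t y → Lt (Sh.a s t) (Sh.a x y)
  | a_le {s x y : Sh} : Lt s x → Lt (Sh.a s y) (Sh.a x y)
  | a_el {t x y : Sh} : Lt t y → Lt (Sh.a x t) (Sh.a x y)
  | m_l {s x y : Sh} : Lt s x → Lt s (Sh.m x y)
  | m_l' {x y : Sh} : Lt x (Sh.m x y)
  | m_r {s x y : Sh} : Lt s y → Lt s (Sh.m x y)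
  | m_r' {x y : Sh} : Lt y (Sh.m x y)
  | m_ll {s t x y : Sh} : Lt s x → Lt t y → Lt (Sh.m s t) (Sh.m x y)
  | m_le {s x y : Sh} : Lt s x → Lt (Sh.m s y) (Sh.m x y)
  | m_el {t x y : Sh} : Lt t y → Lt (Sh.m x t) (Sh.m x y)
  | m_a {s t x y : Sh} : Lt s (Sh.m x y) → Lt t (Sh.m x y) → Lt (Sh.a s t) (Sh.m x y)
  | i_s {s x : Sh} : Lt s x → Lt s (Sh.i x)
  | i_s' {x : Sh} : Lt x (Sh.i x)
  | i_i {s x : Sh} : Lt s x → Lt (Sh.i s) (Sh.i x)
  | i_a {s t x : Sh} : Lt s (Sh.i x) → Lt t (Sh.i x) → Lt (Sh.a s t) (Sh.i x)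
  | i_m {s t x : Sh} : Lt s (Sh.i x) → Lt t (Sh.i x) → Lt (Sh.m s t) (Sh.i x)

/-! ## Expressions -/

/-- rational expressions over a group `Γ`: `1`, `p + q w`, `p q`, `p⁻¹` -/
inductive Ex (Γ : Type u) : Type u
  | one : Ex Γ
  | add : Ex Γ → Ex Γ → Γ → Ex Γ
  | mul : Ex Γ → Ex Γ → Ex Γ
  | inv : Ex Γ → Ex Γ

section

variable {Γ : Type u}

/-- the shape of an expression -/
def Ex.sh : Ex Γ → Sh
  | .one => Sh.o
  | .add p q _ => Sh.a p.sh q.sh
  | .mul p q => Sh.m p.sh q.sh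
  | .inv p => Sh.i p.sh

/-- the set of the group elements used in an expression -/
def Ex.ws : Ex Γ → Set Γ
  | .one => ∅
  | .add p q w => p.ws ∪ q.ws ∪ {w}
  | .mul p q => p.ws ∪ q.ws
  | .inv p => p.ws

variable [Group Γ]

/-- conjugation of all group elements by `g` -/
def Ex.conj (g : Γ) : Ex Γ → Ex Γ
  | .one => .one
  | .add p q w => .add (p.conj g) (q.conj g) (g * w * g⁻¹)
  | .mul p q => .mul (p.conj g) (q.conj g)
  | .inv p => .inv (p.conj g)

variable {U : Type v} [Ring U]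

/-- the value of an expression (relation: inverses need units) -/
inductive Val (ρ : Γ →* Uˣ) : Ex Γ → U → Prop
  | one : Val ρ Ex.one 1
  | add {p q : Ex Γ} {a b : U} (w : Γ) : Val ρ p a → Val ρ q b → Val ρ (Ex.add p q w) (a + b * (ρ w : U))
  | mul {p q : Ex Γ} {a b : U} : Val ρ p a → Val ρ q b → Val ρ (Ex.mul p q) (a * b)
  | inv {p : Ex Γ} {c : Uˣ} : Val ρ p (c : U) → Val ρ (Ex.inv p) ((c⁻¹ : Uˣ) : U)

end

/-! ## Twisted power series and extensions -/

/-- a subring `C` of `U` closed under inverses of units and normalised by the unit `t` -/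
structure Datum (U : Type v) [Ring U] where
  C : Subring U
  t : Uˣ
  conj : ∀ c ∈ C, (t : U) * c * ((t⁻¹ : Uˣ) : U) ∈ C
  conj' : ∀ c ∈ C, ((t⁻¹ : Uˣ) : U) * c * (t : U) ∈ C
  inv : ∀ c : Uˣ, (c : U) ∈ C → ((c⁻¹ : Uˣ) : U) ∈ C

section

variable {U : Type v} [Ring U] (d : Datum U)

/-- the `n`-th twisted coefficient `f_n t^(-n)` -/
noncomputable def Datum.cf (f : PowerSeries U) (n : ℕ) : U :=
  PowerSeries.coeff n f * (((d.t ^ n)⁻¹ : Uˣ) : U)

/-- conjugates by powers of `t` stay in `C` -/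
theorem Datum.conj_pow (n : ℕ) {c : U} (hc : c ∈ d.C) : ((d.t ^ n : Uˣ) : U) * c * (((d.t ^ n)⁻¹ : Uˣ) : U) ∈ d.C := by
  induction n with
  | zero => simpa using hc
  | succ n ih =>
    have h := d.conj _ ih
    rw [pow_succ', mul_inv_rev, Units.val_mul, Units.val_mul]
    simpa only [mul_assoc] using h

/-- power series `f` with `f_n t^(-n) ∈ C` for all `n` -/
noncomputable def Datum.S : Subring (PowerSeries U) where
  carrier := {f | ∀ n, d.cf f n ∈ d.C}
  zero_mem' n := by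
    simp only [Datum.cf, map_zero, zero_mul, zero_mem]
  one_mem' n := by
    simp only [Datum.cf, PowerSeries.coeff_one]
    split_ifs with h
    · subst h; simp
    · simp
  add_mem' {f g} hf hg n := by
    have h : d.cf (f + g) n = d.cf f n + d.cf g n := by simp only [Datum.cf, map_add, add_mul]
    rw [h]
    exact add_mem (hf n) (hg n)
  neg_mem' {f} hf n := by
    have h : d.cf (-f) n = - d.cf f n := by simp only [Datum.cf, map_neg, neg_mul]
    rw [h]
    exact neg_mem (hf n)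
  mul_mem' {f g} hf hg n := by
    have h : d.cf (f * g) n = ∑ p ∈ Finset.HasAntidiagonal.antidiagonal n,
        d.cf f p.1 * (((d.t ^ p.1 : Uˣ) : U) * d.cf g p.2 * (((d.t ^ p.1)⁻¹ : Uˣ) : U)) := by
      simp only [Datum.cf, PowerSeries.coeff_mul, Finset.sum_mul]
      refine Finset.sum_congr rfl fun p hp => ?_
      rw [Finset.HasAntidiagonal.mem_antidiagonal] at hp
      have e : ((d.t ^ n)⁻¹ : Uˣ) = (d.t ^ p.2)⁻¹ * (d.t ^ p.1)⁻¹ := by
        rw [← mul_inv_rev, ← pow_add, hp]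
      rw [e, Units.val_mul]
      simp only [mul_assoc, Units.inv_mul_cancel_left]
    rw [h]
    exact sum_mem fun p _ => mul_mem (hf p.1) (d.conj_pow p.1 (hg p.2))

theorem Datum.cf_mul (f g : PowerSeries U) (n : ℕ) : d.cf (f * g) n = ∑ p ∈ Finset.HasAntidiagonal.antidiagonal n,
    d.cf f p.1 * (((d.t ^ p.1 : Uˣ) : U) * d.cf g p.2 * (((d.t ^ p.1)⁻¹ : Uˣ) : U)) := by
  simp only [Datum.cf, PowerSeries.coeff_mul, Finset.sum_mul]
  refine Finset.sum_congr rfl fun p hp => ?_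
  rw [Finset.HasAntidiagonal.mem_antidiagonal] at hp
  have e : ((d.t ^ n)⁻¹ : Uˣ) = (d.t ^ p.2)⁻¹ * (d.t ^ p.1)⁻¹ := by
    rw [← mul_inv_rev, ← pow_add, hp]
  rw [e, Units.val_mul]
  simp only [mul_assoc, Units.inv_mul_cancel_left]

/-- constants of `C` as elements of `S` -/
theorem Datum.C_mem {c : U} (hc : c ∈ d.C) : PowerSeries.C c ∈ d.S := by
  intro n
  simp only [Datum.cf, PowerSeries.coeff_C]
  split_ifs with h
  · subst h; simpa using hc
  · simp

/-- `t X` as an element of `S` -/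
theorem Datum.X_mem : PowerSeries.C (d.t : U) * PowerSeries.X ∈ d.S := by
  intro n
  simp only [Datum.cf, PowerSeries.coeff_C_mul, PowerSeries.coeff_X]
  split_ifs with h
  · subst h; simp
  · simp

/-- an extension `U'` of `U` in which the twisted power series are defined -/
structure Ext where
  U' : Type v
  [ring : Ring U']
  j : U →+* U'
  inj : Function.Injective j
  refl : ∀ c, IsUnit (j c) → IsUnit c
  Th : d.S →+* U'
  Th_C : ∀ (c : U) (hc : c ∈ d.C), Th ⟨PowerSeries.C c, d.C_mem hc⟩ = j c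
  Th_X : Th ⟨PowerSeries.C (d.t : U) * PowerSeries.X, d.X_mem⟩ = j d.t

attribute [instance] Ext.ring

/-- the image of `t` in `U'` -/
noncomputable def Ext.tu {d : Datum U} (E : Ext d) : E.U'ˣ := Units.map E.j.toMonoidHom d.t

end

/-! ## Good subgroups, the conclusion of Theorem T -/

section

variable {Γ : Type u} [Group Γ] {U : Type v} [Ring U] (ρ : Γ →* Uˣ)

/-- `c` is `0` or `b ρ(g)` with `g ∈ N` and `b` the value of an expression over `N` with shape smaller than `x` -/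
def Zs (N : Subgroup Γ) (x : Sh) (c : U) : Prop :=
  c = 0 ∨ ∃ (e : Ex Γ) (g : Γ) (b : U), e.ws ⊆ N ∧ g ∈ N ∧ Lt e.sh x ∧ Val ρ e b ∧ c = b * (ρ g : U)

/-- the data of a good subgroup `S`: `N` is the kernel of `S → ℤ`, `t0 ∈ S` maps to the generator -/
structure Good (S : Subgroup Γ) where
  φ : S →* Multiplicative ℤ
  t0 : S
  ht0 : φ t0 = Multiplicative.ofAdd 1
  d : Datum U
  dt : d.t = ρ t0
  hC : ∀ ν : S, φ ν = 1 → ((ρ ν : Uˣ) : U) ∈ d.C
  E : Ext d

/-- the kernel of `φ` as a subgroup of `Γ` -/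
def Good.N {S : Subgroup Γ} (G : Good ρ S) : Subgroup Γ := G.φ.ker.map S.subtype

/-- the decomposition of the value `a` of `e` -/
def Dec {S : Subgroup Γ} (G : Good ρ S) (e : Ex Γ) (a : U) : Prop :=
  e.ws ⊆ G.N ∨ ∃ (k : ℤ) (f : G.d.S), G.E.j a = G.E.Th f * ((G.E.tu ^ k : G.E.U'ˣ) : G.E.U') ∧
    ∀ n, Zs ρ G.N e.sh (G.d.cf f n)

/-- all values of expressions of shape `x` are `0` or units -/
def PP (x : Sh) : Prop := ∀ e : Ex Γ, e.sh = x → ∀ a : U, Val ρ e a → a = 0 ∨ IsUnit a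

end

end RFC
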