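import Pool.Agent.Lib.MP_83fbc5_gt.RFC.VDefs

/-!
# RFC, module V0: division of a homomorphism to `ℤ`; preimages of `mℤ`

PROOF. `exists_div_hom`: the image of `φ` is a nontrivial subgroup of `ℤ`, generated by some `d > 0` (`Int.subgroup_cyclic`,
`AddSubgroup` of `ℤ`, or take for `d` the least positive value); every value is `d * c`, `c` additive in `s`; the value `d` is taken, so `φ'` is
surjective. `preim_fin`: `{x ∈ T | d m ∣ φ x}` is the kernel of `T → ℤ → ℤ/(dm)`, of finite index in `T`, so its image has finite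
index in `H` (`Subgroup.finiteIndex_ker`, `Subgroup.index_map_subtype` or `relIndex_mul_index`).
(25 minutes)
-/

set_option autoImplicit false

namespace RFC

theorem exists_div_hom {S : Type} [Group S] (φ : S →* Multiplicative ℤ) (x : S) (hx : φ x ≠ 1) :
    ∃ (d : ℕ) (φ' : S →* Multiplicative ℤ), 0 < d ∧ Function.Surjective φ' ∧
      ∀ s, Multiplicative.toAdd (φ s) = (d : ℤ) * Multiplicative.toAdd (φ' s) := by
  let A : AddSubgroup ℤ :=
    { carrier := {n | ∃ s, Multiplicative.toAdd (φ s) = n}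
      zero_mem' := ⟨1, by rw [map_one, toAdd_one]⟩
      add_mem' := by
        rintro a b ⟨s, rfl⟩ ⟨t, rfl⟩
        exact ⟨s * t, by rw [map_mul, toAdd_mul]⟩
      neg_mem' := by
        rintro a ⟨s, rfl⟩
        exact ⟨s⁻¹, by rw [map_inv, toAdd_inv]⟩ }
  obtain ⟨a, ha⟩ := Int.subgroup_cyclic A
  have hmem : ∀ s, a ∣ Multiplicative.toAdd (φ s) := by
    intro s
    have h1 : Multiplicative.toAdd (φ s) ∈ A := ⟨s, rfl⟩
    rw [ha, AddSubgroup.mem_closure_singleton] at h1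
    obtain ⟨k, hk⟩ := h1
    exact ⟨k, by rw [← hk, smul_eq_mul, mul_comm]⟩
  have ha0 : a ≠ 0 := by
    rintro rfl
    have h1 := zero_dvd_iff.1 (hmem x)
    exact hx (toAdd_eq_zero.1 h1)
  have hd : (0 : ℕ) < a.natAbs := Int.natAbs_pos.2 ha0
  have hd0 : ((a.natAbs : ℕ) : ℤ) ≠ 0 := by omega
  have hdvd : ∀ s, ((a.natAbs : ℕ) : ℤ) ∣ Multiplicative.toAdd (φ s) := fun s =>
    Int.natAbs_dvd.2 (hmem s)
  have hdA : ((a.natAbs : ℕ) : ℤ) ∈ A := by
    have haA : a ∈ A := by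
      rw [ha]; exact AddSubgroup.subset_closure (Set.mem_singleton a)
    rcases Int.natAbs_eq a with h1 | h1
    · rw [← h1]; exact haA
    · have h2 : ((a.natAbs : ℕ) : ℤ) = -a := by omega
      rw [h2]; exact neg_mem haA
  obtain ⟨y, hy⟩ := hdA
  refine ⟨a.natAbs,
    { toFun := fun s => Multiplicative.ofAdd (Multiplicative.toAdd (φ s) / ((a.natAbs : ℕ) : ℤ))
      map_one' := by rw [map_one, toAdd_one, Int.zero_ediv, ofAdd_zero]
      map_mul' := fun s t => by
        rw [map_mul, toAdd_mul, Int.add_ediv_of_dvd_left (hdvd s), ofAdd_add] }, hd, ?_, ?_⟩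
  · intro n
    refine ⟨y ^ (Multiplicative.toAdd n), ?_⟩
    change Multiplicative.ofAdd (Multiplicative.toAdd (φ (y ^ (Multiplicative.toAdd n))) / ((a.natAbs : ℕ) : ℤ)) = n
    rw [map_zpow, toAdd_zpow, hy, smul_eq_mul, Int.mul_ediv_cancel _ hd0, ofAdd_toAdd]
  · intro s
    change Multiplicative.toAdd (φ s) = ((a.natAbs : ℕ) : ℤ) * (Multiplicative.toAdd (φ s) / ((a.natAbs : ℕ) : ℤ))
    rw [Int.mul_ediv_cancel' (hdvd s)]

theorem preim_fin {H : Type} [Group H] (T : Subgroup H) [T.FiniteIndex] (φ : T →* Multiplicative ℤ) (m : ℕ) (hm : 0 < m) :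
    ∃ B : Subgroup H, B.FiniteIndex ∧ ∀ x : H, x ∈ B ↔ ∃ h : x ∈ T, (m : ℤ) ∣ Multiplicative.toAdd (φ ⟨x, h⟩) := by
  have : NeZero m := ⟨hm.ne'⟩
  let ψ : T →* Multiplicative (ZMod m) := (AddMonoidHom.toMultiplicative (Int.castAddHom (ZMod m))).comp φ
  have : Finite (Multiplicative (ZMod m)) := inferInstanceAs (Finite (ZMod m))
  have : ψ.ker.FiniteIndex := Subgroup.finiteIndex_ker ψ
  refine ⟨ψ.ker.map T.subtype, ⟨?_⟩, fun x => ?_⟩
  · rw [Subgroup.index_map_subtype]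
    exact mul_ne_zero Subgroup.FiniteIndex.index_ne_zero Subgroup.FiniteIndex.index_ne_zero
  · have hker : ∀ t : T, t ∈ ψ.ker ↔ (m : ℤ) ∣ Multiplicative.toAdd (φ t) := by
      intro t
      rw [MonoidHom.mem_ker, ← ZMod.intCast_zmod_eq_zero_iff_dvd]
      rfl
    constructor
    · intro hx
      obtain ⟨t, ht, rfl⟩ := Subgroup.mem_map.1 hx
      exact ⟨t.2, (hker t).1 ht⟩
    · rintro ⟨h, hd⟩
      exact Subgroup.mem_map.2 ⟨⟨x, h⟩, (hker _).2 hd, rfl⟩

end RFC
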