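import Pool.Agent.Lib.MP_83fbc5_gt.RFC.V0

/-!
# RFC, module V1: RFRS groups are of class `VI`

PROOF. Let `S ≠ ⊥`. There is `j` with `¬ S ≤ T j` (intersection trivial); the least such `j` (`Nat.find`) is `i + 1` (`T 0 = ⊤`), so `S ≤ T i` and
there is `x ∈ S` with `x ∉ T (i + 1)`; `φ : T i → ℤ` with `φ x ≠ 1`. Restrict to `S` (`Subgroup.inclusion`), `exists_div_hom` gives `d`, `φ'`. For
`n` take `m = n + 1` and `B` from `preim_fin` for `d * m`: if `s ∈ S ∩ B` then `d m ∣ φ s = d φ' s`, so `m ∣ φ' s`.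
(20-30 minutes)
-/

set_option autoImplicit false

namespace RFC

theorem vi_rfrs {H : Type} [Group H] (h : RFRS H) : VI H := by
  obtain ⟨T, h0, -, hfin, hinf, hdet⟩ := h
  intro S _ hS
  obtain ⟨x0, hx0, hx1⟩ := (Subgroup.ne_bot_iff_exists_ne_one).1 hS |>.elim
    fun a ha => (⟨(a : H), a.2, fun h => ha (Subtype.ext h)⟩ : ∃ x0 : H, x0 ∈ S ∧ x0 ≠ 1)
  have hex : ∃ j, ¬ S ≤ T j := by
    by_contra hcon
    push Not at hcon
    have h1 : x0 ∈ ⨅ i, T i := (Subgroup.mem_iInf).2 fun i => hcon i hx0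
    rw [hinf, Subgroup.mem_bot] at h1
    exact hx1 h1
  classical
  have hj := Nat.find_spec hex
  have hmin : ∀ i, i < Nat.find hex → S ≤ T i := fun i hi => by
    by_contra hc
    exact Nat.find_min hex hi hc
  have hj0 : Nat.find hex ≠ 0 := by
    intro h1
    rw [h1, h0] at hj
    exact hj le_top
  obtain ⟨i, hi⟩ := Nat.exists_eq_succ_of_ne_zero hj0
  rw [hi] at hj
  have hle : S ≤ T i := hmin i (by omega)
  obtain ⟨x, hxS, hxT⟩ := SetLike.not_le_iff_exists.1 hj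
  obtain ⟨φ, hφ⟩ := hdet i ⟨x, hle hxS⟩ hxT
  have := hfin i
  obtain ⟨d, φ', hd, hsurj, hφ'⟩ := exists_div_hom (φ.comp (Subgroup.inclusion hle)) ⟨x, hxS⟩ hφ
  refine ⟨φ', hsurj, fun n => ⟨n + 1, by omega, ?_⟩⟩
  obtain ⟨B, hB, hmem⟩ := preim_fin (T i) φ (d * (n + 1)) (by positivity)
  refine ⟨B, hB, fun s hs => ?_⟩
  obtain ⟨h1, h2⟩ := (hmem _).1 hs
  have h3 : Multiplicative.toAdd (φ ⟨(s : H), h1⟩) = (d : ℤ) * Multiplicative.toAdd (φ' s) := hφ' s
  rw [h3] at h2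
  push_cast at h2
  have hd' : (d : ℤ) ≠ 0 := by positivity
  have h4 := (mul_dvd_mul_iff_left hd').1 h2
  push_cast
  exact h4

end RFC
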