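import Pool.Agent.Lib.MP_83fbc5_gt.RFC.VDefs

/-!
# RFC, module V2: locally indicable LERF groups are of class `VI`

PROOF. `φ` from `LocInd`, `m = n + 1`, `y ∈ S` with `φ y = ofAdd 1`. `S' = {s ∈ S | m ∣ φ s}` as a subgroup of `H`: the kernel of `S → ℤ/m` has finite
index in `S`, so it is finitely generated (`Subgroup.fg_of_index_ne_zero`, Schreier), hence `S'` (its image in `H`) is. For
`0 < k < m` we have `y ^ k ∉ S'`, so there is `B k` of finite index with `S' ≤ B k`, `y ^ k ∉ B k`. `B = ⨅ k, B k` over `k : Fin m`, `k ≠ 0`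
(finite intersections of subgroups of finite index: `Subgroup.finiteIndex_iInf`, instances). If `s ∈ S ∩ B`, let `k = φ s mod m`; `y ^ (-k) * s ∈ S' ≤ B`, so
`y ^ k ∈ B`, so `k = 0`.
(30 minutes)
-/

set_option autoImplicit false

namespace RFC

theorem vi_lerf {H : Type} [Group H] (h : LERF H) (h' : LocInd H) : VI H := by
  intro S hS hne
  obtain ⟨φ, hφ⟩ := h' S hS hne
  refine ⟨φ, hφ, fun n => ⟨n + 1, by omega, ?_⟩⟩
  obtain ⟨y, hy⟩ := hφ (Multiplicative.ofAdd 1)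
  have : Finite (Multiplicative (ZMod (n + 1))) := inferInstanceAs (Finite (ZMod (n + 1)))
  let ψ : S →* Multiplicative (ZMod (n + 1)) :=
    (AddMonoidHom.toMultiplicative (Int.castAddHom (ZMod (n + 1)))).comp φ
  have : ψ.ker.FiniteIndex := Subgroup.finiteIndex_ker ψ
  have hker : ∀ t : S, t ∈ ψ.ker ↔ ((n + 1 : ℕ) : ℤ) ∣ Multiplicative.toAdd (φ t) := by
    intro t
    rw [MonoidHom.mem_ker, ← ZMod.intCast_zmod_eq_zero_iff_dvd]
    rfl
  have : Group.FG S := (Group.fg_iff_subgroup_fg S).2 hS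
  have : Group.FG ψ.ker := Subgroup.fg_of_index_ne_zero ψ.ker
  have hfg : (ψ.ker.map S.subtype).FG := by
    have h1 : ψ.ker.FG := (Group.fg_iff_subgroup_fg _).1 inferInstance
    exact (Subgroup.fg_iff_submonoid_fg _).2
      (Submonoid.FG.map ((Subgroup.fg_iff_submonoid_fg _).1 h1) S.subtype)
  have hyk : ∀ k : Fin n, ((y : H) ^ ((k : ℕ) + 1)) ∉ ψ.ker.map S.subtype := by
    intro k hk
    obtain ⟨t, ht, he⟩ := Subgroup.mem_map.1 hk
    have h1 : t = y ^ ((k : ℕ) + 1) := Subtype.ext (by simpa using he)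
    rw [h1, hker, map_pow, hy, toAdd_pow, toAdd_ofAdd, nsmul_eq_mul, mul_one] at ht
    have h2 := Int.natCast_dvd_natCast.1 ht
    have h3 := Nat.le_of_dvd (by omega) h2
    have := k.2
    omega
  choose B hB hle hnot using fun k : Fin n => h _ hfg _ (hyk k)
  have : ∀ k, (B k).FiniteIndex := hB
  refine ⟨⨅ k, B k, Subgroup.finiteIndex_iInf hB, fun s hs => ?_⟩
  rw [← hker]
  by_contra hcon
  set z : ℤ := Multiplicative.toAdd (φ s) with hz
  have hm : (0 : ℤ) < ((n + 1 : ℕ) : ℤ) := by positivity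
  have hnn := Int.emod_nonneg z hm.ne'
  have hlt := Int.emod_lt_of_pos z hm
  have hne0 : z % ((n + 1 : ℕ) : ℤ) ≠ 0 := by
    intro h1
    exact hcon ((hker s).2 (Int.dvd_of_emod_eq_zero h1))
  obtain ⟨k, hk⟩ := Int.eq_ofNat_of_zero_le hnn
  have hk1 : 1 ≤ k := by omega
  have hkn : k - 1 < n := by omega
  have hyB : ((y : H) ^ k) ∈ B ⟨k - 1, hkn⟩ := by
    have h1 : (y ^ k)⁻¹ * s ∈ ψ.ker := by
      rw [hker, map_mul, map_inv, map_pow, hy, toAdd_mul, toAdd_inv, toAdd_pow, toAdd_ofAdd,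
        nsmul_eq_mul, mul_one, ← hz]
      have h2 : z = ((n + 1 : ℕ) : ℤ) * (z / ((n + 1 : ℕ) : ℤ)) + (k : ℤ) := by
        have h3 := Int.mul_ediv_add_emod z ((n + 1 : ℕ) : ℤ)
        rw [hk] at h3
        exact h3.symm
      refine ⟨z / ((n + 1 : ℕ) : ℤ), ?_⟩
      linarith
    have h2 : (((y ^ k)⁻¹ * s : S) : H) ∈ B ⟨k - 1, hkn⟩ :=
      hle _ (Subgroup.mem_map.2 ⟨_, h1, rfl⟩)
    have h3 : (s : H) ∈ B ⟨k - 1, hkn⟩ := (Subgroup.mem_iInf).1 hs _
    have h4 : ((y : H) ^ k) = (s : H) * (((y ^ k)⁻¹ * s : S) : H)⁻¹ := by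
      push_cast
      group
    rw [h4]
    exact mul_mem h3 (inv_mem h2)
  have h5 := hnot ⟨k - 1, hkn⟩
  have h6 : k - 1 + 1 = k := by omega
  simp only at h5
  rw [h6] at h5
  exact h5 hyB

end RFC
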