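import Pool.Agent.Lib.MP_83fbc5_gt.RFC.VDefs

/-!
# RFC, module V3: residually `VI` groups; extensions

PROOF. `vi_res`: `S ≠ ⊥`, `x ∈ S`, `x ≠ 1`, `π : H → Q`, `π x ≠ 1`. `S.map π` is finitely generated (`Subgroup.FG.map`) and `≠ ⊥`;
`φ := φ0 ∘ (S → S.map π)` is surjective; `B := B0.comap π` has finite index. `vi_sub`: for `S ≤ K` take `S.map K.subtype`, transfer `φ` along the
isomorphism `S ≃ S.map K.subtype`, `B.subgroupOf K`.
`vi_ext`: if the image of `S` in `H ⧸ N` is not trivial argue as in `vi_res`. Otherwise `S ≤ N`; `S0 = S.subgroupOf N` is finitely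
generated (`S0.map N.subtype = S`, `N.subtype` injective: `Subgroup.fg_iff..`; isomorphic to `S`), `φ0 : S0 → ℤ` and `B0 ≤ N` from `VI N`; `B'` from `hind`.
(30-40 minutes)
-/

set_option autoImplicit false

namespace RFC

private theorem v3_aux {H Q : Type} [Group H] [Group Q] (hQ : VI Q) (π : H →* Q) (S : Subgroup H)
    (hS : S.FG) (hne : S.map π ≠ ⊥) :
    ∃ φ : S →* Multiplicative ℤ, Function.Surjective φ ∧
      ∀ n : ℕ, ∃ m : ℕ, n < m ∧ ∃ B : Subgroup H, B.FiniteIndex ∧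
        ∀ s : S, (s : H) ∈ B → (m : ℤ) ∣ Multiplicative.toAdd (φ s) := by
  have hfg : (S.map π).FG := by
    rw [← Group.fg_iff_subgroup_fg] at hS ⊢
    have := hS
    exact Group.fg_of_surjective (f := π.subgroupMap S) (π.subgroupMap_surjective S)
  obtain ⟨φ, hφ, hm⟩ := hQ (S.map π) hfg hne
  refine ⟨φ.comp (π.subgroupMap S), ?_, ?_⟩
  · intro y
    obtain ⟨x, hx⟩ := hφ y
    obtain ⟨z, hz⟩ := π.subgroupMap_surjective S x
    exact ⟨z, by rw [MonoidHom.comp_apply, hz, hx]⟩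
  · intro n
    obtain ⟨m, hnm, B, hB, hd⟩ := hm n
    refine ⟨m, hnm, B.comap π, ?_, ?_⟩
    · refine ⟨?_⟩
      rw [Subgroup.index_comap]
      exact fun h0 => hB.index_ne_zero (Subgroup.index_eq_zero_of_relIndex_eq_zero h0)
    · intro s hs
      exact hd (π.subgroupMap S s) hs

theorem vi_res {H : Type} [Group H]
    (h : ∀ x : H, x ≠ 1 → ∃ (Q : Type) (_ : Group Q) (π : H →* Q), VI Q ∧ π x ≠ 1) : VI H := by
  intro S hS hne
  obtain ⟨a, ha⟩ := Subgroup.ne_bot_iff_exists_ne_one.mp hne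
  obtain ⟨x, hx, hx1⟩ : ∃ x, x ∈ S ∧ x ≠ 1 := ⟨a.1, a.2, fun h0 => ha (Subtype.ext h0)⟩
  obtain ⟨Q, iQ, π, hQ, hπ⟩ := h x hx1
  refine v3_aux hQ π S hS ?_
  intro h0
  apply hπ
  have : π x ∈ S.map π := ⟨x, hx, rfl⟩
  rw [h0] at this
  exact Subgroup.mem_bot.mp this

theorem vi_sub {H : Type} [Group H] (h : VI H) (K : Subgroup H) : VI K := by
  intro S hS hne
  refine v3_aux h K.subtype S hS ?_
  intro h0
  apply hne
  exact (Subgroup.map_eq_bot_iff_of_injective S K.subtype_injective).mp h0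

theorem vi_ext {H : Type} [Group H] (N : Subgroup H) [N.Normal] (hN : VI N) (hQ : VI (H ⧸ N))
    (hind : ∀ B : Subgroup N, B.FiniteIndex → ∃ B' : Subgroup H, B'.FiniteIndex ∧ ∀ x : N, (x : H) ∈ B' → x ∈ B) : VI H := by
  intro S hS hne
  by_cases hmap : S.map (QuotientGroup.mk' N) = ⊥
  · have hSN : S ≤ N := by
      intro x hx
      have : QuotientGroup.mk' N x ∈ S.map (QuotientGroup.mk' N) := ⟨x, hx, rfl⟩
      rw [hmap] at this
      exact (QuotientGroup.eq_one_iff x).mp (Subgroup.mem_bot.mp this)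
    let e : S.subgroupOf N ≃* S := Subgroup.subgroupOfEquivOfLe hSN
    have hfg : (S.subgroupOf N).FG := by
      rw [← Group.fg_iff_subgroup_fg]
      rw [← Group.fg_iff_subgroup_fg] at hS
      have := hS
      exact Group.fg_of_surjective (f := e.symm.toMonoidHom) e.symm.surjective
    have hne' : S.subgroupOf N ≠ ⊥ := by
      intro h0
      apply hne
      rw [Subgroup.subgroupOf_eq_bot] at h0
      exact (disjoint_iff.mp h0 ▸ (inf_eq_left.mpr hSN).symm)
    obtain ⟨φ, hφ, hm⟩ := hN (S.subgroupOf N) hfg hne'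
    refine ⟨φ.comp e.symm.toMonoidHom, hφ.comp e.symm.surjective, ?_⟩
    intro n
    obtain ⟨m, hnm, B, hB, hd⟩ := hm n
    obtain ⟨B', hB', hi⟩ := hind B hB
    refine ⟨m, hnm, B', hB', ?_⟩
    intro s hs
    exact hd (e.symm s) (hi ⟨(s : H), hSN s.2⟩ hs)
  · exact v3_aux hQ (QuotientGroup.mk' N) S hS hmap

end RFC
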