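import Pool.Agent.Lib.MP_83fbc5_gt.RFC.V3
import Pool.Agent.Lib.MP_83fbc5_gt.RFC.V4

/-!
# RFC, module V5: semidirect products with finitely generated kernel

PROOF. `H = N ⋊ Q`. Apply `vi_ext` to the kernel `N0 = (SemidirectProduct.rightHom).ker = range inl`, isomorphic to `N`; `H ⧸ N0 ≃ Q`
(`QuotientGroup.quotientKerEquivOfSurjective`). `VI` is invariant under isomorphism (`vi_res` applied to the isomorphism). `hind`: for
`B ≤ N0` of finite index, let `B1 ≤ N` be the corresponding subgroup, `K = Kn N B1.index ≤ B1`, of finite index in `N` and mapped to itself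
by all automorphisms (`kn_map`). `B' = {x | x.left ∈ K}` is a subgroup of `H` (`(n q)(n' q') = n φ_q(n') q q'`, inverse `φ_q⁻¹(n⁻¹)`), of finite index:
`x, y` with `x.left⁻¹ y.left ∈ ...`: the map `H → N ⧸ K`, `x ↦ class of x.left`, satisfies: `x⁻¹ y ∈ B'` iff `x.left⁻¹ * y.left ∈ K`
(up to `φ`), so `H ⧸ B'` injects into `N ⧸ K`. And `inl n ∈ B'` iff `n ∈ K`.
(40 minutes)
-/

set_option autoImplicit false

namespace RFC

private theorem V5_char {N : Type} [Group N] (m : ℕ) (α : MulAut N) (x : N) : α x ∈ Kn N m ↔ x ∈ Kn N m := by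
  constructor
  · intro h
    have h1 := kn_map m α.symm (α x) h
    rwa [MulEquiv.symm_apply_apply] at h1
  · exact kn_map m α x

theorem vi_semi {N Q : Type} [Group N] [Group Q] [Group.FG N] (φ : Q →* MulAut N) (hN : VI N) (hQ : VI Q) : VI (N ⋊[φ] Q) := by
  let N0 : Subgroup (N ⋊[φ] Q) := (SemidirectProduct.rightHom : N ⋊[φ] Q →* Q).ker
  have hr : ∀ x : N0, (x : N ⋊[φ] Q).right = 1 := fun x => x.2
  -- the kernel is isomorphic to `N`
  have h1 : VI N0 := by
    refine vi_res fun x hx => ⟨N, inferInstance, ?_, hN, ?_⟩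
    · exact
        { toFun := fun y => (y : N ⋊[φ] Q).left
          map_one' := rfl
          map_mul' := by
            intro y z
            rw [Subgroup.coe_mul, SemidirectProduct.mul_left, hr y, map_one, MulAut.one_apply] }
    · intro h0
      apply hx
      apply Subtype.ext
      apply SemidirectProduct.ext
      · exact h0
      · exact hr x
  have h2 : VI ((N ⋊[φ] Q) ⧸ N0) := by
    refine vi_res fun x hx => ⟨Q, inferInstance,
      (QuotientGroup.quotientKerEquivOfSurjective (SemidirectProduct.rightHom : N ⋊[φ] Q →* Q)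
        SemidirectProduct.rightHom_surjective).toMonoidHom, hQ, ?_⟩
    intro h0
    apply hx
    exact (MulEquiv.map_eq_one_iff _).mp h0
  refine vi_ext N0 h1 h2 ?_
  intro B hB
  let ι : N →* N0 := (SemidirectProduct.inl : N →* N ⋊[φ] Q).codRestrict N0
    (fun n => SemidirectProduct.right_inl (φ := φ) n)
  have hB1 : (B.comap ι).FiniteIndex := ⟨by
    rw [Subgroup.index_comap]
    exact Subgroup.FiniteIndex.index_ne_zero (H := B.subgroupOf ι.range)⟩
  obtain ⟨m, hm⟩ : ∃ m, m = (B.comap ι).index := ⟨_, rfl⟩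
  have hK : Kn N m ≤ B.comap ι := by rw [hm]; exact kn_le _
  have hKf : (Kn N m).FiniteIndex := kn_fin N m
  let B' : Subgroup (N ⋊[φ] Q) :=
    { carrier := {x | x.left ∈ Kn N m}
      mul_mem' := by
        intro a b ha hb
        show (a * b).left ∈ Kn N m
        rw [SemidirectProduct.mul_left]
        exact mul_mem ha ((V5_char m _ _).mpr hb)
      one_mem' := one_mem (Kn N m)
      inv_mem' := by
        intro a ha
        show (a⁻¹).left ∈ Kn N m
        rw [SemidirectProduct.inv_left]
        exact (V5_char m _ _).mpr (inv_mem ha) }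
  have key : ∀ x y : N ⋊[φ] Q, x⁻¹ * y ∈ B' ↔ x.left⁻¹ * y.left ∈ Kn N m := by
    intro x y
    show (x⁻¹ * y).left ∈ Kn N m ↔ _
    rw [SemidirectProduct.mul_left, SemidirectProduct.inv_left, SemidirectProduct.inv_right, ← map_mul]
    exact V5_char m _ _
  have hfin : Finite ((N ⋊[φ] Q) ⧸ B') := by
    have hq : Finite (N ⧸ Kn N m) := Subgroup.finite_quotient_of_finiteIndex
    let g : (N ⋊[φ] Q) ⧸ B' → N ⧸ Kn N m :=
      Quotient.lift (fun x => (QuotientGroup.mk x.left : N ⧸ Kn N m)) (by
        intro a b hab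
        exact QuotientGroup.eq.mpr ((key a b).mp (QuotientGroup.leftRel_apply.mp hab)))
    refine Finite.of_injective g ?_
    rintro ⟨a⟩ ⟨b⟩ hab
    exact Quotient.sound (QuotientGroup.leftRel_apply.mpr ((key a b).mpr (QuotientGroup.eq.mp hab)))
  refine ⟨B', Subgroup.finiteIndex_of_finite_quotient, ?_⟩
  intro x hx
  have h3 : (x : N ⋊[φ] Q).left ∈ B.comap ι := hK hx
  have h4 : ι (x : N ⋊[φ] Q).left = x := by
    apply Subtype.ext
    apply SemidirectProduct.ext
    · rfl
    · exact (hr x).symm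
  rw [Subgroup.mem_comap, h4] at h3
  exact h3

end RFC
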