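import Pool.Agent.Lib.MP_83fbc5_gt.RFC.V0

/-!
# RFC, module V6: residually unitriangular groups are of class `VI`

PROOF. `S ≠ ⊥`, `x ∈ S`, `x ≠ 1`, `π` with `UniTri π`, `π x ≠ 1`. Some entry `(i, j)`, `i < j`, of `π x` is not `0`. Let `k` be the least number such that
some `s ∈ S` has a nonzero entry `(i, j)` with `j - i = k`, `k > 0` (`Nat.find`), with such `i, j`. Then `f : S → ℤ`, `f s = (π s) i j` is
additive: `(π s π t) i j = ∑ l, (π s) i l * (π t) l j`: `l < i` gives `0` (triangular), `l = i` gives `(π t) i j`, `i < l < j` gives `0` (minimality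
of `k`: `(π s) i l = 0`), `l = j` gives `(π s) i j`, `l > j` gives `0`. `exists_div_hom` gives `d`, `φ'`. For `n` let `m = n + 1` and let `B` be the kernel of
`H → GL_n(ℤ/(d m))` (reduction of `π`; a finite group, `Subgroup.finiteIndex_ker`): `s ∈ S ∩ B` has `d m ∣ (π s) i j = d φ' s`.
(45 minutes)
-/

set_option autoImplicit false

namespace RFC

private theorem V6_mul {H : Type} [Group H] {n : ℕ} {π : H →* (Matrix (Fin n) (Fin n) ℤ)ˣ} (hπ : UniTri π)
    {i j : Fin n} (hij : i < j) (s t : H)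
    (hmin : ∀ l, i < l → l < j → (π s : Matrix (Fin n) (Fin n) ℤ) i l = 0) :
    (π (s * t) : Matrix (Fin n) (Fin n) ℤ) i j =
      (π s : Matrix (Fin n) (Fin n) ℤ) i j + (π t : Matrix (Fin n) (Fin n) ℤ) i j := by
  rw [map_mul, Units.val_mul, Matrix.mul_apply, Fintype.sum_eq_add i j hij.ne, (hπ s).1 i, (hπ t).1 j,
    one_mul, mul_one, add_comm]
  rintro l ⟨hli, hlj⟩
  rcases lt_trichotomy l i with h1 | h1 | h1
  · rw [(hπ s).2 i l h1, zero_mul]
  · exact absurd h1 hli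
  · rcases lt_trichotomy l j with h2 | h2 | h2
    · rw [hmin l h1 h2, zero_mul]
    · exact absurd h2 hlj
    · rw [(hπ t).2 l j h2, mul_zero]

theorem vi_ut {H : Type} [Group H]
    (h : ∀ x : H, x ≠ 1 → ∃ (n : ℕ) (π : H →* (Matrix (Fin n) (Fin n) ℤ)ˣ), UniTri π ∧ π x ≠ 1) : VI H := by
  intro S _ hS
  obtain ⟨a, ha⟩ := Subgroup.ne_bot_iff_exists_ne_one.mp hS
  obtain ⟨x, hxS, hx1⟩ : ∃ x : H, x ∈ S ∧ x ≠ 1 := ⟨a, a.2, fun h0 => ha (Subtype.ext h0)⟩
  obtain ⟨n, π, hπ, hπx⟩ := h x hx1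
  classical
  have hex : ∃ k : ℕ, 0 < k ∧ ∃ s ∈ S, ∃ i j : Fin n, (j : ℕ) = i + k ∧
      (π s : Matrix (Fin n) (Fin n) ℤ) i j ≠ 0 := by
    by_contra hne
    apply hπx
    apply Units.ext
    ext i j
    rw [Units.val_one]
    rcases lt_trichotomy i j with h1 | h1 | h1
    · rw [Matrix.one_apply_ne h1.ne]
      by_contra h2
      apply hne
      refine ⟨(j : ℕ) - i, ?_, x, hxS, i, j, ?_, h2⟩
      · have : (i : ℕ) < j := h1
        omega
      · have : (i : ℕ) < j := h1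
        omega
    · subst h1
      rw [Matrix.one_apply_eq, (hπ x).1]
    · rw [Matrix.one_apply_ne h1.ne', (hπ x).2 i j h1]
  obtain ⟨k, hk⟩ : ∃ k, k = Nat.find hex := ⟨_, rfl⟩
  obtain ⟨hk0, s0, hs0, i, j, hij, hs0ij⟩ := Nat.find_spec hex
  rw [← hk] at hk0 hij
  have hij' : i < j := by
    show (i : ℕ) < j
    omega
  have hmin : ∀ s ∈ S, ∀ l, i < l → l < j → (π s : Matrix (Fin n) (Fin n) ℤ) i l = 0 := by
    intro s hs l h1 h2
    by_contra h3
    have h1' : (i : ℕ) < l := h1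
    have h2' : (l : ℕ) < j := h2
    refine Nat.find_min hex (m := (l : ℕ) - i) ?_ ⟨by omega, s, hs, i, l, by omega, h3⟩
    rw [← hk]
    omega
  let f : S →* Multiplicative ℤ :=
    { toFun := fun s => Multiplicative.ofAdd ((π s : Matrix (Fin n) (Fin n) ℤ) i j)
      map_one' := by
        show Multiplicative.ofAdd ((π ((1 : S) : H) : Matrix (Fin n) (Fin n) ℤ) i j) = 1
        rw [Subgroup.coe_one, map_one, Units.val_one, Matrix.one_apply_ne hij'.ne]
        rfl
      map_mul' := by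
        intro s t
        show Multiplicative.ofAdd ((π ((s * t : S) : H) : Matrix (Fin n) (Fin n) ℤ) i j) = _
        rw [Subgroup.coe_mul, V6_mul hπ hij' _ _ (hmin s s.2)]
        rfl }
  have hf : ∀ s : S, Multiplicative.toAdd (f s) = (π s : Matrix (Fin n) (Fin n) ℤ) i j := fun _ => rfl
  obtain ⟨d, φ, hd, hφ, hfφ⟩ := exists_div_hom f ⟨s0, hs0⟩ (by
    intro h0
    apply hs0ij
    have := hf ⟨s0, hs0⟩
    rw [h0] at this
    exact this.symm)
  refine ⟨φ, hφ, ?_⟩
  intro N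
  refine ⟨N + 1, Nat.lt_succ_self N, ?_⟩
  have : NeZero (d * (N + 1)) := ⟨by positivity⟩
  let red : H →* (Matrix (Fin n) (Fin n) (ZMod (d * (N + 1))))ˣ :=
    (Units.map ((Int.castRingHom (ZMod (d * (N + 1)))).mapMatrix.toMonoidHom)).comp π
  have hfin : Finite red.range := inferInstance
  refine ⟨red.ker, Subgroup.finiteIndex_ker red, ?_⟩
  intro s hs
  rw [MonoidHom.mem_ker] at hs
  have h1 : ((red s : (Matrix (Fin n) (Fin n) (ZMod (d * (N + 1))))ˣ) :
      Matrix (Fin n) (Fin n) (ZMod (d * (N + 1)))) i j = 0 := by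
    rw [hs, Units.val_one, Matrix.one_apply_ne hij'.ne]
  have h2 : (((π s : Matrix (Fin n) (Fin n) ℤ) i j : ℤ) : ZMod (d * (N + 1))) = 0 := h1
  rw [ZMod.intCast_zmod_eq_zero_iff_dvd, ← hf s, hfφ s] at h2
  push_cast at h2 ⊢
  exact (mul_dvd_mul_iff_left (by positivity)).mp h2

end RFC
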