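import Pool.Agent.Lib.MP_83fbc5_gt.RFC.EDefs

/-!
# RFC: definitions for the examples of groups of class `VI`
-/

set_option autoImplicit false

namespace RFC

/-- residually finite rationally solvable groups: a decreasing sequence `T i` of subgroups of finite index with trivial intersection,
starting with the whole group, such that every element of `T i` outside `T (i + 1)` is detected by a homomorphism `T i → ℤ` -/
def RFRS (H : Type) [Group H] : Prop :=
  ∃ T : ℕ → Subgroup H, T 0 = ⊤ ∧ Antitone T ∧ (∀ i, (T i).FiniteIndex) ∧ (⨅ i, T i = ⊥) ∧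
    ∀ (i : ℕ) (x : T i), (x : H) ∉ T (i + 1) → ∃ φ : T i →* Multiplicative ℤ, φ x ≠ 1

/-- subgroup separable groups -/
def LERF (H : Type) [Group H] : Prop :=
  ∀ S : Subgroup H, S.FG → ∀ x : H, x ∉ S → ∃ B : Subgroup H, B.FiniteIndex ∧ S ≤ B ∧ x ∉ B

/-- locally indicable groups -/
def LocInd (H : Type) [Group H] : Prop :=
  ∀ S : Subgroup H, S.FG → S ≠ ⊥ → ∃ φ : S →* Multiplicative ℤ, Function.Surjective φ

/-- `π` has values in the unitriangular matrices -/
def UniTri {H : Type} [Group H] {n : ℕ} (π : H →* (Matrix (Fin n) (Fin n) ℤ)ˣ) : Prop :=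
  ∀ h : H, (∀ i, (π h : Matrix (Fin n) (Fin n) ℤ) i i = 1) ∧ ∀ i j, j < i → (π h : Matrix (Fin n) (Fin n) ℤ) i j = 0

/-- the intersection of the kernels of all homomorphisms to the symmetric group on `n` letters -/
def Kn (G : Type) [Group G] (n : ℕ) : Subgroup G := ⨅ f : G →* Equiv.Perm (Fin n), f.ker

end RFC
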