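import Pool.Agent.Lib.MP_83fbc5_gt.RFC.WDefs
import Pool.Agent.Lib.MP_83fbc5_gt.RFC.V0

/-!
# RFC, module W2: sequences adapted to a tower are rich

PROOF. `N j ≤ T 0 = H` eventually (take the trivial homomorphism). Let `S ≤ H`, `S ≠ ⊥`. As in V1: `S ≤ T i`, `x ∈ S`, `x ∉ T (i + 1)`,
`φ : T i → ℤ` with `φ x ≠ 1`; restrict to `S` (`Subgroup.inclusion`), `exists_div_hom`: `φ s = d φ' s`, `d > 0`, `φ'` surjective. For `n` choose `k` with
`p ^ k > n * d` (`p ≥ 2`), `g = gcd (p ^ k) d`, `m = p ^ k / g ≥ p ^ k / d > n`. If `s ∈ S ∩ N j` then `p ^ k ∣ d φ' s`, so `m ∣ (d / g) φ' s` and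
`gcd m (d / g) = 1`, so `m ∣ φ' s` (`Int.isCoprime..`, `IsCoprime.dvd_of_dvd_mul_left`, `Nat.Coprime` and `Int.natAbs`).
(30 minutes)
-/

set_option autoImplicit false

namespace RFC

open Filter

/-- if `p ^ k ∣ d c` then `p ^ k / gcd (p ^ k) d ∣ c` -/
private theorem W2_dvd (a d : ℕ) (hd : 0 < d) (c : ℤ) (h : (a : ℤ) ∣ (d : ℤ) * c) : ((a / Nat.gcd a d : ℕ) : ℤ) ∣ c := by
  have hg : 0 < Nat.gcd a d := Nat.gcd_pos_of_pos_right _ hd
  have h1 : a ∣ d * c.natAbs := by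
    have h2 := Int.natAbs_dvd_natAbs.2 h
    rwa [Int.natAbs_natCast, Int.natAbs_mul, Int.natAbs_natCast] at h2
  have hco : Nat.Coprime (a / Nat.gcd a d) (d / Nat.gcd a d) := Nat.coprime_div_gcd_div_gcd hg
  have h3 : a / Nat.gcd a d ∣ (d / Nat.gcd a d) * c.natAbs := by
    have e : d * c.natAbs = Nat.gcd a d * ((d / Nat.gcd a d) * c.natAbs) := by
      rw [← mul_assoc, Nat.mul_div_cancel' (Nat.gcd_dvd_right a d)]
    have e' : a = Nat.gcd a d * (a / Nat.gcd a d) := (Nat.mul_div_cancel' (Nat.gcd_dvd_left a d)).symm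
    rw [e] at h1
    rw [e'] at h1
    have e2 : Nat.gcd (Nat.gcd a d * (a / Nat.gcd a d)) d = Nat.gcd a d := by rw [← e']
    rw [e2] at h1
    exact Nat.dvd_of_mul_dvd_mul_left hg h1
  exact Int.natCast_dvd.2 (hco.dvd_of_dvd_mul_left h3)

theorem tower_richin {G : Type} [Group G] (H : Subgroup G) (T : ℕ → Subgroup G) (hT : Tower H T) (p : ℕ) (hp : 2 ≤ p)
    (N : ℕ → Subgroup G) (hN : Adapted p T N) : RichIn H N := by
  obtain ⟨h0, -, hinf, hdet⟩ := hT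
  refine ⟨?_, ?_⟩
  · filter_upwards [hN 0 0 1] with j hj x hx
    obtain ⟨h, -⟩ := hj x hx
    rw [← h0]
    exact h
  intro S hSH _ hS
  obtain ⟨x0, hx0, hx1⟩ := (Subgroup.ne_bot_iff_exists_ne_one).1 hS |>.elim
    fun a ha => (⟨(a : G), a.2, fun h => ha (Subtype.ext h)⟩ : ∃ x0 : G, x0 ∈ S ∧ x0 ≠ 1)
  have hex : ∃ j, ¬ S ≤ T j := by
    by_contra hcon
    push Not at hcon
    have h1 : x0 ∈ ⨅ i, T i := (Subgroup.mem_iInf).2 fun i => hcon i hx0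
    rw [hinf, Subgroup.mem_bot] at h1
    exact hx1 h1
  classical
  have hj := Nat.find_spec hex
  have hmin : ∀ i, i < Nat.find hex → S ≤ T i := fun i hi => by
    by_contra hc
    exact Nat.find_min hex hi hc
  have hj0 : Nat.find hex ≠ 0 := by
    intro h1
    rw [h1, h0] at hj
    exact hj hSH
  obtain ⟨i, hi⟩ := Nat.exists_eq_succ_of_ne_zero hj0
  rw [hi] at hj
  have hle : S ≤ T i := hmin i (by omega)
  obtain ⟨x, hxS, hxT⟩ := SetLike.not_le_iff_exists.1 hj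
  obtain ⟨φ, hφ⟩ := hdet i ⟨x, hle hxS⟩ hxT
  obtain ⟨d, φ', hd, hsurj, hφ'⟩ := exists_div_hom (φ.comp (Subgroup.inclusion hle)) ⟨x, hxS⟩ hφ
  refine ⟨φ', hsurj, fun n => ?_⟩
  have hk : n * d < p ^ (n * d) := Nat.lt_pow_self (by omega)
  refine ⟨p ^ (n * d) / Nat.gcd (p ^ (n * d)) d, ?_, ?_⟩
  · have hg : Nat.gcd (p ^ (n * d)) d ≤ d := Nat.le_of_dvd hd (Nat.gcd_dvd_right _ _)
    have hg0 : 0 < Nat.gcd (p ^ (n * d)) d := Nat.gcd_pos_of_pos_right _ hd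
    have h1 : n * Nat.gcd (p ^ (n * d)) d < p ^ (n * d) := lt_of_le_of_lt (Nat.mul_le_mul_left n hg) hk
    have h2 : Nat.gcd (p ^ (n * d)) d * (p ^ (n * d) / Nat.gcd (p ^ (n * d)) d) = p ^ (n * d) :=
      Nat.mul_div_cancel' (Nat.gcd_dvd_left _ _)
    by_contra hcon
    push Not at hcon
    have h3 := Nat.mul_le_mul_left (Nat.gcd (p ^ (n * d)) d) hcon
    rw [h2] at h3
    have h4 : Nat.gcd (p ^ (n * d)) d * n = n * Nat.gcd (p ^ (n * d)) d := mul_comm _ _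
    omega
  · filter_upwards [hN i (n * d) φ] with j hj' s hs
    obtain ⟨h, h2⟩ := hj' (s : G) hs
    refine W2_dvd _ _ hd _ ?_
    have h3 : Multiplicative.toAdd (φ ⟨(s : G), h⟩) = (d : ℤ) * Multiplicative.toAdd (φ' s) := hφ' s
    rw [← h3]
    exact h2

end RFC
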