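import Pool.Agent.Lib.MP_83fbc5_gt.RFC.WDefs
import Pool.Agent.Lib.MP_83fbc5_gt.RFC.V0

/-!
# RFC, module W3: residually unitriangular groups and sequences cofinal in the pro-`p` topology

PROOF. `N j ≤ H` eventually (`B = ⊤`, index `p ^ 0`). Let `S ≤ H`, `S ≠ ⊥`. As in V6 (copy its private lemmas): `π : H → GL_n(ℤ)` unitriangular and
`f : S → ℤ`, `f s = (π s) i j` additive and nonzero; `exists_div_hom`: `f s = d φ' s`. For `n` choose `k` with `p ^ k > n * d`. Let `B` be the kernel of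
`H → GL_n(ℤ/p^k)` (reduction of `π`). `B` is normal, its index is the order of the image, a power of `p`: CLAIM every unitriangular
`g = 1 + x` over `ℤ/p^k` satisfies `g ^ (p ^ L) = 1` for some `L` (then the image is a finite `p`-group, `IsPGroup`, `IsPGroup.iff_card`,
`Subgroup.index_ker`). Proof of the claim: `x` and `p` are nilpotent and commute; in the ring of matrices with `p ^ k = 0`, `x ^ n = 0`:
`(1 + y) ^ p = 1 + y z` with `z` in the ideal generated by `p` and `y`, in the commutative subring generated by `x`; so `g ^ (p ^ L) - 1` is in the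
`(L + 1)`-st power of the ideal `(p, x)`, which vanishes for `L = n + k`. (Alternative: the number of unitriangular matrices is a power of
`p^k`, and the image is a subgroup.) Then `m = p ^ k / gcd (p ^ k) d` as in W2: `s ∈ S ∩ N j` lies in `B.map H.subtype`, so `p ^ k ∣ (π s) i j`.
(60 minutes)
-/

set_option autoImplicit false

namespace RFC

open Filter

private theorem W3_mul {H : Type} [Group H] {n : ℕ} {π : H →* (Matrix (Fin n) (Fin n) ℤ)ˣ} (hπ : UniTri π)
    {i j : Fin n} (hij : i < j) (s t : H)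
    (hmin : ∀ l, i < l → l < j → (π s : Matrix (Fin n) (Fin n) ℤ) i l = 0) :
    (π (s * t) : Matrix (Fin n) (Fin n) ℤ) i j =
      (π s : Matrix (Fin n) (Fin n) ℤ) i j + (π t : Matrix (Fin n) (Fin n) ℤ) i j := by
  rw [map_mul, Units.val_mul, Matrix.mul_apply, Fintype.sum_eq_add i j hij.ne, (hπ s).1 i, (hπ t).1 j,
    one_mul, mul_one, add_comm]
  rintro l ⟨hli, hlj⟩
  rcases lt_trichotomy l i with h1 | h1 | h1
  · rw [(hπ s).2 i l h1, zero_mul]
  · exact absurd h1 hli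
  · rcases lt_trichotomy l j with h2 | h2 | h2
    · rw [hmin l h1 h2, zero_mul]
    · exact absurd h2 hlj
    · rw [(hπ t).2 l j h2, mul_zero]

/-- if `p ^ k ∣ d c` then `p ^ k / gcd (p ^ k) d ∣ c` -/
private theorem W3_dvd (a d : ℕ) (hd : 0 < d) (c : ℤ) (h : (a : ℤ) ∣ (d : ℤ) * c) : ((a / Nat.gcd a d : ℕ) : ℤ) ∣ c := by
  have hg : 0 < Nat.gcd a d := Nat.gcd_pos_of_pos_right _ hd
  have h1 : a ∣ d * c.natAbs := by
    have h2 := Int.natAbs_dvd_natAbs.2 h
    rwa [Int.natAbs_natCast, Int.natAbs_mul, Int.natAbs_natCast] at h2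
  have hco : Nat.Coprime (a / Nat.gcd a d) (d / Nat.gcd a d) := Nat.coprime_div_gcd_div_gcd hg
  have h3 : a / Nat.gcd a d ∣ (d / Nat.gcd a d) * c.natAbs := by
    have e : d * c.natAbs = Nat.gcd a d * ((d / Nat.gcd a d) * c.natAbs) := by
      rw [← mul_assoc, Nat.mul_div_cancel' (Nat.gcd_dvd_right a d)]
    have e' : a = Nat.gcd a d * (a / Nat.gcd a d) := (Nat.mul_div_cancel' (Nat.gcd_dvd_left a d)).symm
    rw [e] at h1
    rw [e'] at h1
    have e2 : Nat.gcd (Nat.gcd a d * (a / Nat.gcd a d)) d = Nat.gcd a d := by rw [← e']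
    rw [e2] at h1
    exact Nat.dvd_of_mul_dvd_mul_left hg h1
  exact Int.natCast_dvd.2 (hco.dvd_of_dvd_mul_left h3)

/-- `m > n` for `m = a / gcd a d` if `n d < a` -/
private theorem W3_lt (a d n : ℕ) (hd : 0 < d) (h : n * d < a) : n < a / Nat.gcd a d := by
  have hg : Nat.gcd a d ≤ d := Nat.le_of_dvd hd (Nat.gcd_dvd_right _ _)
  have h1 : n * Nat.gcd a d < a := lt_of_le_of_lt (Nat.mul_le_mul_left n hg) h
  have h2 : Nat.gcd a d * (a / Nat.gcd a d) = a := Nat.mul_div_cancel' (Nat.gcd_dvd_left _ _)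
  by_contra hcon
  push Not at hcon
  have h3 := Nat.mul_le_mul_left (Nat.gcd a d) hcon
  rw [h2] at h3
  have h4 : Nat.gcd a d * n = n * Nat.gcd a d := mul_comm _ _
  omega

/-- binomial coefficients `C(p^L, i)`, `0 < i < n`, `L ≥ K + n` are divisible by `p ^ K` -/
private theorem W3_choose (p : ℕ) (hp : p.Prime) (K n i : ℕ) (hi : 0 < i) (hin : i < n) :
    p ^ K ∣ Nat.choose (p ^ (K + n)) i := by
  have h1 : p ^ (K + n) ∣ i * Nat.choose (p ^ (K + n)) i := by
    obtain ⟨i', rfl⟩ := Nat.exists_eq_succ_of_ne_zero hi.ne'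
    obtain ⟨q, hq⟩ := Nat.exists_eq_succ_of_ne_zero (pow_pos hp.pos (K + n)).ne'
    have h2 := Nat.add_one_mul_choose_eq q i'
    rw [hq]
    refine ⟨Nat.choose q i', ?_⟩
    rw [mul_comm, Nat.succ_eq_add_one]
    exact h2.symm
  have h3 : p ^ (K + n) / Nat.gcd (p ^ (K + n)) i ∣ Nat.choose (p ^ (K + n)) i := by
    have h4 := W3_dvd (p ^ (K + n)) i hi ((Nat.choose (p ^ (K + n)) i : ℕ) : ℤ) (by exact_mod_cast h1)
    exact_mod_cast h4
  refine dvd_trans ?_ h3
  obtain ⟨e, he, heq⟩ := (Nat.dvd_prime_pow hp).1 (Nat.gcd_dvd_left (p ^ (K + n)) i)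
  have h5 : p ^ e ≤ i := by
    rw [← heq]
    exact Nat.le_of_dvd hi (Nat.gcd_dvd_right _ _)
  have h6 : e < n := by
    have h7 : e < p ^ e := Nat.lt_pow_self hp.one_lt
    omega
  rw [heq, Nat.pow_div he hp.pos]
  exact pow_dvd_pow p (by omega)

/-- strictly upper triangular matrices are nilpotent -/
private theorem W3_nil {R : Type} [CommRing R] {n : ℕ} (x : Matrix (Fin n) (Fin n) R) (hx : ∀ i j, j ≤ i → x i j = 0) (k : ℕ) :
    ∀ i j : Fin n, (j : ℕ) < i + k → (x ^ k) i j = 0 := by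
  induction k with
  | zero =>
    intro i j hij
    rw [pow_zero, Matrix.one_apply_ne]
    intro h
    subst h
    omega
  | succ k ih =>
    intro i j hij
    rw [pow_succ, Matrix.mul_apply]
    refine Finset.sum_eq_zero fun l _ => ?_
    rcases lt_or_ge (l : ℕ) (i + k) with h1 | h1
    · rw [ih i l h1, zero_mul]
    · rw [hx l j ?_, mul_zero]
      show (j : ℕ) ≤ l
      omega

/-- unitriangular matrices over `ℤ/p^K` have `p`-power order -/
private theorem W3_pow (p : ℕ) (hp : p.Prime) (K n : ℕ) (x : Matrix (Fin n) (Fin n) (ZMod (p ^ K)))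
    (hx : ∀ i j, j ≤ i → x i j = 0) : (x + 1) ^ (p ^ (K + n)) = 1 := by
  have hn : ∀ k, n ≤ k → x ^ k = 0 := by
    intro k hk
    ext i j
    rw [W3_nil x hx k i j (by omega)]
    rfl
  rw [(Commute.one_right x).add_pow, Finset.sum_eq_single 0]
  · simp
  · intro i _ hi
    rcases lt_or_ge i n with h1 | h1
    · obtain ⟨c, hc⟩ := W3_choose p hp K n i (Nat.pos_of_ne_zero hi) h1
      rw [hc]
      have h0 : ((p ^ K * c : ℕ) : Matrix (Fin n) (Fin n) (ZMod (p ^ K))) = 0 := by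
        have h2 : ((p ^ K * c : ℕ) : ZMod (p ^ K)) = 0 := by
          rw [Nat.cast_mul, ZMod.natCast_self, zero_mul]
        have h3 : ((p ^ K * c : ℕ) : Matrix (Fin n) (Fin n) (ZMod (p ^ K))) =
            Matrix.diagonal (fun _ => ((p ^ K * c : ℕ) : ZMod (p ^ K))) := (Matrix.diagonal_natCast _).symm
        rw [h3, h2]
        exact Matrix.diagonal_zero
      rw [h0, mul_zero]
    · rw [hn i h1, zero_mul, zero_mul]
  · intro h
    exact absurd (Finset.mem_range.2 (Nat.succ_pos _)) h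

theorem ut_richin {G : Type} [Group G] (H : Subgroup G)
    (h : ∀ x : H, x ≠ 1 → ∃ (n : ℕ) (π : H →* (Matrix (Fin n) (Fin n) ℤ)ˣ), UniTri π ∧ π x ≠ 1)
    (p : ℕ) (hp : p.Prime) (N : ℕ → Subgroup G) (hN : PCofinal p H N) : RichIn H N := by
  refine ⟨?_, ?_⟩
  · filter_upwards [hN ⊤ inferInstance ⟨0, by simp⟩] with i hi x hx
    obtain ⟨y, _, rfl⟩ := hi hx
    exact y.2
  intro S hSH _ hS
  obtain ⟨a, ha⟩ := Subgroup.ne_bot_iff_exists_ne_one.mp hS
  have hx1 : (⟨(a : G), hSH a.2⟩ : H) ≠ 1 := by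
    intro h0
    apply ha
    apply Subtype.ext
    exact congrArg (Subtype.val : H → G) h0
  obtain ⟨n, π, hπ, hπx⟩ := h _ hx1
  classical
  have hex : ∃ k : ℕ, 0 < k ∧ ∃ s : S, ∃ i j : Fin n, (j : ℕ) = i + k ∧
      (π ⟨(s : G), hSH s.2⟩ : Matrix (Fin n) (Fin n) ℤ) i j ≠ 0 := by
    by_contra hne
    apply hπx
    apply Units.ext
    ext i j
    rw [Units.val_one]
    rcases lt_trichotomy i j with h1 | h1 | h1
    · rw [Matrix.one_apply_ne h1.ne]
      by_contra h2
      apply hne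
      refine ⟨(j : ℕ) - i, ?_, a, i, j, ?_, h2⟩
      · have : (i : ℕ) < j := h1
        omega
      · have : (i : ℕ) < j := h1
        omega
    · subst h1
      rw [Matrix.one_apply_eq, (hπ _).1]
    · rw [Matrix.one_apply_ne h1.ne', (hπ _).2 i j h1]
  obtain ⟨k, hk⟩ : ∃ k, k = Nat.find hex := ⟨_, rfl⟩
  obtain ⟨hk0, s0, i, j, hij, hs0ij⟩ := Nat.find_spec hex
  rw [← hk] at hk0 hij
  have hij' : i < j := by
    show (i : ℕ) < j
    omega
  have hmin : ∀ s : S, ∀ l, i < l → l < j → (π ⟨(s : G), hSH s.2⟩ : Matrix (Fin n) (Fin n) ℤ) i l = 0 := by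
    intro s l h1 h2
    by_contra h3
    have h1' : (i : ℕ) < l := h1
    have h2' : (l : ℕ) < j := h2
    refine Nat.find_min hex (m := (l : ℕ) - i) ?_ ⟨by omega, s, i, l, by omega, h3⟩
    rw [← hk]
    omega
  let f : S →* Multiplicative ℤ :=
    { toFun := fun s => Multiplicative.ofAdd ((π ⟨(s : G), hSH s.2⟩ : Matrix (Fin n) (Fin n) ℤ) i j)
      map_one' := by
        have e : (⟨((1 : S) : G), hSH (1 : S).2⟩ : H) = 1 := rfl
        rw [e, map_one, Units.val_one, Matrix.one_apply_ne hij'.ne]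
        rfl
      map_mul' := by
        intro s t
        have e : (⟨((s * t : S) : G), hSH (s * t).2⟩ : H) = ⟨(s : G), hSH s.2⟩ * ⟨(t : G), hSH t.2⟩ := rfl
        rw [e, W3_mul hπ hij' _ _ (hmin s)]
        rfl }
  have hf : ∀ s : S, Multiplicative.toAdd (f s) = (π ⟨(s : G), hSH s.2⟩ : Matrix (Fin n) (Fin n) ℤ) i j := fun _ => rfl
  obtain ⟨d, φ, hd, hφ, hfφ⟩ := exists_div_hom f s0 (by
    intro h0
    apply hs0ij
    have := hf s0
    rw [h0] at this
    exact this.symm)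
  refine ⟨φ, hφ, ?_⟩
  intro m
  have hK : m * d < p ^ (m * d) := Nat.lt_pow_self hp.one_lt
  refine ⟨p ^ (m * d) / Nat.gcd (p ^ (m * d)) d, W3_lt _ _ _ hd hK, ?_⟩
  have : NeZero (p ^ (m * d)) := ⟨(pow_pos hp.pos _).ne'⟩
  have : Fact p.Prime := ⟨hp⟩
  let red : H →* (Matrix (Fin n) (Fin n) (ZMod (p ^ (m * d))))ˣ :=
    (Units.map ((Int.castRingHom (ZMod (p ^ (m * d)))).mapMatrix.toMonoidHom)).comp π
  have hred : ∀ (y : H) (i j : Fin n), ((red y : (Matrix (Fin n) (Fin n) (ZMod (p ^ (m * d))))ˣ) :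
      Matrix (Fin n) (Fin n) (ZMod (p ^ (m * d)))) i j = (((π y : Matrix (Fin n) (Fin n) ℤ) i j : ℤ) : ZMod (p ^ (m * d))) :=
    fun _ _ _ => rfl
  have hfin : Finite red.range := inferInstance
  have hpg : IsPGroup p red.range := by
    rintro ⟨_, y, rfl⟩
    refine ⟨m * d + n, ?_⟩
    apply Subtype.ext
    apply Units.ext
    show ((red y : (Matrix (Fin n) (Fin n) (ZMod (p ^ (m * d))))ˣ) : Matrix (Fin n) (Fin n) (ZMod (p ^ (m * d)))) ^
      (p ^ (m * d + n)) = 1
    have e := W3_pow p hp (m * d) n (((red y : (Matrix (Fin n) (Fin n) (ZMod (p ^ (m * d))))ˣ) :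
      Matrix (Fin n) (Fin n) (ZMod (p ^ (m * d)))) - 1) (by
        intro i j hji
        rw [Matrix.sub_apply, hred]
        rcases hji.eq_or_lt with h1 | h1
        · subst h1
          rw [(hπ y).1, Matrix.one_apply_eq, Int.cast_one, sub_self]
        · rw [(hπ y).2 i j h1, Matrix.one_apply_ne h1.ne', Int.cast_zero, sub_self])
    rw [sub_add_cancel] at e
    exact e
  obtain ⟨q, hq⟩ := (IsPGroup.iff_card).1 hpg
  filter_upwards [hN red.ker inferInstance ⟨q, by rw [Subgroup.index_ker, hq]⟩] with l hl s hs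
  obtain ⟨y, hy, hys⟩ := hl hs
  have ey : y = ⟨(s : G), hSH s.2⟩ := Subtype.ext hys
  refine W3_dvd _ _ hd _ ?_
  rw [← hfφ s, hf s, ← ey, ← ZMod.intCast_zmod_eq_zero_iff_dvd, ← hred]
  have hy' : red y = 1 := hy
  rw [hy', Units.val_one, Matrix.one_apply_ne hij'.ne]

end RFC
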